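import Mathlib

set_option autoImplicit false
set_option linter.unusedSectionVars false

/-!
# Configurations `33_6`, part A: counting and the adjacency relation
-/

namespace Pool.Agent.Helper15.C33

open Finset
open scoped Classical

/-- An abstract configuration `33_6`. -/
structure Conf {α β : Type} [Fintype α] [Fintype β] (I : α → β → Prop) : Prop where
  ca : Fintype.card α = 33
  cb : Fintype.card β = 33
  ra : ∀ a, (univ.filter (fun b => I a b)).card = 6
  rb : ∀ b, (univ.filter (fun a => I a b)).card = 6
  lin : ∀ a a' b b', a ≠ a' → I a b → I a' b → I a b' → I a' b' → b = b'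

variable {α β : Type} [Fintype α] [Fintype β] {I : α → β → Prop}

theorem Conf.dual (h : Conf I) : Conf (fun b a => I a b) where
  ca := h.cb
  cb := h.ca
  ra := h.rb
  rb := h.ra
  lin := by
    intro b b' a a' hb h1 h2 h3 h4
    by_contra hne
    exact hb (h.lin a a' b b' hne h1 h3 h2 h4)

/-- incidence as an integer -/
noncomputable def xx (I : α → β → Prop) (a : α) (b : β) : ℤ := if I a b then 1 else 0

theorem xx_of {a : α} {b : β} (h : I a b) : xx I a b = 1 := by simp [xx, h]
theorem xx_not {a : α} {b : β} (h : ¬ I a b) : xx I a b = 0 := by simp [xx, h]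
theorem xx_iff {a : α} {b : β} : xx I a b = 1 ↔ I a b := by
  unfold xx; split_ifs with h <;> simp [h]
theorem xx_cases (a : α) (b : β) : xx I a b = 0 ∨ xx I a b = 1 := by
  unfold xx; split_ifs <;> simp
theorem xx_nonneg (a : α) (b : β) : 0 ≤ xx I a b := by
  rcases xx_cases (I := I) a b with h | h <;> omega
theorem xx_le (a : α) (b : β) : xx I a b ≤ 1 := by
  rcases xx_cases (I := I) a b with h | h <;> omega

/-- adjacency: distinct and not joined -/
def Ad (I : α → β → Prop) (a a' : α) : Prop := a ≠ a' ∧ ∀ b, ¬ (I a b ∧ I a' b)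

theorem Ad.symm {a a' : α} (h : Ad I a a') : Ad I a' a :=
  ⟨fun e => h.1 e.symm, fun b hb => h.2 b ⟨hb.2, hb.1⟩⟩

noncomputable def ad (I : α → β → Prop) (a a' : α) : ℤ := if Ad I a a' then 1 else 0

theorem Conf.sum_row (h : Conf I) (a : α) : ∑ b, xx I a b = 6 := by
  have := h.ra a
  rw [Finset.card_filter] at this
  have h2 : ((∑ b, if I a b then 1 else 0 : ℕ) : ℤ) = 6 := by rw [this]; norm_num
  push_cast at h2
  simpa [xx] using h2

theorem Conf.sum_col (h : Conf I) (b : β) : ∑ a, xx I a b = 6 := h.dual.sum_row b

theorem Conf.prod (h : Conf I) (a a' : α) :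
    ∑ b, xx I a b * xx I a' b = 5 * (if a = a' then 1 else 0) + 1 - ad I a a' := by
  by_cases he : a = a'
  · subst he
    have h1 : ad I a a = 0 := by simp [ad, Ad]
    rw [h1]
    have h2 : ∑ b, xx I a b * xx I a b = ∑ b, xx I a b := by
      apply Finset.sum_congr rfl
      intro b _
      rcases xx_cases (I := I) a b with h | h <;> rw [h] <;> norm_num
    rw [h2, h.sum_row]
    simp
  · by_cases hA : Ad I a a'
    · have : ∑ b, xx I a b * xx I a' b = 0 := by
        apply Finset.sum_eq_zero
        intro b _
        have := hA.2 b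
        by_cases h1 : I a b
        · have h2 : ¬ I a' b := fun h2 => this ⟨h1, h2⟩
          rw [xx_not h2]; ring
        · rw [xx_not h1]; ring
      rw [this]
      simp [ad, hA, he]
    · have : ∃ b, I a b ∧ I a' b := by
        by_contra hcon
        push Not at hcon
        exact hA ⟨he, fun b hb => hcon b hb.1 hb.2⟩
      obtain ⟨b, hb1, hb2⟩ := this
      have h3 : ∑ b, xx I a b * xx I a' b = xx I a b * xx I a' b := by
        apply Finset.sum_eq_single
        · intro b' _ hne
          by_cases h1 : I a b'
          · by_cases h2 : I a' b'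
            · exact absurd (h.lin a a' b' b he h1 h2 hb1 hb2) hne
            · rw [xx_not h2]; ring
          · rw [xx_not h1]; ring
        · intro hb; exact absurd (Finset.mem_univ _) hb
      rw [h3, xx_of hb1, xx_of hb2]
      simp [ad, hA, he]

theorem Conf.sum_ad (h : Conf I) (a : α) : ∑ a', ad I a a' = 2 := by
  have h1 : ∑ a', ∑ b, xx I a b * xx I a' b = 36 := by
    rw [Finset.sum_comm]
    have : ∀ b, ∑ a', xx I a b * xx I a' b = 6 * xx I a b := by
      intro b
      rw [← Finset.mul_sum, h.sum_col]; ring
    simp_rw [this]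
    rw [← Finset.mul_sum, h.sum_row]; norm_num
  simp_rw [h.prod] at h1
  rw [Finset.sum_sub_distrib, Finset.sum_add_distrib, ← Finset.mul_sum] at h1
  simp only [Finset.sum_ite_eq, Finset.mem_univ, if_true, Finset.sum_const, Finset.card_univ, h.ca] at h1
  norm_num at h1
  linarith

theorem Conf.card_ad (h : Conf I) (a : α) : (univ.filter (fun a' => Ad I a a')).card = 2 := by
  have := h.sum_ad a
  rw [Finset.card_filter]
  have h2 : ((∑ b, if Ad I a b then 1 else 0 : ℕ) : ℤ) = 2 := by
    push_cast
    simpa [ad] using this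
  exact_mod_cast h2

/-- the intertwining relation `A N = N B` -/
theorem Conf.intertwine (h : Conf I) (a : α) (b : β) :
    ∑ a', ad I a a' * xx I a' b = ∑ b', xx I a b' * ad (fun b a => I a b) b b' := by
  have h1 : ∑ a', (∑ b', xx I a b' * xx I a' b') * xx I a' b
      = ∑ b', xx I a b' * (∑ a', xx I a' b * xx I a' b') := by
    simp_rw [Finset.sum_mul, Finset.mul_sum]
    rw [Finset.sum_comm]
    apply Finset.sum_congr rfl; intro b' _
    apply Finset.sum_congr rfl; intro a' _
    ring
  have h2 : ∀ b', ∑ a', xx I a' b * xx I a' b' = 5 * (if b = b' then 1 else 0) + 1 - ad (fun b a => I a b) b b' :=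
    fun b' => h.dual.prod b b'
  simp_rw [h.prod, h2] at h1
  have e1 : ∀ a', (5 * (if a = a' then 1 else 0) + 1 - ad I a a') * xx I a' b
      = 5 * (if a = a' then xx I a' b else 0) + xx I a' b - ad I a a' * xx I a' b := by
    intro a'; split_ifs <;> ring
  have e2 : ∀ b', xx I a b' * (5 * (if b = b' then 1 else 0) + 1 - ad (fun b a => I a b) b b')
      = 5 * (if b = b' then xx I a b' else 0) + xx I a b' - xx I a b' * ad (fun b a => I a b) b b' := by
    intro a'; split_ifs <;> ring
  simp_rw [e1, e2, Finset.sum_sub_distrib, Finset.sum_add_distrib, ← Finset.mul_sum] at h1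
  rw [h.sum_col, h.sum_row] at h1
  simp only [Finset.sum_ite_eq, Finset.mem_univ, if_true] at h1
  linarith

end Pool.Agent.Helper15.C33
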