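import Mathlib

set_option autoImplicit false
set_option linter.unusedSectionVars false

/-!
# Part B: orienting a finite 2-regular graph
-/

namespace Pool.Agent.Helper15.C33

open Finset
open scoped Classical

section orient

variable {α : Type} {R : α → α → Prop}

/-- darts of a relation -/
def Dart (R : α → α → Prop) : Type := {d : α × α // R d.1 d.2}

theorem exists_other [Fintype α] (h2 : ∀ a, (univ.filter (fun a' => R a a')).card = 2) (a u : α) (h : R a u) :
    ∃ w, R a w ∧ w ≠ u ∧ ∀ v, R a v → v = u ∨ v = w := by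
  obtain ⟨x, y, hxy, hE⟩ := Finset.card_eq_two.mp (h2 a)
  have hu : u ∈ univ.filter (fun a' => R a a') := by simp [h]
  have hx : R a x := by
    have : x ∈ univ.filter (fun a' => R a a') := by rw [hE]; simp
    simpa using this
  have hy : R a y := by
    have : y ∈ univ.filter (fun a' => R a a') := by rw [hE]; simp
    simpa using this
  have hall : ∀ v, R a v → v = x ∨ v = y := by
    intro v hv
    have : v ∈ univ.filter (fun a' => R a a') := by simp [hv]
    rw [hE] at this; simpa using this
  rcases hall u h with rfl | rfl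
  · exact ⟨y, hy, fun e => hxy e.symm, hall⟩
  · exact ⟨x, hx, hxy, fun v hv => (hall v hv).symm⟩

theorem exists_orientation {α : Type} [Fintype α] (R : α → α → Prop) (hs : ∀ a b, R a b → R b a)
    (hi : ∀ a, ¬ R a a) (h2 : ∀ a, (univ.filter (fun a' => R a a')).card = 2) :
    ∃ P : Equiv.Perm α, (∀ a a', R a a' ↔ a' = P a ∨ a' = P.symm a) ∧ ∀ a, P a ≠ P.symm a := by
  have hex : ∀ a u, ∃ w, R a u → (R a w ∧ w ≠ u ∧ ∀ v, R a v → v = u ∨ v = w) := by
    intro a u
    by_cases h : R a u
    · obtain ⟨w, hw⟩ := exists_other h2 a u h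
      exact ⟨w, fun _ => hw⟩
    · exact ⟨u, fun h' => absurd h' h⟩
  choose o ho using hex
  have ho1 : ∀ a u, R a u → R a (o a u) := fun a u h => (ho a u h).1
  have ho2 : ∀ a u, R a u → o a u ≠ u := fun a u h => (ho a u h).2.1
  have ho3 : ∀ a u v, R a u → R a v → v = u ∨ v = o a u := fun a u v h hv => (ho a u h).2.2 v hv
  have hoo : ∀ a u, R a u → o a (o a u) = u := by
    intro a u h
    rcases ho3 a u (o a (o a u)) h (ho1 a _ (ho1 a u h)) with h' | h'
    · exact h'
    · exact absurd h' (ho2 a _ (ho1 a u h))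
  have huniq : ∀ a u v, R a u → R a v → v ≠ u → v = o a u := by
    intro a u v h hv hne
    rcases ho3 a u v h hv with h' | h'
    · exact absurd h' hne
    · exact h'
  -- the next permutation
  let nx : Equiv.Perm (Dart R) :=
    { toFun := fun d => ⟨(d.1.2, o d.1.2 d.1.1), ho1 _ _ (hs _ _ d.2)⟩
      invFun := fun d => ⟨(o d.1.1 d.1.2, d.1.1), hs _ _ (ho1 _ _ d.2)⟩
      left_inv := by
        rintro ⟨⟨a, u⟩, h⟩
        apply Subtype.ext
        simp only
        rw [hoo _ _ (hs _ _ h)]
      right_inv := by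
        rintro ⟨⟨a, u⟩, h⟩
        apply Subtype.ext
        simp only
        rw [hoo _ _ h] }
  let rv : Dart R → Dart R := fun d => ⟨(d.1.2, d.1.1), hs _ _ d.2⟩
  have hrr : ∀ d, rv (rv d) = d := by
    rintro ⟨⟨a, u⟩, h⟩; rfl
  have hrn : ∀ d, rv (nx d) = nx⁻¹ (rv d) := by
    rintro ⟨⟨a, u⟩, h⟩; rfl
  have hrn' : ∀ d, rv (nx⁻¹ d) = nx (rv d) := by
    intro d
    have := hrn (nx⁻¹ d)
    have e1 : ∀ z, nx (nx⁻¹ z) = z := fun z => Equiv.apply_symm_apply nx z
    rw [e1] at this
    rw [this, e1]
  have hrk : ∀ (k : ℤ) d, rv ((nx ^ k) d) = (nx ^ (-k)) (rv d) := by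
    intro k
    induction k using Int.induction_on with
    | zero => intro d; simp
    | succ n ih =>
      intro d
      rw [add_comm, zpow_add, zpow_one, Equiv.Perm.mul_apply, hrn, ih, neg_add, zpow_add, zpow_neg_one,
        Equiv.Perm.mul_apply]
    | pred n ih =>
      intro d
      rw [show (-(n:ℤ) - 1) = -1 + -(n:ℤ) by ring, zpow_add, zpow_neg_one, Equiv.Perm.mul_apply, hrn', ih,
        neg_add, zpow_add, neg_neg, neg_neg, zpow_one, Equiv.Perm.mul_apply]
  have hnsc : ∀ d, ¬ nx.SameCycle d (rv d) := by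
    rintro d ⟨k, hk⟩
    rcases Int.even_or_odd' k with ⟨j, hj | hj⟩
    · have h1 := hrk j d
      rw [← hk, ← Equiv.Perm.mul_apply, ← zpow_add, hj, show -j + 2 * j = j by ring] at h1
      set d' := (nx ^ j) d
      have h2 : d'.1.2 = d'.1.1 := by
        have := congrArg (fun z : Dart R => z.1.1) h1
        exact this
      have h3 := d'.2
      rw [h2] at h3
      exact hi _ h3
    · have h1 := hrk j d
      rw [← hk, ← Equiv.Perm.mul_apply, ← zpow_add, hj, show -j + (2 * j + 1) = 1 + j by ring,
        zpow_add, zpow_one, Equiv.Perm.mul_apply] at h1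
      set d' := (nx ^ j) d
      have h2 : d'.1.1 = o d'.1.2 d'.1.1 := by
        have := congrArg (fun z : Dart R => z.1.2) h1
        exact this
      exact ho2 _ _ (hs _ _ d'.2) h2.symm
  have hfinD : Finite (Dart R) := by
    unfold Dart; infer_instance
  obtain ⟨f, hf⟩ : ∃ f : Quotient (Equiv.Perm.SameCycle.setoid nx) → ℕ, Function.Injective f :=
    Countable.exists_injective_nat _
  let key : Dart R → ℕ := fun d => f (Quotient.mk _ d)
  have hkey : ∀ d d', nx.SameCycle d d' → key d = key d' := by
    intro d d' h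
    exact congrArg f (Quotient.sound h)
  have hkey2 : ∀ d, key d ≠ key (rv d) := by
    intro d h
    have := hf h
    exact hnsc d (Quotient.exact this)
  have hk1 : ∀ d, key (nx d) = key d := by
    intro d
    apply hkey
    exact Equiv.Perm.SameCycle.symm ⟨1, by simp⟩
  have hk2 : ∀ d, key (rv (nx d)) = key (rv d) := by
    intro d
    rw [hrn]
    apply hkey
    exact ⟨1, by simp⟩
  let good : Dart R → Prop := fun d => key d < key (rv d)
  have hg1 : ∀ d, good (nx d) ↔ good d := by
    intro d; simp only [good, hk1, hk2]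
  have hg2 : ∀ d, good (rv d) ↔ ¬ good d := by
    intro d; simp only [good, hrr]
    have := hkey2 d
    omega
  -- (a,u) good iff (a, o a u) not good
  have hg3 : ∀ (a u : α) (h : R a u), good ⟨(a, o a u), ho1 a u h⟩ ↔ ¬ good ⟨(a, u), h⟩ := by
    intro a u h
    rw [← hg2 ⟨(a, u), h⟩]
    have : (⟨(a, o a u), ho1 a u h⟩ : Dart R) = nx (rv ⟨(a, u), h⟩) := rfl
    rw [this, hg1]
  have hexP : ∀ a, ∃ u, ∃ h : R a u, good ⟨(a, u), h⟩ := by
    intro a
    have hne : (univ.filter (fun a' => R a a')).Nonempty := by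
      rw [← Finset.card_pos, h2 a]; norm_num
    obtain ⟨u, hu⟩ := hne
    have hu' : R a u := by simpa using hu
    by_cases hgd : good ⟨(a, u), hu'⟩
    · exact ⟨u, hu', hgd⟩
    · exact ⟨o a u, ho1 a u hu', (hg3 a u hu').mpr hgd⟩
  choose p hpR hpg using hexP
  have hinj : Function.Injective p := by
    intro a a' he
    by_contra hne
    have h1 := hpR a
    have h2' := hpR a'
    rw [← he] at h2'
    have h3 : a' = o (p a) a := huniq (p a) a a' (hs _ _ h1) (hs _ _ h2') (fun e => hne e.symm)
    have h4 : good ⟨(p a, o (p a) a), ho1 _ _ (hs _ _ h1)⟩ := by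
      have := (hg1 ⟨(a, p a), h1⟩).mpr (hpg a)
      exact this
    have h5 : good ⟨(a', p a), h2'⟩ := by
      have h6 := hpg a'
      have : (⟨(a', p a), h2'⟩ : Dart R) = ⟨(a', p a'), hpR a'⟩ := by
        apply Subtype.ext; simp [he]
      rw [this]; exact h6
    have h7 : (rv ⟨(a', p a), h2'⟩ : Dart R) = ⟨(p a, o (p a) a), ho1 _ _ (hs _ _ h1)⟩ := by
      apply Subtype.ext; simp [rv, ← h3]
    have h8 := (hg2 ⟨(a', p a), h2'⟩)
    rw [h7] at h8
    exact (h8.mp h4) h5
  have hbij : Function.Bijective p := Finite.injective_iff_bijective.mp hinj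
  let P : Equiv.Perm α := Equiv.ofBijective p hbij
  have hPa : ∀ a, P a = p a := fun a => rfl
  have hne : ∀ a, P a ≠ P.symm a := by
    intro a h
    -- w = P.symm a, p w = a, and p a = w
    set w := P.symm a with hw
    have h1 : p w = a := by
      rw [← hPa, hw, Equiv.apply_symm_apply]
    have h2' : p a = w := h
    have g1 := hpg a
    have g2 := hpg w
    have e1 : (⟨(w, p w), hpR w⟩ : Dart R) = rv ⟨(a, p a), hpR a⟩ := by
      apply Subtype.ext; simp [rv, h1, h2']
    rw [e1] at g2
    exact ((hg2 ⟨(a, p a), hpR a⟩).mp g2) g1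
  refine ⟨P, ?_, hne⟩
  intro a a'
  constructor
  · intro h
    by_cases h1 : a' = P a
    · exact Or.inl h1
    · right
      have h3 : a' = o a (p a) := huniq a (p a) a' (hpR a) h h1
      have hw : P (P.symm a) = a := Equiv.apply_symm_apply _ _
      have h4 : R a (P.symm a) := by
        have := hpR (P.symm a)
        rw [← hPa, hw] at this
        exact hs _ _ this
      have h5 : P.symm a = o a (p a) := huniq a (p a) (P.symm a) (hpR a) h4 (fun e => hne a e.symm)
      rw [h3, h5]
  · rintro (h | h)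
    · rw [h]; exact hpR a
    · have hw : P (P.symm a) = a := Equiv.apply_symm_apply _ _
      have := hpR (P.symm a)
      rw [← hPa, hw] at this
      rw [h]
      exact hs _ _ this

end orient

end Pool.Agent.Helper15.C33
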