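import Mathlib
import Pool.Agent.Helper15.C33A
import Pool.Agent.Helper15.C33B

set_option autoImplicit false
set_option linter.unusedSectionVars false

/-!
# Part C: oriented configurations, the wave equation, cycles
-/

namespace Pool.Agent.Helper15.C33

open Finset
open scoped Classical

/-- integer powers of a permutation applied to a point -/
def pw {α : Type} (P : Equiv.Perm α) (i : ℤ) (a : α) : α := (P ^ i) a

section pw
variable {α : Type} (P : Equiv.Perm α)

theorem pw_zero (a : α) : pw P 0 a = a := by simp [pw]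
theorem pw_add (i j : ℤ) (a : α) : pw P (i + j) a = pw P i (pw P j a) := by
  simp [pw, zpow_add, Equiv.Perm.mul_apply]
theorem pw_one (a : α) : pw P 1 a = P a := by simp [pw]
theorem pw_neg_one (a : α) : pw P (-1) a = P.symm a := by simp [pw]
theorem pw_succ (i : ℤ) (a : α) : pw P (i + 1) a = P (pw P i a) := by
  rw [add_comm, pw_add, pw_one]
theorem pw_pred (i : ℤ) (a : α) : pw P (i - 1) a = P.symm (pw P i a) := by
  rw [sub_eq_add_neg, add_comm, pw_add, pw_neg_one]
theorem pw_symm (i : ℤ) (a : α) : pw P.symm i a = pw P (-i) a := by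
  have : (P.symm : Equiv.Perm α) = P⁻¹ := rfl
  simp only [pw, this, inv_zpow, zpow_neg]
theorem pw_inj {i : ℤ} {a a' : α} (h : pw P i a = pw P i a') : a = a' :=
  (P ^ i).injective h

/-- the period of a point -/
noncomputable def per {α : Type} (P : Equiv.Perm α) (a : α) : ℕ := Function.minimalPeriod P a

theorem pw_eq_self_iff (i : ℤ) (a : α) : pw P i a = a ↔ (per P a : ℤ) ∣ i := by
  have h := MulAction.zpow_smul_eq_iff_minimalPeriod_dvd (a := P) (b := a) (n := i)
  exact h

theorem pw_eq_iff (i j : ℤ) (a : α) : pw P i a = pw P j a ↔ (per P a : ℤ) ∣ i - j := by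
  rw [← pw_eq_self_iff]
  constructor
  · intro h
    have : i - j = -j + i := by ring
    rw [this, pw_add, h, ← pw_add]; simp [pw_zero]
  · intro h
    have : i = j + (i - j) := by ring
    conv_lhs => rw [this, pw_add, h]

theorem sc_iff (a a' : α) : P.SameCycle a a' ↔ ∃ i : ℤ, pw P i a = a' := Iff.rfl

theorem sc_pw (i : ℤ) (a : α) : P.SameCycle a (pw P i a) := ⟨i, rfl⟩

theorem sc_apply (a : α) : P.SameCycle a (P a) := ⟨1, by simp⟩

variable [Fintype α]

theorem per_pos (a : α) : 0 < per P a := by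
  unfold per
  apply Function.minimalPeriod_pos_of_mem_periodicPts
  refine ⟨orderOf P, orderOf_pos P, ?_⟩
  change (P)^[orderOf P] a = a
  rw [Equiv.Perm.iterate_eq_pow, pow_orderOf_eq_one]; rfl

theorem per_eq_of {a a' : α} (h : ∀ i : ℤ, pw P i a = a ↔ pw P i a' = a') : per P a = per P a' := by
  have h1 : ∀ i : ℤ, (per P a : ℤ) ∣ i ↔ (per P a' : ℤ) ∣ i := by
    intro i; rw [← pw_eq_self_iff, ← pw_eq_self_iff]; exact h i
  have h2 := (h1 (per P a)).mp (dvd_refl _)
  have h3 := (h1 (per P a')).mpr (dvd_refl _)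
  exact Nat.dvd_antisymm (by exact_mod_cast h3) (by exact_mod_cast h2)

theorem per_pw (i : ℤ) (a : α) : per P (pw P i a) = per P a := by
  apply per_eq_of
  intro j
  constructor
  · intro h
    rw [← pw_add, add_comm, pw_add] at h
    exact pw_inj P h
  · intro h
    rw [← pw_add, add_comm, pw_add, h]

theorem per_sc {a a' : α} (h : P.SameCycle a a') : per P a = per P a' := by
  obtain ⟨i, hi⟩ := h
  have : pw P i a = a' := hi
  rw [← this, per_pw]

theorem per_apply (a : α) : per P (P a) = per P a := by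
  rw [← pw_one P a, per_pw]

theorem per_symm (a : α) : per P.symm a = per P a := by
  have h1 : ∀ i : ℤ, (per P.symm a : ℤ) ∣ i ↔ (per P a : ℤ) ∣ i := by
    intro i
    rw [← pw_eq_self_iff, ← pw_eq_self_iff, pw_symm]
    rw [pw_eq_self_iff, pw_eq_self_iff, dvd_neg]
  have h2 := (h1 (per P a)).mpr (dvd_refl _)
  have h3 := (h1 (per P.symm a)).mp (dvd_refl _)
  exact Nat.dvd_antisymm (by exact_mod_cast h2) (by exact_mod_cast h3)

theorem pw_per (a : α) : pw P (per P a) a = a := (pw_eq_self_iff P _ a).mpr (dvd_refl _)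

theorem sc_symm (a a' : α) : Equiv.Perm.SameCycle P.symm a a' ↔ P.SameCycle a a' := by
  have : (P.symm : Equiv.Perm α) = P⁻¹ := rfl
  rw [this, Equiv.Perm.sameCycle_inv]

/-- the cycle of a point -/
noncomputable def cyc (a : α) : Finset α := univ.filter (fun a' => P.SameCycle a a')

theorem mem_cyc {a a' : α} : a' ∈ cyc P a ↔ P.SameCycle a a' := by simp [cyc]

theorem cyc_eq_image (a : α) : cyc P a = (range (per P a)).image (fun k : ℕ => pw P (k : ℤ) a) := by
  ext a'
  rw [mem_cyc, mem_image]
  constructor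
  · rintro ⟨i, hi⟩
    have hpos : (0 : ℤ) < per P a := by exact_mod_cast per_pos P a
    have hm := Int.emod_nonneg i hpos.ne'
    have hl := Int.emod_lt_of_pos i hpos
    refine ⟨(i % (per P a : ℤ)).toNat, ?_, ?_⟩
    · rw [mem_range]; omega
    · rw [Int.toNat_of_nonneg hm]
      have h3 : pw P i a = a' := hi
      rw [← h3, pw_eq_iff]
      have := Int.mul_ediv_add_emod i (per P a : ℤ)
      exact ⟨-(i / (per P a : ℤ)), by linarith⟩
  · rintro ⟨k, _, rfl⟩
    exact sc_pw P _ _

theorem injOn_pw (a : α) : Set.InjOn (fun k : ℕ => pw P (k : ℤ) a) (range (per P a)) := by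
  intro k hk l hl h
  simp only [coe_range, Set.mem_Iio] at hk hl
  rw [pw_eq_iff] at h
  obtain ⟨c, hc⟩ := h
  have hpos : (0 : ℤ) < per P a := by exact_mod_cast per_pos P a
  have h1 : ((k : ℤ) - l) < per P a := by omega
  have h2 : -(per P a : ℤ) < ((k : ℤ) - l) := by omega
  have h3 : c < 1 := by nlinarith
  have h4 : -1 < c := by nlinarith
  have : c = 0 := by omega
  subst this
  omega

theorem card_cyc (a : α) : (cyc P a).card = per P a := by
  rw [cyc_eq_image, card_image_of_injOn (injOn_pw P a), card_range]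

theorem sum_cyc {M : Type} [AddCommMonoid M] (a : α) (F : α → M) :
    ∑ a' ∈ cyc P a, F a' = ∑ k ∈ range (per P a), F (pw P (k : ℤ) a) := by
  rw [cyc_eq_image, sum_image (injOn_pw P a)]

theorem cyc_sc {a a' : α} (h : P.SameCycle a a') : cyc P a = cyc P a' := by
  ext z
  rw [mem_cyc, mem_cyc]
  exact ⟨fun hz => h.symm.trans hz, fun hz => h.trans hz⟩

end pw

/-- An oriented configuration. -/
structure OC {α β : Type} [Fintype α] [Fintype β] (I : α → β → Prop) (P : Equiv.Perm α)
    (Q : Equiv.Perm β) : Prop where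
  conf : Conf I
  adP : ∀ a a', Ad I a a' ↔ a' = P a ∨ a' = P.symm a
  neP : ∀ a, P a ≠ P.symm a
  adQ : ∀ b b', Ad (fun b a => I a b) b b' ↔ b' = Q b ∨ b' = Q.symm b
  neQ : ∀ b, Q b ≠ Q.symm b

variable {α β : Type} [Fintype α] [Fintype β] {I : α → β → Prop} {P : Equiv.Perm α} {Q : Equiv.Perm β}

theorem exists_OC (h : Conf I) : ∃ P Q, OC I P Q := by
  obtain ⟨P, hP, hP'⟩ := exists_orientation (Ad I) (fun a b h => h.symm) (fun a h => h.1 rfl) h.card_ad
  obtain ⟨Q, hQ, hQ'⟩ := exists_orientation (Ad (fun b a => I a b)) (fun a b h => h.symm)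
    (fun a h => h.1 rfl) h.dual.card_ad
  exact ⟨P, Q, h, hP, hP', hQ, hQ'⟩

namespace OC

theorem dual (h : OC I P Q) : OC (fun b a => I a b) Q P where
  conf := h.conf.dual
  adP := h.adQ
  neP := h.neQ
  adQ := h.adP
  neQ := h.neP

theorem flipP (h : OC I P Q) : OC I P.symm Q where
  conf := h.conf
  adP := by intro a a'; rw [h.adP, Equiv.symm_symm]; exact or_comm
  neP := by intro a; rw [Equiv.symm_symm]; exact fun e => h.neP a e.symm
  adQ := h.adQ
  neQ := h.neQ

theorem flipQ (h : OC I P Q) : OC I P Q.symm := h.dual.flipP.dual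

theorem neP1 (h : OC I P Q) (a : α) : P a ≠ a := by
  intro he
  have := (h.adP a (P a)).mpr (Or.inl rfl)
  exact this.1 he.symm

theorem per_ge (h : OC I P Q) (a : α) : 3 ≤ per P a := by
  have h0 := per_pos P a
  by_contra hlt
  have h1 : per P a = 1 ∨ per P a = 2 := by omega
  rcases h1 with h1 | h1
  · have := pw_per P a
    rw [h1] at this
    exact h.neP1 a (by simpa [pw] using this)
  · have := pw_per P a
    rw [h1] at this
    apply h.neP a
    rw [Equiv.eq_symm_apply]
    have h2 : ((2 : ℕ) : ℤ) = 1 + 1 := by norm_num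
    rw [h2, pw_add, pw_one, pw_one] at this
    exact this

theorem ad_eq (h : OC I P Q) (a a' : α) :
    ad I a a' = (if P a = a' then 1 else 0) + (if P.symm a = a' then 1 else 0) := by
  unfold ad
  by_cases h1 : P a = a'
  · have h2 : P.symm a ≠ a' := fun h2 => h.neP a (h1.trans h2.symm)
    rw [if_pos ((h.adP a a').mpr (Or.inl h1.symm)), if_pos h1, if_neg h2]; norm_num
  · by_cases h2 : P.symm a = a'
    · rw [if_pos ((h.adP a a').mpr (Or.inr h2.symm)), if_neg h1, if_pos h2]; norm_num
    · have h3 : ¬ Ad I a a' := by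
        rw [h.adP]; push Not; exact ⟨fun e => h1 e.symm, fun e => h2 e.symm⟩
      rw [if_neg h3, if_neg h1, if_neg h2]; norm_num

/-- the discrete wave equation -/
theorem wave (h : OC I P Q) (a : α) (b : β) :
    xx I (P a) b + xx I (P.symm a) b = xx I a (Q b) + xx I a (Q.symm b) := by
  have h1 := h.conf.intertwine a b
  have e1 : ∀ a', ad I a a' * xx I a' b
      = (if P a = a' then xx I a' b else 0) + (if P.symm a = a' then xx I a' b else 0) := by
    intro a'; rw [h.ad_eq]; split_ifs <;> ring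
  have e2 : ∀ b', xx I a b' * ad (fun b a => I a b) b b'
      = (if Q b = b' then xx I a b' else 0) + (if Q.symm b = b' then xx I a b' else 0) := by
    intro b'; rw [h.dual.ad_eq]; split_ifs <;> ring
  simp_rw [e1, e2, sum_add_distrib, sum_ite_eq, mem_univ, if_true] at h1
  exact h1

end OC

/-- d'Alembert's formula -/
theorem dal (f : ℤ → ℤ → ℤ) (h : ∀ i j, f (i+1) j + f (i-1) j = f i (j+1) + f i (j-1)) (u v : ℤ) :
    f (u+v) (u-v) = f u u + f v (-v) - f 0 0 := by
  -- E(i,j) = f i j - f (i-1) (j+1), E(i+1,j) = E(i,j-1)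
  have hE : ∀ (u i j : ℤ), f (i+u) (j+u) - f (i+u-1) (j+u+1) = f i j - f (i-1) (j+1) := by
    intro u
    induction u using Int.induction_on with
    | zero => intro i j; simp
    | succ n ih =>
      intro i j
      rw [← ih i j]
      have := h (i + n) (j + n + 1)
      rw [show i + (n + 1 : ℤ) = i + n + 1 by ring, show j + (n + 1 : ℤ) = j + n + 1 by ring,
        show i + (n:ℤ) + 1 - 1 = i + n by ring]
      rw [show j + (n:ℤ) + 1 - 1 = j + n by ring] at this
      linarith
    | pred n ih =>
      intro i j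
      rw [← ih i j]
      have := h (i + -n - 1) (j + -n)
      rw [show i + (-n - 1 : ℤ) = i + -n - 1 by ring, show j + (-n - 1 : ℤ) = j + -n - 1 by ring,
        show j + -(n:ℤ) - 1 + 1 = j + -n by ring]
      rw [show i + -(n:ℤ) - 1 + 1 = i + -n by ring] at this
      linarith
  induction v using Int.induction_on with
  | zero => simp
  | succ n ih =>
    have h1 := hE u (n+1) (-n-1)
    rw [show (n:ℤ) + 1 + u = u + (n + 1) by ring, show -(n:ℤ) - 1 + u = u - (n+1) by ring,
      show u + ((n:ℤ) + 1) - 1 = u + n by ring, show u - ((n:ℤ) + 1) + 1 = u - n by ring,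
      show (n:ℤ) + 1 - 1 = n by ring, show -(n:ℤ) - 1 + 1 = -n by ring] at h1
    rw [show -((n:ℤ) + 1) = -n - 1 by ring]
    linarith
  | pred n ih =>
    have h1 := hE u (-n) n
    rw [show -(n:ℤ) + u = u + -n by ring, show (n:ℤ) + u = u - -n by ring,
      show u + -(n:ℤ) - 1 = u + (-n - 1) by ring, show u - -(n:ℤ) + 1 = u - (-n - 1) by ring] at h1
    rw [show - -(n:ℤ) = n by ring] at ih
    rw [show -(-(n:ℤ) - 1) = n + 1 by ring]
    linarith

theorem dal_or (f : ℤ → ℤ → ℤ) (h : ∀ i j, f (i+1) j + f (i-1) j = f i (j+1) + f i (j-1))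
    (h0 : ∀ i j, f i j = 0 ∨ f i j = 1) (h1 : f 0 0 = 1) :
    (∀ u, f u u = 1) ∨ (∀ v, f v (-v) = 1) := by
  by_contra hcon
  push Not at hcon
  obtain ⟨⟨u, hu⟩, ⟨v, hv⟩⟩ := hcon
  have := dal f h u v
  have hu' : f u u = 0 := by rcases h0 u u with h | h; exact h; exact absurd h hu
  have hv' : f v (-v) = 0 := by rcases h0 v (-v) with h | h; exact h; exact absurd h hv
  rcases h0 (u+v) (u-v) with h | h <;> omega

/-- diagonal relation -/
def Dg (I : α → β → Prop) (P : Equiv.Perm α) (Q : Equiv.Perm β) (a : α) (b : β) : Prop :=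
  ∀ i : ℤ, I (pw P i a) (pw Q i b)

theorem Dg.dual {a : α} {b : β} (h : Dg I P Q a b) : Dg (fun b a => I a b) Q P b a := fun i => h i

theorem Dg.self {a : α} {b : β} (h : Dg I P Q a b) : I a b := by
  have := h 0; rwa [pw_zero, pw_zero] at this

theorem Dg.symm {a : α} {b : β} (h : Dg I P Q a b) : Dg I P.symm Q.symm a b := by
  intro i; rw [pw_symm, pw_symm]; exact h (-i)

theorem Dg.shift {a : α} {b : β} (h : Dg I P Q a b) (j : ℤ) : Dg I P Q (pw P j a) (pw Q j b) := by
  intro i; rw [← pw_add, ← pw_add]; exact h _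

namespace OC

theorem wave_pw (h : OC I P Q) (a : α) (b : β) (i j : ℤ) :
    xx I (pw P (i+1) a) (pw Q j b) + xx I (pw P (i-1) a) (pw Q j b)
      = xx I (pw P i a) (pw Q (j+1) b) + xx I (pw P i a) (pw Q (j-1) b) := by
  rw [pw_succ, pw_pred, pw_succ, pw_pred]
  exact h.wave _ _

theorem dg_or (h : OC I P Q) {a : α} {b : β} (hab : I a b) : Dg I P Q a b ∨ Dg I P Q.symm a b := by
  have := dal_or (fun i j => xx I (pw P i a) (pw Q j b)) (fun i j => h.wave_pw a b i j)
    (fun i j => xx_cases _ _) (by simp only [pw_zero]; exact xx_of hab)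
  rcases this with h1 | h1
  · left; intro i; exact xx_iff.mp (h1 i)
  · right; intro i; rw [pw_symm]; exact xx_iff.mp (h1 i)

/-- the point `P^m a` lies on `b`, with `m` the period of `b` -/
theorem on_per (h : OC I P Q) {a : α} {b : β} (hab : I a b) : I (pw P (per Q b) a) b := by
  rcases h.dg_or hab with h1 | h1
  · have := h1 (per Q b)
    rwa [pw_per] at this
  · have := h1 (per Q b)
    rw [pw_symm] at this
    have h2 : pw Q (-(per Q b : ℤ)) b = b := by rw [pw_eq_self_iff, dvd_neg]
    rwa [h2] at this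

theorem on_per' (h : OC I P Q) {a : α} {b : β} (hab : I a b) : I a (pw Q (per P a) b) :=
  h.dual.on_per hab

theorem dvd_or (h : OC I P Q) {a : α} {b : β} (hab : I a b) :
    per P a ∣ per Q b ∨ per Q b ∣ per P a := by
  by_cases hd : per P a ∣ per Q b
  · exact Or.inl hd
  · right
    have h1 := h.on_per hab
    have h2 := h.on_per' hab
    have h3 := h.on_per' h1
    rw [per_pw] at h3
    have hne : a ≠ pw P (per Q b) a := by
      intro e
      have := (pw_eq_self_iff P _ a).mp e.symm
      exact hd (by exact_mod_cast this)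
    have h4 := h.conf.lin a _ b _ hne hab h1 h2 h3
    have := (pw_eq_self_iff Q _ b).mp h4.symm
    exact_mod_cast this

/-- `ec a b`: number of points of the cycle of `a` on `b` -/
noncomputable def ec (I : α → β → Prop) (P : Equiv.Perm α) (a : α) (b : β) : ℕ :=
  ((cyc P a).filter (fun a' => I a' b)).card

theorem ec_int (a : α) (b : β) : (ec I P a b : ℤ) = ∑ a' ∈ cyc P a, xx I a' b := by
  unfold ec xx
  rw [card_filter]; push_cast; rfl

theorem ec_sc {a a' : α} (h : P.SameCycle a a') (b : β) : ec I P a b = ec I P a' b := by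
  unfold ec; rw [cyc_sc P h]

theorem ec_pos {a : α} {b : β} (hab : I a b) : 0 < ec I P a b := by
  unfold ec
  rw [card_pos]
  exact ⟨a, by simp [mem_cyc, hab, Equiv.Perm.SameCycle.refl]⟩

theorem ec_le (h : OC I P Q) (a : α) (b : β) : ec I P a b ≤ 6 := by
  rw [← h.conf.rb b]
  unfold ec
  apply card_le_card
  intro z hz
  simp only [mem_filter, mem_univ, true_and] at hz ⊢
  exact hz.2

/-- sums against invariant functions are constant along cycles -/
theorem inv_sum (h : OC I P Q) (g : β → ℤ) (hg : ∀ b, g (Q b) = g b) (a : α) :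
    ∑ b, xx I (P a) b * g b = ∑ b, xx I a b * g b := by
  set R : α → ℤ := fun a => ∑ b, xx I a b * g b with hR
  have hg' : ∀ b, g (Q.symm b) = g b := by
    intro b
    have := hg (Q.symm b)
    rw [Equiv.apply_symm_apply] at this
    exact this.symm
  have h2 : ∀ a, R (P a) + R (P.symm a) = 2 * R a := by
    intro a
    simp only [hR]
    rw [← sum_add_distrib]
    have e1 : ∀ b, xx I (P a) b * g b + xx I (P.symm a) b * g b
        = xx I a (Q b) * g (Q b) + xx I a (Q.symm b) * g (Q.symm b) := by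
      intro b
      rw [hg, hg', ← add_mul, ← add_mul, h.wave]
    simp_rw [e1]
    rw [sum_add_distrib, Equiv.sum_comp Q (fun b => xx I a b * g b),
      Equiv.sum_comp Q.symm (fun b => xx I a b * g b)]
    ring
  have h3 : ∀ i : ℕ, R (pw P (i + 1 : ℤ) a) - R (pw P i a) = R (P a) - R a := by
    intro i
    induction i with
    | zero => simp [pw_one, pw_zero]
    | succ n ih =>
      have := h2 (pw P (n + 1 : ℤ) a)
      rw [← pw_succ, ← pw_pred] at this
      rw [show (n : ℤ) + 1 - 1 = n by ring] at this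
      push_cast
      linarith
  have h4 : ∀ i : ℕ, R (pw P i a) = R a + i * (R (P a) - R a) := by
    intro i
    induction i with
    | zero => simp [pw_zero]
    | succ n ih =>
      have := h3 n
      push_cast
      linarith
  have h5 := h4 (per P a)
  rw [pw_per] at h5
  have hpos : (0 : ℤ) < per P a := by exact_mod_cast per_pos P a
  have h6 : (per P a : ℤ) * (R (P a) - R a) = 0 := by linarith
  rcases mul_eq_zero.mp h6 with h7 | h7
  · omega
  · linarith

theorem inv_sum_pw (h : OC I P Q) (g : β → ℤ) (hg : ∀ b, g (Q b) = g b) (a : α) (i : ℤ) :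
    ∑ b, xx I (pw P i a) b * g b = ∑ b, xx I a b * g b := by
  induction i using Int.induction_on with
  | zero => simp [pw_zero]
  | succ n ih => rw [pw_succ, h.inv_sum g hg, ih]
  | pred n ih =>
    rw [pw_pred, ← ih, ← h.inv_sum g hg (P.symm _), Equiv.apply_symm_apply]

theorem inv_sum_sc (h : OC I P Q) (g : β → ℤ) (hg : ∀ b, g (Q b) = g b) {a a' : α}
    (hs : P.SameCycle a a') :
    ∑ b, xx I a' b * g b = ∑ b, xx I a b * g b := by
  obtain ⟨i, hi⟩ := hs
  have : pw P i a = a' := hi
  rw [← this, h.inv_sum_pw g hg]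

theorem ec_dual_sum (b : β) (a : α) :
    (ec (fun b a => I a b) Q b a : ℤ) = ∑ b', xx I a b' * (if Q.SameCycle b b' then 1 else 0) := by
  rw [ec_int]
  unfold cyc
  rw [sum_filter]
  apply sum_congr rfl
  intro b' _
  have : xx (fun b a => I a b) b' a = xx I a b' := rfl
  rw [this]
  split_ifs <;> ring

theorem sc_inv (b b' : β) :
    (if Q.SameCycle b (Q b') then (1:ℤ) else 0) = (if Q.SameCycle b b' then 1 else 0) := by
  congr 1
  exact propext Equiv.Perm.sameCycle_apply_right

/-- number of lines of a line cycle through `a` is constant along point cycles -/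
theorem ec_dual_inv (h : OC I P Q) (b : β) {a a' : α} (hs : P.SameCycle a a') :
    ec (fun b a => I a b) Q b a = ec (fun b a => I a b) Q b a' := by
  have : (ec (fun b a => I a b) Q b a : ℤ) = ec (fun b a => I a b) Q b a' := by
    rw [ec_dual_sum, ec_dual_sum]
    exact (h.inv_sum_sc _ (sc_inv b) hs).symm
  exact_mod_cast this

theorem ec_inv (h : OC I P Q) (a : α) {b b' : β} (hs : Q.SameCycle b b') :
    ec I P a b = ec I P a b' := h.dual.ec_dual_inv a hs

/-- double counting -/
theorem td (h : OC I P Q) (a : α) (b : β) :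
    per P a * ec (fun b a => I a b) Q b a = per Q b * ec I P a b := by
  have h1 : ∑ a' ∈ cyc P a, ∑ b' ∈ cyc Q b, xx I a' b' = ∑ b' ∈ cyc Q b, ∑ a' ∈ cyc P a, xx I a' b' :=
    sum_comm
  have h2 : ∑ a' ∈ cyc P a, ∑ b' ∈ cyc Q b, xx I a' b' = per P a * ec (fun b a => I a b) Q b a := by
    rw [← card_cyc P a]
    rw [← nsmul_eq_mul, ← sum_const]
    apply sum_congr rfl
    intro a' ha'
    rw [h.ec_dual_inv b ((mem_cyc P).mp ha'), ec_int]
    rfl
  have h3 : ∑ b' ∈ cyc Q b, ∑ a' ∈ cyc P a, xx I a' b' = per Q b * ec I P a b := by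
    rw [← card_cyc Q b]
    rw [← nsmul_eq_mul, ← sum_const]
    apply sum_congr rfl
    intro b' hb'
    rw [h.ec_inv a ((mem_cyc Q).mp hb'), ec_int]
  have : ((per P a * ec (fun b a => I a b) Q b a : ℕ) : ℤ) = ((per Q b * ec I P a b : ℕ) : ℤ) := by
    push_cast
    rw [← h2, ← h3, h1]
  exact_mod_cast this

/-- a small line is alone in its class -/
theorem small_unique (h : OC I P Q) {a : α} {b b' : β} (hab : I a b) (hab' : I a b')
    (hp : per Q b = per Q b') (hlt : ¬ per P a ∣ per Q b) : b = b' := by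
  have h1 := h.on_per hab
  have h2 := h.on_per hab'
  rw [← hp] at h2
  have hne : a ≠ pw P (per Q b) a := by
    intro e
    have := (pw_eq_self_iff P _ a).mp e.symm
    exact hlt (by exact_mod_cast this)
  exact h.conf.lin a _ b b' hne hab h1 hab' h2

theorem small_one (h : OC I P Q) {a : α} {b : β} (hab : I a b) (hlt : ¬ per P a ∣ per Q b) :
    ec (fun b a => I a b) Q b a = 1 := by
  unfold ec
  rw [card_eq_one]
  refine ⟨b, ?_⟩
  ext b'
  simp only [mem_filter, mem_cyc, mem_singleton]
  constructor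
  · rintro ⟨h1, h2⟩
    exact (h.small_unique hab h2 (per_sc Q h1) hlt).symm
  · rintro rfl
    exact ⟨Equiv.Perm.SameCycle.refl _ _, hab⟩

/-- the trichotomy for flags -/
theorem tri (h : OC I P Q) {a : α} {b : β} (hab : I a b) :
    (per Q b = per P a ∧ ec (fun b a => I a b) Q b a = ec I P a b) ∨
    (per Q b < per P a ∧ ec I P a b * per Q b = per P a ∧ ec (fun b a => I a b) Q b a = 1) ∨
    (per P a < per Q b ∧ ec (fun b a => I a b) Q b a * per P a = per Q b ∧ ec I P a b = 1) := by
  have htd := h.td a b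
  have hp := per_pos P a
  have hq := per_pos Q b
  rcases lt_trichotomy (per Q b) (per P a) with hlt | heq | hgt
  · right; left
    have hnd : ¬ per P a ∣ per Q b := fun hd => by
      have := Nat.le_of_dvd hq hd
      omega
    have h1 := h.small_one hab hnd
    refine ⟨hlt, ?_, h1⟩
    rw [h1] at htd
    linarith [mul_comm (per Q b) (ec I P a b)]
  · left
    refine ⟨heq, ?_⟩
    rw [heq] at htd
    exact Nat.eq_of_mul_eq_mul_left hp htd
  · right; right
    have hnd : ¬ per Q b ∣ per P a := fun hd => by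
      have := Nat.le_of_dvd hp hd
      omega
    have h1 : ec I P a b = 1 := h.dual.small_one hab hnd
    refine ⟨hgt, ?_, h1⟩
    rw [h1] at htd
    linarith [mul_comm (per P a) (ec (fun b a => I a b) Q b a)]

/-- the sum formula -/
theorem sum_ec (h : OC I P Q) (a : α) :
    ∑ b, xx I a b * ec I P a b = per P a + 3 := by
  simp_rw [ec_int, mul_sum]
  rw [sum_comm]
  simp_rw [h.conf.prod]
  rw [sum_sub_distrib, sum_add_distrib, ← mul_sum, sum_const, card_cyc, nsmul_eq_mul, mul_one]
  have h1 : ∑ a' ∈ cyc P a, (if a = a' then (1:ℤ) else 0) = 1 := by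
    rw [sum_ite_eq, if_pos ((mem_cyc P).mpr (Equiv.Perm.SameCycle.refl _ _))]
  have h2 : ∑ a' ∈ cyc P a, ad I a a' = 2 := by
    simp_rw [h.ad_eq, sum_add_distrib, sum_ite_eq]
    rw [if_pos ((mem_cyc P).mpr (sc_apply P a)), if_pos]
    · norm_num
    · rw [mem_cyc]
      exact ⟨-1, by simp⟩
  rw [h1, h2]
  ring

end OC

end Pool.Agent.Helper15.C33
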