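import Mathlib
set_option autoImplicit false

namespace Pool.Agent.Helper15.C33

/-- allowed values of the number of small lines -/
def smallL (v n : ℕ) : List ℕ := if n % v = 0 ∧ 3 * v ≤ n then [0, 1] else [0]

theorem mem_smallL (v n s : ℕ) (h : s = 0 ∨ (s = 1 ∧ v ∣ n ∧ 3 * v ≤ n)) : s ∈ smallL v n := by
  unfold smallL
  rcases h with h | ⟨h, h1, h2⟩
  · subst h; split_ifs <;> simp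
  · subst h
    rw [if_pos ⟨Nat.mod_eq_zero_of_dvd h1, h2⟩]; simp

/-- the list of possible rows -/
def rowsL : List (List ℕ) :=
  [[3,0,0,0,0,0,0,0,0,0,0], [5,1,0,0,0,0,0,0,0,0,0], [6,1,0,0,0,0,1,0,0,0,0], [7,2,0,0,0,0,0,0,0,0,0],
   [8,2,0,0,0,0,1,0,0,0,0], [9,2,0,0,0,0,0,1,0,0,0], [9,3,0,0,0,0,0,0,0,0,0], [11,1,1,0,0,0,0,0,0,0,0],
   [12,1,1,0,0,0,1,0,0,0,0], [12,2,0,0,0,0,0,1,1,0,0], [15,0,2,0,0,0,0,0,0,0,0], [15,1,1,0,0,0,0,0,0,1,0],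
   [18,0,0,1,0,0,1,1,0,0,0], [33,0,0,0,0,1,0,0,0,0,0]]

/-- boolean row check -/
def rowok (n s2 s3 s4 s5 s6 k2 k3 k4 k5 k6 : ℕ) : Bool :=
  !(decide (3 ≤ n) && 
    decide (((2*k2+s2) + (3*k3+s3) + (4*k4+s4) + (5*k5+s5) + (6*k6+s6) ≤ 6)) &&
    decide (6 + (2*k2+s2) + 2*(3*k3+s3) + 3*(4*k4+s4) + 4*(5*k5+s5) + 5*(6*k6+s6) = n + 3) &&
    decide (n * (60 * (6 - ((2*k2+s2) + (3*k3+s3) + (4*k4+s4) + (5*k5+s5) + (6*k6+s6))) + 30*(2*k2+s2) + 20*(3*k3+s3) + 15*(4*k4+s4) + 12*(5*k5+s5) + 10*(6*k6+s6)) ≤ 1980))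
  || rowsL.contains [n,k2,k3,k4,k5,k6,s2,s3,s4,s5,s6]

/-- boolean row check for everything -/
def rowall : Bool :=
  (List.range 34).all fun n => (smallL 2 n).all fun s2 => (smallL 3 n).all fun s3 =>
  (smallL 4 n).all fun s4 => (smallL 5 n).all fun s5 => (smallL 6 n).all fun s6 =>
  (List.range 4).all fun k2 => (List.range 3).all fun k3 => (List.range 2).all fun k4 =>
  (List.range 2).all fun k5 => (List.range 2).all fun k6 => rowok n s2 s3 s4 s5 s6 k2 k3 k4 k5 k6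

theorem rowall_true : rowall = true := by decide +kernel

theorem rowall_get : ∀ n < 34, ∀ s2 ∈ smallL 2 n, ∀ s3 ∈ smallL 3 n, ∀ s4 ∈ smallL 4 n, ∀ s5 ∈ smallL 5 n,
    ∀ s6 ∈ smallL 6 n, ∀ k2 < 4, ∀ k3 < 3,
    ∀ k4 < 2, ∀ k5 < 2, ∀ k6 < 2, rowok n s2 s3 s4 s5 s6 k2 k3 k4 k5 k6 = true := by
  have h := rowall_true
  simp only [rowall, List.all_eq_true, List.mem_range] at h
  exact h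

theorem row_num (n N1 k2 k3 k4 k5 k6 s2 s3 s4 s5 s6 : ℕ) (hn : 3 ≤ n)
    (h1 : N1 + (2*k2+s2) + (3*k3+s3) + (4*k4+s4) + (5*k5+s5) + (6*k6+s6) = 6)
    (h2 : N1 + 2*(2*k2+s2) + 3*(3*k3+s3) + 4*(4*k4+s4) + 5*(5*k5+s5) + 6*(6*k6+s6) = n + 3)
    (h3 : n * (60 * N1 + 30*(2*k2+s2) + 20*(3*k3+s3) + 15*(4*k4+s4) + 12*(5*k5+s5) + 10*(6*k6+s6)) ≤ 1980)
    (g2 : s2 = 0 ∨ (s2 = 1 ∧ 2 ∣ n ∧ 3 * 2 ≤ n))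
    (g3 : s3 = 0 ∨ (s3 = 1 ∧ 3 ∣ n ∧ 3 * 3 ≤ n))
    (g4 : s4 = 0 ∨ (s4 = 1 ∧ 4 ∣ n ∧ 3 * 4 ≤ n))
    (g5 : s5 = 0 ∨ (s5 = 1 ∧ 5 ∣ n ∧ 3 * 5 ≤ n))
    (g6 : s6 = 0 ∨ (s6 = 1 ∧ 6 ∣ n ∧ 3 * 6 ≤ n)) :
    [n,k2,k3,k4,k5,k6,s2,s3,s4,s5,s6] ∈ rowsL := by
  have hh := rowall_get n (by omega) s2 (mem_smallL _ _ _ g2) s3 (mem_smallL _ _ _ g3) s4 (mem_smallL _ _ _ g4)
    s5 (mem_smallL _ _ _ g5) s6 (mem_smallL _ _ _ g6) k2 (by omega) k3 (by omega) k4 (by omega)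
    k5 (by omega) k6 (by omega)
  unfold rowok at hh
  rw [Bool.or_eq_true] at hh
  rcases hh with hh | hh
  · exfalso
    rw [Bool.not_eq_true'] at hh
    have e1 : (6 - ((2*k2+s2) + (3*k3+s3) + (4*k4+s4) + (5*k5+s5) + (6*k6+s6))) = N1 := by omega
    rw [e1] at hh
    have t1 : decide (3 ≤ n) = true := by simpa using hn
    have t2 : decide (((2*k2+s2) + (3*k3+s3) + (4*k4+s4) + (5*k5+s5) + (6*k6+s6) ≤ 6)) = true := by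
      apply decide_eq_true; omega
    have t3 : decide (6 + (2*k2+s2) + 2*(3*k3+s3) + 3*(4*k4+s4) + 4*(5*k5+s5) + 5*(6*k6+s6) = n + 3) = true := by
      apply decide_eq_true; omega
    have t4 : decide (n * (60 * N1 + 30*(2*k2+s2) + 20*(3*k3+s3) + 15*(4*k4+s4) + 12*(5*k5+s5) + 10*(6*k6+s6)) ≤ 1980) = true := by
      apply decide_eq_true; exact h3
    rw [t1, t2, t3, t4] at hh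
    exact absurd hh (by decide)
  · exact List.contains_iff_mem.mp hh

theorem row_num' (n N1 k2 k3 k4 k5 k6 s2 s3 s4 s5 s6 : ℕ) (hn : 3 ≤ n)
    (h1 : N1 + (2*k2+s2) + (3*k3+s3) + (4*k4+s4) + (5*k5+s5) + (6*k6+s6) = 6)
    (h2 : N1 + 2*(2*k2+s2) + 3*(3*k3+s3) + 4*(4*k4+s4) + 5*(5*k5+s5) + 6*(6*k6+s6) = n + 3)
    (h3 : n * (60 * N1 + 30*(2*k2+s2) + 20*(3*k3+s3) + 15*(4*k4+s4) + 12*(5*k5+s5) + 10*(6*k6+s6)) ≤ 1980)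
    (g2 : s2 = 0 ∨ (s2 = 1 ∧ 2 ∣ n ∧ 3 * 2 ≤ n))
    (g3 : s3 = 0 ∨ (s3 = 1 ∧ 3 ∣ n ∧ 3 * 3 ≤ n))
    (g4 : s4 = 0 ∨ (s4 = 1 ∧ 4 ∣ n ∧ 3 * 4 ≤ n))
    (g5 : s5 = 0 ∨ (s5 = 1 ∧ 5 ∣ n ∧ 3 * 5 ≤ n))
    (g6 : s6 = 0 ∨ (s6 = 1 ∧ 6 ∣ n ∧ 3 * 6 ≤ n)) :
    (n = 3 ∧ N1 = 6) ∨ (n = 5 ∧ N1 = 4 ∧ k2 = 1 ∧ s2 = 0) ∨
    (n = 6 ∧ N1 = 3 ∧ k2 = 1 ∧ s2 = 1) ∨
    (n = 7 ∧ N1 = 2 ∧ k2 = 2 ∧ s2 = 0) ∨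
    (n = 8 ∧ N1 = 1 ∧ k2 = 2 ∧ s2 = 1) ∨
    (n = 9 ∧ N1 = 1 ∧ k2 = 2 ∧ s2 = 0 ∧ s3 = 1) ∨
    (n = 9 ∧ N1 = 0 ∧ k2 = 3 ∧ s2 = 0) ∨
    (n = 11 ∧ N1 = 1 ∧ k2 = 1 ∧ s2 = 0 ∧ k3 = 1 ∧ s3 = 0) ∨
    (n = 12 ∧ N1 = 0 ∧ k2 = 2 ∧ s2 = 0 ∧ k3 = 0 ∧ s3 = 1 ∧ k4 = 0 ∧ s4 = 1) ∨
    (n = 12 ∧ N1 = 0 ∧ k2 = 1 ∧ s2 = 1 ∧ k3 = 1 ∧ s3 = 0) ∨
    (n = 15 ∧ N1 = 0 ∧ k2 = 1 ∧ s2 = 0 ∧ k3 = 1 ∧ s3 = 0 ∧ k5 = 0 ∧ s5 = 1) ∨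
    (n = 15 ∧ N1 = 0 ∧ k3 = 2 ∧ s3 = 0) ∨
    (n = 18 ∧ N1 = 0 ∧ k2 = 0 ∧ s2 = 1 ∧ k3 = 0 ∧ s3 = 1 ∧ k4 = 1 ∧ s4 = 0) ∨
    (n = 33 ∧ k6 = 1) := by
  have := row_num n N1 k2 k3 k4 k5 k6 s2 s3 s4 s5 s6 hn h1 h2 h3 g2 g3 g4 g5 g6
  clear h3 g2 g3 g4 g5 g6 h2
  simp only [rowsL, List.mem_cons, List.not_mem_nil, or_false, List.cons.injEq, and_true] at this
  rcases this with h | h | h | h | h | h | h | h | h | h | h | h | h | h <;>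
    obtain ⟨rfl, rfl, rfl, rfl, rfl, rfl, rfl, rfl, rfl, rfl, rfl⟩ := h <;> simp <;> omega

end Pool.Agent.Helper15.C33
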