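import Mathlib
import Pool.Agent.Helper15.C33C
import Pool.Agent.Helper15.C33R

set_option autoImplicit false
set_option linter.unusedSectionVars false

/-!
# Part D: row facts
-/

namespace Pool.Agent.Helper15.C33

open Finset
open scoped Classical

variable {α β : Type} [Fintype α] [Fintype β] {I : α → β → Prop} {P : Equiv.Perm α} {Q : Equiv.Perm β}

namespace OC

/-- the finset of all elements with a property (classical decidability) -/
noncomputable def fs {γ : Type} [Fintype γ] (p : γ → Prop) : Finset γ := univ.filter p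

theorem mem_fs {γ : Type} [Fintype γ] {p : γ → Prop} {c : γ} : c ∈ fs p ↔ p c := by simp [fs]

theorem fs_congr {γ : Type} [Fintype γ] {p q : γ → Prop} (h : ∀ c, p c ↔ q c) : fs p = fs q := by
  have : p = q := funext fun c => propext (h c)
  rw [this]

theorem sum_fs {γ : Type} [Fintype γ] {M : Type} [AddCommMonoid M] (p : γ → Prop) (F : γ → M) :
    ∑ c ∈ fs p, F c = ∑ c, if p c then F c else 0 := by
  unfold fs; rw [sum_filter]

/-- number of lines `b` through `a` with `p b` meeting the cycle of `a` in `v` points -/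
noncomputable def Cp (I : α → β → Prop) (P : Equiv.Perm α) (a : α) (p : β → Prop) (v : ℕ) : ℕ :=
  (fs (fun b => (I a b ∧ p b) ∧ ec I P a b = v)).card

/-- number of elements of period `l` -/
noncomputable def Yc (Q : Equiv.Perm β) (l : ℕ) : ℕ := (fs (fun b => per Q b = l)).card

theorem sum_Icc16 (f : ℕ → ℕ) : ∑ v ∈ Icc 1 6, f v = f 1 + f 2 + f 3 + f 4 + f 5 + f 6 := by
  have : Icc 1 6 = ({1,2,3,4,5,6} : Finset ℕ) := by decide
  rw [this]; simp [sum_insert, add_assoc]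

theorem sum_F (h : OC I P Q) (a : α) (p : β → Prop) (F : ℕ → ℕ) :
    ∑ b ∈ fs (fun b => I a b ∧ p b), F (ec I P a b) = ∑ v ∈ Icc 1 6, Cp I P a p v * F v := by
  rw [← sum_fiberwise_of_maps_to (s := fs (fun b => I a b ∧ p b)) (t := Icc 1 6)
    (g := fun b => ec I P a b)]
  · apply sum_congr rfl
    intro v _
    have e1 : (fs (fun b => I a b ∧ p b)).filter (fun b => ec I P a b = v)
        = fs (fun b => (I a b ∧ p b) ∧ ec I P a b = v) := by
      ext b; rw [mem_filter, mem_fs, mem_fs]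
    rw [e1]
    unfold Cp
    rw [card_eq_sum_ones, sum_mul, one_mul]
    apply sum_congr rfl
    intro b hb
    rw [mem_fs] at hb
    rw [hb.2]
  · intro b hb
    rw [mem_fs] at hb
    rw [mem_Icc]
    exact ⟨ec_pos hb.1, h.ec_le a b⟩

theorem card_p (h : OC I P Q) (a : α) (p : β → Prop) :
    (fs (fun b => I a b ∧ p b)).card = Cp I P a p 1 + Cp I P a p 2 + Cp I P a p 3
      + Cp I P a p 4 + Cp I P a p 5 + Cp I P a p 6 := by
  rw [card_eq_sum_ones, h.sum_F a p (fun _ => 1)]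
  simp only [mul_one]
  exact sum_Icc16 _

theorem bound (h : OC I P Q) (a : α) (p : β → Prop) (hp : ∀ b, p (Q b) ↔ p b) :
    per P a * (60 * Cp I P a p 1 + 30 * Cp I P a p 2 + 20 * Cp I P a p 3 + 15 * Cp I P a p 4
      + 12 * Cp I P a p 5 + 10 * Cp I P a p 6) ≤ 60 * (fs p).card := by
  have h1 : 60 * Cp I P a p 1 + 30 * Cp I P a p 2 + 20 * Cp I P a p 3 + 15 * Cp I P a p 4
      + 12 * Cp I P a p 5 + 10 * Cp I P a p 6
      = ∑ b ∈ fs (fun b => I a b ∧ p b), (60 / ec I P a b) := by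
    rw [h.sum_F a p (fun v => 60 / v), sum_Icc16]
    simp only [show 60 / 1 = 60 from rfl, show 60 / 2 = 30 from rfl, show 60 / 3 = 20 from rfl,
      show 60 / 4 = 15 from rfl, show 60 / 5 = 12 from rfl, show 60 / 6 = 10 from rfl]
    ring
  rw [h1]
  set g : β → ℤ := fun b => if p b then ((60 / ec I P a b : ℕ) : ℤ) else 0 with hg
  have hginv : ∀ b, g (Q b) = g b := by
    intro b
    simp only [hg]
    rw [h.ec_inv a (sc_apply Q b)]
    simp only [hp]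
  have h2 : ((∑ b ∈ fs (fun b => I a b ∧ p b), (60 / ec I P a b) : ℕ) : ℤ)
      = ∑ b, xx I a b * g b := by
    rw [sum_fs]
    push_cast
    apply sum_congr rfl
    intro b _
    simp only [hg, xx]
    by_cases h3 : I a b <;> by_cases h4 : p b <;> simp [h3, h4]
  have h3 : (per P a : ℤ) * ∑ b, xx I a b * g b = ∑ b, g b * ec I P a b := by
    have e1 : ∑ a' ∈ cyc P a, ∑ b, xx I a' b * g b = (per P a : ℤ) * ∑ b, xx I a b * g b := by
      rw [sum_congr rfl (fun a' ha' => h.inv_sum_sc g hginv ((mem_cyc P).mp ha')), sum_const, card_cyc,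
        nsmul_eq_mul]
    rw [← e1, sum_comm]
    apply sum_congr rfl
    intro b _
    rw [ec_int, mul_sum]
    apply sum_congr rfl
    intro a' _
    ring
  have h4 : ∑ b, g b * ec I P a b ≤ ∑ b, (if p b then (60 : ℤ) else 0) := by
    apply sum_le_sum
    intro b _
    simp only [hg]
    by_cases hpb : p b
    · rw [if_pos hpb, if_pos hpb]
      have := Nat.div_mul_le_self 60 (ec I P a b)
      exact_mod_cast this
    · rw [if_neg hpb, if_neg hpb]; simp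
  have h5 : ∑ b, (if p b then (60 : ℤ) else 0) = 60 * ((fs p).card : ℤ) := by
    rw [← sum_fs, sum_const, nsmul_eq_mul]; ring
  have h6 : ((per P a * ∑ b ∈ fs (fun b => I a b ∧ p b), (60 / ec I P a b) : ℕ) : ℤ)
      ≤ ((60 * (fs p).card : ℕ) : ℤ) := by
    rw [Nat.cast_mul, h2, h3]
    refine h4.trans ?_
    rw [h5]; push_cast; exact le_refl _
  exact_mod_cast h6

/-- the divisibility coming from classes -/
theorem class_dvd (a : α) (p : β → Prop) (hp : ∀ b b', Q.SameCycle b b' → (p b ↔ p b')) (v : ℕ)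
    (hv : ∀ b, I a b → p b → ec (fun b a => I a b) Q b a = v) :
    v ∣ (fs (fun b => I a b ∧ p b)).card := by
  set S := fs (fun b => I a b ∧ p b) with hS
  let f : β → Quotient (Equiv.Perm.SameCycle.setoid Q) := fun b => Quotient.mk _ b
  rw [card_eq_sum_card_image f S]
  apply dvd_sum
  intro q hq
  rw [mem_image] at hq
  obtain ⟨b, hb, rfl⟩ := hq
  rw [hS, mem_fs] at hb
  have : (S.filter (fun b' => f b' = f b)).card = v := by
    rw [← hv b hb.1 hb.2]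
    unfold ec
    congr 1
    ext b'
    simp only [hS, mem_filter, mem_fs, mem_cyc]
    constructor
    · rintro ⟨⟨h1, h2⟩, h3⟩
      have h4 : Q.SameCycle b' b := Quotient.exact h3
      exact ⟨h4.symm, h1⟩
    · rintro ⟨h1, h2⟩
      refine ⟨⟨h2, (hp _ _ h1).mp hb.2⟩, ?_⟩
      exact Quotient.sound h1.symm
  rw [this]

/-- periods divide class numbers -/
theorem dvd_Yc (l : ℕ) : l ∣ Yc Q l := by
  unfold Yc
  set S := fs (fun b => per Q b = l) with hS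
  let f : β → Quotient (Equiv.Perm.SameCycle.setoid Q) := fun b => Quotient.mk _ b
  rw [card_eq_sum_card_image f S]
  apply dvd_sum
  intro q hq
  rw [mem_image] at hq
  obtain ⟨b, hb, rfl⟩ := hq
  rw [hS, mem_fs] at hb
  have : (S.filter (fun b' => f b' = f b)).card = l := by
    rw [← hb, ← card_cyc Q b]
    congr 1
    ext b'
    simp only [hS, mem_filter, mem_fs, mem_cyc]
    constructor
    · rintro ⟨h1, h3⟩
      have h4 : Q.SameCycle b' b := Quotient.exact h3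
      exact h4.symm
    · intro h1
      refine ⟨?_, ?_⟩
      · rw [← per_sc Q h1]; exact hb
      · exact Quotient.sound h1.symm
  rw [this]

/-- equal lines -/
noncomputable def E (I : α → β → Prop) (P : Equiv.Perm α) (Q : Equiv.Perm β) (a : α) (v : ℕ) : ℕ :=
  Cp I P a (fun b => per Q b = per P a) v

/-- small lines -/
noncomputable def Sm (I : α → β → Prop) (P : Equiv.Perm α) (Q : Equiv.Perm β) (a : α) (v : ℕ) : ℕ :=
  Cp I P a (fun b => per Q b < per P a) v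

/-- lines of a given period -/
noncomputable def Cl (I : α → β → Prop) (Q : Equiv.Perm β) (a : α) (l : ℕ) : ℕ :=
  (fs (fun b => I a b ∧ per Q b = l)).card

/-- large lines -/
noncomputable def La (I : α → β → Prop) (P : Equiv.Perm α) (Q : Equiv.Perm β) (a : α) : ℕ :=
  (fs (fun b => I a b ∧ per P a < per Q b)).card

theorem E_dvd (h : OC I P Q) (a : α) (v : ℕ) : v ∣ E I P Q a v := by
  have h1 := class_dvd (I := I) (Q := Q) a (fun b => per Q b = per P a ∧ ec I P a b = v) ?_ v ?_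
  · unfold E Cp
    rw [fs_congr (q := fun b => I a b ∧ per Q b = per P a ∧ ec I P a b = v)]
    · exact h1
    · intro b; tauto
  · intro b b' hs
    rw [per_sc Q hs, h.ec_inv a hs]
  · rintro b hab ⟨h1, h2⟩
    rcases h.tri hab with h3 | h3 | h3
    · rw [h3.2, h2]
    · omega
    · omega

theorem Sm_le (h : OC I P Q) (a : α) (v : ℕ) : Sm I P Q a v ≤ 1 := by
  unfold Sm Cp
  rw [card_le_one]
  intro b hb b' hb'
  simp only [mem_fs] at hb hb'
  obtain ⟨⟨h1, h2⟩, h3⟩ := hb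
  obtain ⟨⟨h1', h2'⟩, h3'⟩ := hb'
  have hv : v ≠ 0 := by rw [← h3]; exact (ec_pos h1).ne'
  have e1 : v * per Q b = per P a := by
    rcases h.tri h1 with h4 | h4 | h4
    · omega
    · rw [← h3]; exact h4.2.1
    · omega
  have e2 : v * per Q b' = per P a := by
    rcases h.tri h1' with h4 | h4 | h4
    · omega
    · rw [← h3']; exact h4.2.1
    · omega
  have e3 : per Q b = per Q b' := Nat.eq_of_mul_eq_mul_left (Nat.pos_of_ne_zero hv) (e1.trans e2.symm)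
  apply h.small_unique h1 h1' e3
  intro hd
  have := Nat.le_of_dvd (per_pos Q b) hd
  omega

theorem Sm_pos (h : OC I P Q) (a : α) (v : ℕ) (hS : Sm I P Q a v ≠ 0) :
    ∃ b, I a b ∧ v * per Q b = per P a ∧ ec I P a b = v := by
  unfold Sm Cp at hS
  rw [card_ne_zero] at hS
  obtain ⟨b, hb⟩ := hS
  simp only [mem_fs] at hb
  refine ⟨b, hb.1.1, ?_, hb.2⟩
  rcases h.tri hb.1.1 with h4 | h4 | h4
  · omega
  · rw [← hb.2]; exact h4.2.1
  · omega

theorem Cl_dvd (h : OC I P Q) (a : α) (q : ℕ) (hq : 2 ≤ q) : q ∣ Cl I Q a (q * per P a) := by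
  have hp := per_pos P a
  apply class_dvd (I := I) (Q := Q) a (fun b => per Q b = q * per P a) ?_ q ?_
  · intro b b' hs
    rw [per_sc Q hs]
  · intro b hab h1
    rcases h.tri hab with h3 | h3 | h3
    · nlinarith
    · nlinarith
    · have := h3.2.1
      rw [h1] at this
      exact Nat.eq_of_mul_eq_mul_right hp this

theorem Cl_bound (h : OC I P Q) (a : α) (l : ℕ) (hl : per P a < l) : per P a * Cl I Q a l ≤ Yc Q l := by
  have h1 := h.bound a (fun b => per Q b = l) (fun b => by rw [per_apply])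
  have h2 := h.card_p a (fun b => per Q b = l)
  have h3 : ∀ v, v ≠ 1 → Cp I P a (fun b => per Q b = l) v = 0 := by
    intro v hv
    unfold Cp
    rw [card_eq_zero, eq_empty_iff_forall_notMem]
    intro b hb
    rw [mem_fs] at hb
    obtain ⟨⟨h4, h5⟩, h6⟩ := hb
    rcases h.tri h4 with h3 | h3 | h3
    · omega
    · omega
    · omega
  rw [h3 2 (by norm_num), h3 3 (by norm_num), h3 4 (by norm_num), h3 5 (by norm_num), h3 6 (by norm_num)] at h1 h2
  unfold Cl Yc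
  rw [h2]
  simp only [mul_zero, add_zero] at h1 ⊢
  have e : per P a * (60 * Cp I P a (fun b => per Q b = l) 1) = 60 * (per P a * Cp I P a (fun b => per Q b = l) 1) := by ring
  rw [e] at h1
  exact Nat.le_of_mul_le_mul_left h1 (by norm_num)

/-- decomposition of the counts -/
theorem Nv_split (h : OC I P Q) (a : α) (v : ℕ) (hv : v ≠ 1) :
    Cp I P a (fun _ => True) v = E I P Q a v + Sm I P Q a v := by
  unfold E Sm Cp
  rw [← card_union_of_disjoint]
  · congr 1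
    ext b
    simp only [mem_union, mem_fs, and_true]
    constructor
    · rintro ⟨h1, h2⟩
      rcases h.tri h1 with h3 | h3 | h3
      · left; exact ⟨⟨h1, h3.1⟩, h2⟩
      · right; exact ⟨⟨h1, h3.1⟩, h2⟩
      · omega
    · rintro (h1 | h1)
      · exact ⟨h1.1.1, h1.2⟩
      · exact ⟨h1.1.1, h1.2⟩
  · rw [disjoint_left]
    intro b hb hb'
    simp only [mem_fs] at hb hb'
    omega

theorem N1_split (h : OC I P Q) (a : α) :
    Cp I P a (fun _ => True) 1 = E I P Q a 1 + La I P Q a := by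
  unfold E La Cp
  rw [← card_union_of_disjoint]
  · congr 1
    ext b
    simp only [mem_union, mem_fs, and_true]
    constructor
    · rintro ⟨h1, h2⟩
      rcases h.tri h1 with h3 | h3 | h3
      · left; exact ⟨⟨h1, h3.1⟩, h2⟩
      · rw [h2] at h3; omega
      · right; exact ⟨h1, h3.1⟩
    · rintro (h1 | h1)
      · exact ⟨h1.1.1, h1.2⟩
      · refine ⟨h1.1, ?_⟩
        rcases h.tri h1.1 with h3 | h3 | h3
        · omega
        · omega
        · exact h3.2.2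
  · rw [disjoint_left]
    intro b hb hb'
    simp only [mem_fs] at hb hb'
    omega

theorem E_bound (h : OC I P Q) (a : α) :
    per P a * (60 * E I P Q a 1 + 30 * E I P Q a 2 + 20 * E I P Q a 3 + 15 * E I P Q a 4
      + 12 * E I P Q a 5 + 10 * E I P Q a 6) ≤ 60 * Yc Q (per P a) :=
  h.bound a (fun b => per Q b = per P a) (fun b => by rw [per_apply])

theorem sum_ec' (h : OC I P Q) (a : α) :
    Cp I P a (fun _ => True) 1 + 2 * Cp I P a (fun _ => True) 2 + 3 * Cp I P a (fun _ => True) 3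
      + 4 * Cp I P a (fun _ => True) 4 + 5 * Cp I P a (fun _ => True) 5 + 6 * Cp I P a (fun _ => True) 6
      = per P a + 3 := by
  have h1 := h.sum_F a (fun _ => True) (fun v => v)
  rw [sum_Icc16] at h1
  have h2 : ((∑ b ∈ fs (fun b => I a b ∧ True), ec I P a b : ℕ) : ℤ) = per P a + 3 := by
    rw [← h.sum_ec a, sum_fs]
    push_cast
    apply sum_congr rfl
    intro b _
    unfold xx
    by_cases h3 : I a b <;> simp [h3]
  have h3 : (∑ b ∈ fs (fun b => I a b ∧ True), ec I P a b) = per P a + 3 := by exact_mod_cast h2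
  rw [h3] at h1
  linarith

theorem N_sum (h : OC I P Q) (a : α) :
    Cp I P a (fun _ => True) 1 + Cp I P a (fun _ => True) 2 + Cp I P a (fun _ => True) 3
      + Cp I P a (fun _ => True) 4 + Cp I P a (fun _ => True) 5 + Cp I P a (fun _ => True) 6 = 6 := by
  rw [← h.card_p a (fun _ => True), ← h.conf.ra a]
  congr 1
  ext b; rw [mem_fs, mem_filter]; simp

theorem N_bound (h : OC I P Q) (a : α) :
    per P a * (60 * Cp I P a (fun _ => True) 1 + 30 * Cp I P a (fun _ => True) 2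
      + 20 * Cp I P a (fun _ => True) 3 + 15 * Cp I P a (fun _ => True) 4
      + 12 * Cp I P a (fun _ => True) 5 + 10 * Cp I P a (fun _ => True) 6) ≤ 1980 := by
  have := h.bound a (fun _ => True) (fun b => Iff.rfl)
  have h2 : (fs (fun _ : β => True)).card = 33 := by
    rw [← h.conf.cb]; unfold fs; simp
  rw [h2] at this
  exact this

/-- the row theorem -/
theorem row (h : OC I P Q) (a : α) : ∃ N1 E2 E3 E4 E5 E6 S2 S3 S4 S5 S6 : ℕ,
    N1 = E I P Q a 1 + La I P Q a ∧ E2 = E I P Q a 2 ∧ E3 = E I P Q a 3 ∧ E4 = E I P Q a 4 ∧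
    E5 = E I P Q a 5 ∧ E6 = E I P Q a 6 ∧ S2 = Sm I P Q a 2 ∧ S3 = Sm I P Q a 3 ∧
    S4 = Sm I P Q a 4 ∧ S5 = Sm I P Q a 5 ∧ S6 = Sm I P Q a 6 ∧
    ((per P a = 3 ∧ N1 = 6 ∧ E2 = 0 ∧ E3 = 0 ∧ E4 = 0 ∧ E5 = 0 ∧ E6 = 0) ∨
    (per P a = 5 ∧ N1 = 4 ∧ E2 = 2 ∧ S2 = 0 ∧ E3 = 0 ∧ E4 = 0 ∧ E5 = 0 ∧ E6 = 0) ∨
    (per P a = 6 ∧ N1 = 3 ∧ E2 = 2 ∧ S2 = 1 ∧ E3 = 0 ∧ E4 = 0 ∧ E5 = 0 ∧ E6 = 0) ∨
    (per P a = 7 ∧ N1 = 2 ∧ E2 = 4 ∧ S2 = 0 ∧ E3 = 0 ∧ E4 = 0 ∧ E5 = 0 ∧ E6 = 0) ∨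
    (per P a = 8 ∧ N1 = 1 ∧ E2 = 4 ∧ S2 = 1 ∧ E3 = 0 ∧ E4 = 0 ∧ E5 = 0 ∧ E6 = 0) ∨
    (per P a = 9 ∧ N1 = 1 ∧ E2 = 4 ∧ S2 = 0 ∧ S3 = 1 ∧ E3 = 0 ∧ E4 = 0 ∧ E5 = 0 ∧ E6 = 0) ∨
    (per P a = 9 ∧ N1 = 0 ∧ E2 = 6 ∧ S2 = 0 ∧ E3 = 0 ∧ E4 = 0 ∧ E5 = 0 ∧ E6 = 0) ∨
    (per P a = 11 ∧ N1 = 1 ∧ E2 = 2 ∧ S2 = 0 ∧ E3 = 3 ∧ S3 = 0 ∧ E4 = 0 ∧ E5 = 0 ∧ E6 = 0) ∨
    (per P a = 12 ∧ N1 = 0 ∧ E2 = 4 ∧ S2 = 0 ∧ S3 = 1 ∧ S4 = 1 ∧ E3 = 0 ∧ E4 = 0 ∧ E5 = 0 ∧ E6 = 0) ∨
    (per P a = 12 ∧ N1 = 0 ∧ E2 = 2 ∧ S2 = 1 ∧ E3 = 3 ∧ S3 = 0 ∧ E4 = 0 ∧ E5 = 0 ∧ E6 = 0) ∨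
    (per P a = 15 ∧ N1 = 0 ∧ E2 = 2 ∧ S2 = 0 ∧ E3 = 3 ∧ S3 = 0 ∧ S5 = 1 ∧ E4 = 0 ∧ E5 = 0 ∧ E6 = 0) ∨
    (per P a = 15 ∧ N1 = 0 ∧ E2 = 0 ∧ E3 = 6 ∧ S3 = 0 ∧ E4 = 0 ∧ E5 = 0 ∧ E6 = 0 ∧ S2 = 0 ∧ S5 = 0) ∨
    (per P a = 18 ∧ N1 = 0 ∧ E2 = 0 ∧ S2 = 1 ∧ E3 = 0 ∧ S3 = 1 ∧ E4 = 4 ∧ E5 = 0 ∧ E6 = 0) ∨
    (per P a = 33 ∧ N1 = 0 ∧ E2 = 0 ∧ E3 = 0 ∧ E4 = 0 ∧ E5 = 0 ∧ E6 = 6)) := by
  refine ⟨_, _, _, _, _, _, _, _, _, _, _, rfl, rfl, rfl, rfl, rfl, rfl, rfl, rfl, rfl, rfl, rfl, ?_⟩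
  have a1 := h.N_sum a
  have a2 := h.sum_ec' a
  have a3 := h.N_bound a
  rw [h.N1_split, h.Nv_split a 2 (by norm_num), h.Nv_split a 3 (by norm_num), h.Nv_split a 4 (by norm_num),
    h.Nv_split a 5 (by norm_num), h.Nv_split a 6 (by norm_num)] at a1 a2 a3
  obtain ⟨k2, d2⟩ := h.E_dvd a 2
  obtain ⟨k3, d3⟩ := h.E_dvd a 3
  obtain ⟨k4, d4⟩ := h.E_dvd a 4
  obtain ⟨k5, d5⟩ := h.E_dvd a 5
  obtain ⟨k6, d6⟩ := h.E_dvd a 6
  have hs : ∀ v, 0 < v → Sm I P Q a v = 0 ∨ (Sm I P Q a v = 1 ∧ v ∣ per P a ∧ 3 * v ≤ per P a) := by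
    intro v hv
    by_cases h0 : Sm I P Q a v = 0
    · exact Or.inl h0
    · right
      have h1 := h.Sm_le a v
      obtain ⟨b, hb, hb2, _⟩ := h.Sm_pos a v h0
      have h3 : 3 ≤ per Q b := h.dual.per_ge b
      refine ⟨by omega, ⟨_, hb2.symm⟩, ?_⟩
      rw [← hb2, mul_comm]
      exact Nat.mul_le_mul_left v h3
  rw [d2, d3, d4, d5, d6] at a1 a2 a3
  rw [d2, d3, d4, d5, d6]
  have hs2 := hs 2 (by norm_num)
  have hs3 := hs 3 (by norm_num)
  have hs4 := hs 4 (by norm_num)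
  have hs5 := hs 5 (by norm_num)
  have hs6 := hs 6 (by norm_num)
  have hge := h.per_ge a
  generalize per P a = n at *
  generalize Sm I P Q a 2 = s2 at *
  generalize Sm I P Q a 3 = s3 at *
  generalize Sm I P Q a 4 = s4 at *
  generalize Sm I P Q a 5 = s5 at *
  generalize Sm I P Q a 6 = s6 at *
  generalize E I P Q a 1 + La I P Q a = N1 at *
  have hr := row_num n N1 k2 k3 k4 k5 k6 s2 s3 s4 s5 s6 hge a1 a2 a3 hs2 hs3 hs4 hs5 hs6
  clear hs a3 hs2 hs3 hs4 hs5 hs6 d2 d3 d4 d5 d6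
  simp only [rowsL, List.mem_cons, List.not_mem_nil, or_false, List.cons.injEq, and_true] at hr
  rcases hr with hr | hr | hr | hr | hr | hr | hr | hr | hr | hr | hr | hr | hr | hr <;>
    obtain ⟨rfl, rfl, rfl, rfl, rfl, rfl, rfl, rfl, rfl, rfl, rfl⟩ := hr <;> simp <;> omega

end OC

end Pool.Agent.Helper15.C33
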