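import Mathlib
import Pool.Agent.Helper15.C33D

set_option autoImplicit false
set_option linter.unusedSectionVars false

/-!
# Part E: elimination
-/

namespace Pool.Agent.Helper15.C33

open Finset
open scoped Classical

variable {α β : Type} [Fintype α] [Fintype β] {I : α → β → Prop} {P : Equiv.Perm α} {Q : Equiv.Perm β}

namespace OC

theorem per_mem8 (h : OC I P Q) (a : α) : per P a = 3 ∨ per P a = 5 ∨ per P a = 6 ∨ per P a = 7 ∨
    per P a = 8 ∨ per P a = 9 ∨ per P a = 11 ∨ per P a = 12 ∨ per P a = 15 ∨ per P a = 18 ∨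
    per P a = 33 := by
  obtain ⟨N1, E2, E3, E4, E5, E6, S2, S3, S4, S5, S6, _, _, _, _, _, _, _, _, _, _, _, hr⟩ := h.row a
  generalize per P a = n at *
  clear * - hr
  rcases hr with hr | hr | hr | hr | hr | hr | hr | hr | hr | hr | hr | hr | hr | hr <;>
    (have := hr.1; simp [this])

theorem ne8 (h : OC I P Q) (a : α) : per P a ≠ 8 := by
  intro h8
  obtain ⟨N1, E2, E3, E4, E5, E6, S2, S3, S4, S5, S6, _, _, _, _, _, _, e2, _, _, _, _, hr⟩ := h.row a
  have hS : S2 = 1 := by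
    rw [h8] at hr
    rcases hr with hr | hr | hr | hr | hr | hr | hr | hr | hr | hr | hr | hr | hr | hr <;> omega
  rw [hS] at e2
  obtain ⟨b, hb, hb2, _⟩ := h.Sm_pos a 2 (by omega)
  have := h.dual.per_mem8 b
  omega

theorem per_mem (h : OC I P Q) (a : α) : per P a = 3 ∨ per P a = 5 ∨ per P a = 6 ∨ per P a = 7 ∨
    per P a = 9 ∨ per P a = 11 ∨ per P a = 12 ∨ per P a = 15 ∨ per P a = 18 ∨
    per P a = 33 := by
  have h1 := h.per_mem8 a
  have h2 := h.ne8 a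
  rcases h1 with h1 | h1 | h1 | h1 | h1 | h1 | h1 | h1 | h1 | h1 | h1
  all_goals first | (exact absurd h1 h2) | simp [h1]

theorem large_dvd (h : OC I P Q) {a : α} {b : β} (hab : I a b) (hlt : per P a < per Q b) :
    ∃ q, 2 ≤ q ∧ per Q b = q * per P a := by
  rcases h.tri hab with h3 | h3 | h3
  · omega
  · omega
  · refine ⟨_, ?_, h3.2.1.symm⟩
    by_contra hcon
    push Not at hcon
    have : ec (fun b a => I a b) Q b a ≤ 1 := by omega
    have h4 := h3.2.1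
    nlinarith

theorem La_zero (h : OC I P Q) (a : α) (hno : ∀ b, I a b → per P a < per Q b → False) : La I P Q a = 0 := by
  unfold La
  rw [card_eq_zero, eq_empty_iff_forall_notMem]
  intro b hb
  rw [mem_fs] at hb
  exact hno b hb.1 hb.2

theorem La_one (h : OC I P Q) (a : α) (l : ℕ) (hl : per P a < l)
    (hno : ∀ b, I a b → per P a < per Q b → per Q b = l) : La I P Q a = Cl I Q a l := by
  unfold La Cl
  congr 1
  apply fs_congr
  intro b
  constructor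
  · rintro ⟨h1, h2⟩; exact ⟨h1, hno b h1 h2⟩
  · rintro ⟨h1, h2⟩; exact ⟨h1, by omega⟩

theorem La_two (h : OC I P Q) (a : α) (l l' : ℕ) (hl : per P a < l) (hl' : per P a < l') (hne : l ≠ l')
    (hno : ∀ b, I a b → per P a < per Q b → per Q b = l ∨ per Q b = l') :
    La I P Q a = Cl I Q a l + Cl I Q a l' := by
  unfold La Cl
  rw [← card_union_of_disjoint]
  · congr 1
    ext b
    simp only [mem_union, mem_fs]
    constructor
    · rintro ⟨h1, h2⟩
      rcases hno b h1 h2 with h3 | h3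
      · exact Or.inl ⟨h1, h3⟩
      · exact Or.inr ⟨h1, h3⟩
    · rintro (⟨h1, h2⟩ | ⟨h1, h2⟩)
      · exact ⟨h1, by omega⟩
      · exact ⟨h1, by omega⟩
  · rw [disjoint_left]
    intro b hb hb'
    simp only [mem_fs] at hb hb'
    omega

theorem row5 (h : OC I P Q) (a : α) (hn : per P a = 5) :
    ∃ e d, e + d = 4 ∧ 3 ∣ d ∧ 5 * (e + 1) ≤ Yc Q 5 ∧ 5 * d ≤ Yc Q 15 := by
  obtain ⟨N1, E2, E3, E4, E5, E6, S2, S3, S4, S5, S6, e1, e2, e3, e4, e5, e6, _, _, _, _, _, hr⟩ := h.row a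
  have hb := h.E_bound a
  have hL : La I P Q a = Cl I Q a 15 := by
    apply h.La_one a 15 (by omega)
    intro b hb hlt
    obtain ⟨q, hq, hqe⟩ := h.large_dvd hb hlt
    have := h.dual.per_mem b
    rw [hn] at hqe hlt
    omega
  have h1 := h.Cl_dvd a 3 (by norm_num)
  have h2 := h.Cl_bound a 15 (by omega)
  rw [hn] at hr h1 h2 hb
  refine ⟨E I P Q a 1, Cl I Q a 15, ?_, h1, ?_, h2⟩
  · rcases hr with hr | hr | hr | hr | hr | hr | hr | hr | hr | hr | hr | hr | hr | hr <;> omega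
  · rcases hr with hr | hr | hr | hr | hr | hr | hr | hr | hr | hr | hr | hr | hr | hr <;> omega

theorem row6 (h : OC I P Q) (a : α) (hn : per P a = 6) :
    (∃ b, I a b ∧ per Q b = 3) ∧
    ∃ e d f, e + d + f = 3 ∧ 2 ∣ d ∧ 3 ∣ f ∧ 6 * (e + 1) ≤ Yc Q 6 ∧ 6 * d ≤ Yc Q 12 ∧ 6 * f ≤ Yc Q 18 := by
  obtain ⟨N1, E2, E3, E4, E5, E6, S2, S3, S4, S5, S6, e1, e2, e3, e4, e5, e6, s2, _, _, _, _, hr⟩ := h.row a
  have hb := h.E_bound a
  have hL : La I P Q a = Cl I Q a 12 + Cl I Q a 18 := by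
    apply h.La_two a 12 18 (by omega) (by omega) (by norm_num)
    intro b hb hlt
    obtain ⟨q, hq, hqe⟩ := h.large_dvd hb hlt
    have := h.dual.per_mem b
    rw [hn] at hqe hlt
    omega
  have h1 := h.Cl_dvd a 2 (by norm_num)
  have h1' := h.Cl_dvd a 3 (by norm_num)
  have h2 := h.Cl_bound a 12 (by omega)
  have h2' := h.Cl_bound a 18 (by omega)
  rw [hn] at hr h1 h1' h2 h2' hb
  constructor
  · have hS : S2 = 1 := by
      rcases hr with hr | hr | hr | hr | hr | hr | hr | hr | hr | hr | hr | hr | hr | hr <;> omega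
    obtain ⟨b, hb, hb2, _⟩ := h.Sm_pos a 2 (by omega)
    exact ⟨b, hb, by omega⟩
  refine ⟨E I P Q a 1, Cl I Q a 12, Cl I Q a 18, ?_, h1, h1', ?_, h2, h2'⟩
  · rcases hr with hr | hr | hr | hr | hr | hr | hr | hr | hr | hr | hr | hr | hr | hr <;> omega
  · rcases hr with hr | hr | hr | hr | hr | hr | hr | hr | hr | hr | hr | hr | hr | hr <;> omega

theorem row7 (h : OC I P Q) (a : α) (hn : per P a = 7) : 28 ≤ Yc Q 7 := by
  obtain ⟨N1, E2, E3, E4, E5, E6, S2, S3, S4, S5, S6, e1, e2, e3, e4, e5, e6, s2, _, _, _, _, hr⟩ := h.row a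
  have hb := h.E_bound a
  have hL : La I P Q a = 0 := by
    apply h.La_zero a
    intro b hb hlt
    obtain ⟨q, hq, hqe⟩ := h.large_dvd hb hlt
    have := h.dual.per_mem b
    rw [hn] at hqe hlt
    omega
  rw [hn] at hr hb
  rcases hr with hr | hr | hr | hr | hr | hr | hr | hr | hr | hr | hr | hr | hr | hr <;> omega

theorem row9 (h : OC I P Q) (a : α) (hn : per P a = 9) : 27 ≤ Yc Q 9 := by
  obtain ⟨N1, E2, E3, E4, E5, E6, S2, S3, S4, S5, S6, e1, e2, e3, e4, e5, e6, s2, _, _, _, _, hr⟩ := h.row a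
  have hb := h.E_bound a
  have hL : La I P Q a = Cl I Q a 18 := by
    apply h.La_one a 18 (by omega)
    intro b hb hlt
    obtain ⟨q, hq, hqe⟩ := h.large_dvd hb hlt
    have := h.dual.per_mem b
    rw [hn] at hqe hlt
    omega
  have h1 := h.Cl_dvd a 2 (by norm_num)
  rw [hn] at hr hb h1
  rw [show 2 * 9 = 18 from rfl] at h1
  rcases hr with hr | hr | hr | hr | hr | hr | hr | hr | hr | hr | hr | hr | hr | hr <;> omega

theorem row11 (h : OC I P Q) (a : α) (hn : per P a = 11) : 33 ≤ Yc Q 11 ∧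
    E I P Q a 1 = 1 ∧ E I P Q a 2 = 2 ∧ E I P Q a 3 = 3 := by
  obtain ⟨N1, E2, E3, E4, E5, E6, S2, S3, S4, S5, S6, e1, e2, e3, e4, e5, e6, s2, _, _, _, _, hr⟩ := h.row a
  have hb := h.E_bound a
  have hL : La I P Q a = Cl I Q a 33 := by
    apply h.La_one a 33 (by omega)
    intro b hb hlt
    obtain ⟨q, hq, hqe⟩ := h.large_dvd hb hlt
    have := h.dual.per_mem b
    rw [hn] at hqe hlt
    omega
  have h1 := h.Cl_dvd a 3 (by norm_num)
  rw [hn] at hr hb h1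
  rw [show 3 * 11 = 33 from rfl] at h1
  rcases hr with hr | hr | hr | hr | hr | hr | hr | hr | hr | hr | hr | hr | hr | hr <;> omega

theorem row12 (h : OC I P Q) (a : α) (hn : per P a = 12) :
    24 ≤ Yc Q 12 ∧ ∃ b, I a b ∧ per Q b = 6 := by
  obtain ⟨N1, E2, E3, E4, E5, E6, S2, S3, S4, S5, S6, e1, e2, e3, e4, e5, e6, s2, s3, s4, _, _, hr⟩ := h.row a
  have hb := h.E_bound a
  rw [hn] at hr hb
  have hS : S3 ≠ 1 := by
    intro hS
    obtain ⟨b, hb, hb2, _⟩ := h.Sm_pos a 3 (by omega)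
    have := h.dual.per_mem b
    omega
  have hS : S2 = 1 := by
    rcases hr with hr | hr | hr | hr | hr | hr | hr | hr | hr | hr | hr | hr | hr | hr <;> omega
  constructor
  · rcases hr with hr | hr | hr | hr | hr | hr | hr | hr | hr | hr | hr | hr | hr | hr <;> omega
  · obtain ⟨b, hb, hb2, _⟩ := h.Sm_pos a 2 (by omega)
    exact ⟨b, hb, by omega⟩

theorem row18 (h : OC I P Q) (a : α) (hn : per P a = 18) :
    18 ≤ Yc Q 18 ∧ (∃ b, I a b ∧ per Q b = 6) ∧ (∃ b, I a b ∧ per Q b = 9) := by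
  obtain ⟨N1, E2, E3, E4, E5, E6, S2, S3, S4, S5, S6, e1, e2, e3, e4, e5, e6, s2, s3, s4, _, _, hr⟩ := h.row a
  have hb := h.E_bound a
  rw [hn] at hr hb
  have hS2 : S2 = 1 := by
    rcases hr with hr | hr | hr | hr | hr | hr | hr | hr | hr | hr | hr | hr | hr | hr <;> omega
  have hS3 : S3 = 1 := by
    rcases hr with hr | hr | hr | hr | hr | hr | hr | hr | hr | hr | hr | hr | hr | hr <;> omega
  refine ⟨?_, ?_, ?_⟩
  · rcases hr with hr | hr | hr | hr | hr | hr | hr | hr | hr | hr | hr | hr | hr | hr <;> omega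
  · obtain ⟨b, hb, hb2, _⟩ := h.Sm_pos a 3 (by omega)
    exact ⟨b, hb, by omega⟩
  · obtain ⟨b, hb, hb2, _⟩ := h.Sm_pos a 2 (by omega)
    exact ⟨b, hb, by omega⟩

theorem row15 (h : OC I P Q) (a : α) (hn : per P a = 15) :
    30 ≤ Yc Q 15 ∧ La I P Q a = 0 ∧ ((∃ b, I a b ∧ per Q b = 3) ∨ 
      (E I P Q a 3 = 6)) := by
  obtain ⟨N1, E2, E3, E4, E5, E6, S2, S3, S4, S5, S6, e1, e2, e3, e4, e5, e6, s2, s3, s4, s5, _, hr⟩ := h.row a
  have hb := h.E_bound a
  rw [hn] at hr hb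
  refine ⟨?_, ?_, ?_⟩
  · rcases hr with hr | hr | hr | hr | hr | hr | hr | hr | hr | hr | hr | hr | hr | hr <;> omega
  · rcases hr with hr | hr | hr | hr | hr | hr | hr | hr | hr | hr | hr | hr | hr | hr <;> omega
  · by_cases hS : S5 = 1
    · left
      obtain ⟨b, hb, hb2, _⟩ := h.Sm_pos a 5 (by omega)
      exact ⟨b, hb, by omega⟩
    · right
      rcases hr with hr | hr | hr | hr | hr | hr | hr | hr | hr | hr | hr | hr | hr | hr <;> omega

theorem row33 (h : OC I P Q) (a : α) (hn : per P a = 33) : 33 ≤ Yc Q 33 ∧ E I P Q a 6 = 6 := by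
  obtain ⟨N1, E2, E3, E4, E5, E6, S2, S3, S4, S5, S6, e1, e2, e3, e4, e5, e6, s2, s3, s4, _, _, hr⟩ := h.row a
  have hb := h.E_bound a
  rw [hn] at hr hb
  rcases hr with hr | hr | hr | hr | hr | hr | hr | hr | hr | hr | hr | hr | hr | hr <;> omega

theorem Yc_pos {b : β} {l : ℕ} (hb : per Q b = l) : 0 < Yc Q l := by
  unfold Yc
  rw [card_pos]
  exact ⟨b, mem_fs.mpr hb⟩

theorem Yc_ex {l : ℕ} (hb : 0 < Yc Q l) : ∃ b, per Q b = l := by
  unfold Yc at hb
  rw [card_pos] at hb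
  obtain ⟨b, hb⟩ := hb
  rw [mem_fs] at hb
  exact ⟨b, hb⟩

theorem Yc_sum (h : OC I P Q) : Yc Q 3 + Yc Q 5 + Yc Q 6 + Yc Q 7 + Yc Q 9 + Yc Q 11 + Yc Q 12
    + Yc Q 15 + Yc Q 18 + Yc Q 33 = 33 := by
  have h1 := card_eq_sum_card_fiberwise (s := (univ : Finset β)) (t := ({3,5,6,7,9,11,12,15,18,33} : Finset ℕ))
    (f := fun b => per Q b) (by
      intro b _
      have := h.dual.per_mem b
      simp only [coe_insert, coe_singleton, Set.mem_insert_iff, Set.mem_singleton_iff]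
      exact this)
  rw [card_univ, h.conf.cb] at h1
  have e : ∀ l : ℕ, (univ.filter (fun b => per Q b = l)).card = Yc Q l := by
    intro l; unfold Yc fs; congr
  simp_rw [e] at h1
  refine Eq.trans ?_ h1.symm
  rw [Finset.sum_insert (by decide), Finset.sum_insert (by decide), Finset.sum_insert (by decide),
    Finset.sum_insert (by decide), Finset.sum_insert (by decide), Finset.sum_insert (by decide),
    Finset.sum_insert (by decide), Finset.sum_insert (by decide), Finset.sum_insert (by decide),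
    Finset.sum_singleton]
  ring

theorem Cl_sum (h : OC I P Q) (a : α) : Cl I Q a 3 + Cl I Q a 5 + Cl I Q a 6 + Cl I Q a 7 + Cl I Q a 9
    + Cl I Q a 11 + Cl I Q a 12 + Cl I Q a 15 + Cl I Q a 18 + Cl I Q a 33 = 6 := by
  have h1 := card_eq_sum_card_fiberwise (s := (fs (fun b => I a b)))
    (t := ({3,5,6,7,9,11,12,15,18,33} : Finset ℕ)) (f := fun b => per Q b) (by
      intro b _
      have := h.dual.per_mem b
      simp only [coe_insert, coe_singleton, Set.mem_insert_iff, Set.mem_singleton_iff]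
      exact this)
  have e0 : (fs (fun b => I a b)).card = 6 := h.conf.ra a
  rw [e0] at h1
  have e : ∀ l : ℕ, ((fs (fun b => I a b)).filter (fun b => per Q b = l)).card = Cl I Q a l := by
    intro l; unfold Cl; congr 1; ext b; rw [mem_filter, mem_fs, mem_fs]
  simp_rw [e] at h1
  refine Eq.trans ?_ h1.symm
  rw [Finset.sum_insert (by decide), Finset.sum_insert (by decide), Finset.sum_insert (by decide),
    Finset.sum_insert (by decide), Finset.sum_insert (by decide), Finset.sum_insert (by decide),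
    Finset.sum_insert (by decide), Finset.sum_insert (by decide), Finset.sum_insert (by decide),
    Finset.sum_singleton]
  ring

theorem Cl_le_Yc (a : α) (l : ℕ) : Cl I Q a l ≤ Yc Q l := by
  unfold Cl Yc
  apply card_le_card
  intro b hb
  rw [mem_fs] at hb ⊢
  exact hb.2

theorem flags (n l : ℕ) : ∑ b ∈ fs (fun b => per Q b = l), Cl (fun b a => I a b) P b n
    = ∑ a ∈ fs (fun a => per P a = n), Cl I Q a l := by
  unfold Cl
  simp_rw [card_eq_sum_ones, sum_fs]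
  have e1 : ∀ b : β, (if per Q b = l then ∑ a : α, (if (I a b ∧ per P a = n) then 1 else 0) else 0)
      = ∑ a : α, (if I a b ∧ per P a = n ∧ per Q b = l then 1 else 0) := by
    intro b
    by_cases hb : per Q b = l
    · rw [if_pos hb]; apply sum_congr rfl; intro a _; simp only [hb, and_true]
    · rw [if_neg hb]; symm; apply sum_eq_zero; intro a _; rw [if_neg]; tauto
  have e2 : ∀ a : α, (if per P a = n then ∑ b : β, (if (I a b ∧ per Q b = l) then 1 else 0) else 0)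
      = ∑ b : β, (if I a b ∧ per P a = n ∧ per Q b = l then 1 else 0) := by
    intro a
    by_cases ha : per P a = n
    · rw [if_pos ha]; apply sum_congr rfl; intro b _; simp only [ha, true_and]
    · rw [if_neg ha]; symm; apply sum_eq_zero; intro b _; rw [if_neg]; tauto
  have e3 : ∑ b : β, (if per Q b = l then ∑ a : α, (if (I a b ∧ per P a = n) then 1 else 0) else 0)
      = ∑ a : α, (if per P a = n then ∑ b : β, (if (I a b ∧ per Q b = l) then 1 else 0) else 0) := by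
    rw [sum_congr rfl (fun b _ => e1 b), sum_congr rfl (fun a _ => e2 a)]
    exact sum_comm
  refine Eq.trans ?_ (e3.trans ?_)
  · apply sum_congr rfl; intro b _; congr 1; apply sum_congr rfl; intro a _; congr
  · apply sum_congr rfl; intro a _; congr 1; apply sum_congr rfl; intro b _; congr

theorem Cl_small_le (h : OC I P Q) (a : α) (l : ℕ) (hl : ¬ per P a ∣ l) : Cl I Q a l ≤ 1 := by
  unfold Cl
  rw [card_le_one]
  intro b hb b' hb'
  rw [mem_fs] at hb hb'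
  exact h.small_unique hb.1 hb'.1 (hb.2.trans hb'.2.symm) (by rw [hb.2]; exact hl)

theorem Cl_pos {a : α} {b : β} {l : ℕ} (hab : I a b) (hb : per Q b = l) : 0 < Cl I Q a l := by
  unfold Cl
  rw [card_pos]
  exact ⟨b, by rw [mem_fs]; exact ⟨hab, hb⟩⟩

theorem row3 (h : OC I P Q) (a : α) (hn : per P a = 3) : 3 * Cl I Q a 3 ≤ Yc Q 3 ∧ Cl I Q a 5 = 0 ∧
    Cl I Q a 7 = 0 ∧ Cl I Q a 11 = 0 ∧ 2 ∣ Cl I Q a 6 ∧ 3 ∣ Cl I Q a 9 ∧ 5 ∣ Cl I Q a 15 ∧
    E I P Q a 2 = 0 ∧ E I P Q a 3 = 0 := by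
  obtain ⟨N1, E2, E3, E4, E5, E6, S2, S3, S4, S5, S6, e1, e2, e3, e4, e5, e6, s2, s3, s4, _, _, hr⟩ := h.row a
  have hb := h.E_bound a
  have hz : ∀ l, l = 5 ∨ l = 7 ∨ l = 11 → Cl I Q a l = 0 := by
    intro l hl
    unfold Cl
    rw [card_eq_zero, eq_empty_iff_forall_notMem]
    intro b hb
    rw [mem_fs] at hb
    obtain ⟨q, hq, hqe⟩ := h.large_dvd hb.1 (by omega)
    rw [hn, hb.2] at hqe
    omega
  have hc := h.card_p a (fun b => per Q b = 3)
  have hE : ∀ v, Cp I P a (fun b => per Q b = 3) v = E I P Q a v := by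
    intro v; unfold E; rw [hn]
  have hCl : (fs (fun b => I a b ∧ per Q b = 3)).card = Cl I Q a 3 := rfl
  rw [hE, hE, hE, hE, hE, hE, hCl] at hc
  have d1 := h.Cl_dvd a 2 (by norm_num)
  have d2 := h.Cl_dvd a 3 (by norm_num)
  have d3 := h.Cl_dvd a 5 (by norm_num)
  rw [hn] at hr hb d1 d2 d3
  rw [show 2 * 3 = 6 from rfl] at d1
  rw [show 3 * 3 = 9 from rfl] at d2
  rw [show 5 * 3 = 15 from rfl] at d3
  refine ⟨?_, hz 5 (by norm_num), hz 7 (by norm_num), hz 11 (by norm_num), d1, d2, d3, ?_, ?_⟩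
  · rcases hr with hr | hr | hr | hr | hr | hr | hr | hr | hr | hr | hr | hr | hr | hr <;> omega
  · rcases hr with hr | hr | hr | hr | hr | hr | hr | hr | hr | hr | hr | hr | hr | hr <;> omega
  · rcases hr with hr | hr | hr | hr | hr | hr | hr | hr | hr | hr | hr | hr | hr | hr <;> omega

end OC

/-- one-directional numerical facts -/
structure AF (x3 x5 x6 x7 x9 x11 x12 x15 x18 x33 y3 y5 y6 y7 y9 y11 y12 y15 y18 y33 : ℕ) : Prop where
  s : x3 + x5 + x6 + x7 + x9 + x11 + x12 + x15 + x18 + x33 = 33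
  d3 : 3 ∣ x3
  d5 : 5 ∣ x5
  d6 : 6 ∣ x6
  d7 : 7 ∣ x7
  d9 : 9 ∣ x9
  d11 : 11 ∣ x11
  d12 : 12 ∣ x12
  d15 : 15 ∣ x15
  d18 : 18 ∣ x18
  d33 : 33 ∣ x33
  f5 : 0 < x5 → ∃ e d, e + d = 4 ∧ 3 ∣ d ∧ 5 * (e + 1) ≤ y5 ∧ 5 * d ≤ y15
  f6 : 0 < x6 → 0 < y3 ∧
    ∃ e d f, e + d + f = 3 ∧ 2 ∣ d ∧ 3 ∣ f ∧ 6 * (e + 1) ≤ y6 ∧ 6 * d ≤ y12 ∧ 6 * f ≤ y18
  f7 : 0 < x7 → 28 ≤ y7
  f9 : 0 < x9 → 27 ≤ y9
  f11 : 0 < x11 → 33 ≤ y11
  f12 : 0 < x12 → 24 ≤ y12 ∧ 0 < y6
  f15 : 0 < x15 → 30 ≤ y15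
  f18 : 0 < x18 → 18 ≤ y18 ∧ 0 < y6 ∧ 0 < y9
  f33 : 0 < x33 → 33 ≤ y33

theorem OC.af (h : OC I P Q) : AF (OC.Yc P 3) (OC.Yc P 5) (OC.Yc P 6) (OC.Yc P 7) (OC.Yc P 9)
    (OC.Yc P 11) (OC.Yc P 12) (OC.Yc P 15) (OC.Yc P 18) (OC.Yc P 33) (OC.Yc Q 3) (OC.Yc Q 5)
    (OC.Yc Q 6) (OC.Yc Q 7) (OC.Yc Q 9) (OC.Yc Q 11) (OC.Yc Q 12) (OC.Yc Q 15) (OC.Yc Q 18)
    (OC.Yc Q 33) where
  s := h.dual.Yc_sum
  d3 := OC.dvd_Yc 3
  d5 := OC.dvd_Yc 5
  d6 := OC.dvd_Yc 6
  d7 := OC.dvd_Yc 7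
  d9 := OC.dvd_Yc 9
  d11 := OC.dvd_Yc 11
  d12 := OC.dvd_Yc 12
  d15 := OC.dvd_Yc 15
  d18 := OC.dvd_Yc 18
  d33 := OC.dvd_Yc 33
  f5 := fun hx => by obtain ⟨a, ha⟩ := OC.Yc_ex hx; exact h.row5 a ha
  f6 := fun hx => by
    obtain ⟨a, ha⟩ := OC.Yc_ex hx
    obtain ⟨⟨b, _, hb⟩, h2⟩ := h.row6 a ha
    exact ⟨OC.Yc_pos hb, h2⟩
  f7 := fun hx => by obtain ⟨a, ha⟩ := OC.Yc_ex hx; exact h.row7 a ha
  f9 := fun hx => by obtain ⟨a, ha⟩ := OC.Yc_ex hx; exact h.row9 a ha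
  f11 := fun hx => by obtain ⟨a, ha⟩ := OC.Yc_ex hx; exact (h.row11 a ha).1
  f12 := fun hx => by
    obtain ⟨a, ha⟩ := OC.Yc_ex hx
    obtain ⟨h1, ⟨b, _, hb⟩⟩ := h.row12 a ha
    exact ⟨h1, OC.Yc_pos hb⟩
  f15 := fun hx => by obtain ⟨a, ha⟩ := OC.Yc_ex hx; exact (h.row15 a ha).1
  f18 := fun hx => by
    obtain ⟨a, ha⟩ := OC.Yc_ex hx
    obtain ⟨h1, ⟨b, _, hb⟩, ⟨b', _, hb'⟩⟩ := h.row18 a ha
    exact ⟨h1, OC.Yc_pos hb, OC.Yc_pos hb'⟩
  f33 := fun hx => by obtain ⟨a, ha⟩ := OC.Yc_ex hx; exact (h.row33 a ha).1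

theorem arith {x3 x5 x6 x7 x9 x11 x12 x15 x18 x33 y3 y5 y6 y7 y9 y11 y12 y15 y18 y33 : ℕ}
    (A : AF x3 x5 x6 x7 x9 x11 x12 x15 x18 x33 y3 y5 y6 y7 y9 y11 y12 y15 y18 y33)
    (B : AF y3 y5 y6 y7 y9 y11 y12 y15 y18 y33 x3 x5 x6 x7 x9 x11 x12 x15 x18 x33) :
    (x33 = 33 ∧ y33 = 33) ∨ (x11 = 33 ∧ y11 = 33) ∨ (x15 = 30 ∧ x3 = 3 ∧ y15 = 30 ∧ y3 = 3) ∨
    (x3 = 33 ∧ y3 = 33) ∨ (x5 = 30 ∧ x3 = 3 ∧ y5 = 30 ∧ y3 = 3) ∨
    (x9 = 27 ∧ x3 = 6 ∧ y9 = 27 ∧ y3 = 6) ∨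
    (x3 + x6 = 33 ∧ 24 ≤ x6 ∧ 0 < x3 ∧ y3 + y6 = 33 ∧ 24 ≤ y6 ∧ 0 < y3) := by
  have s := A.s
  have t := B.s
  by_cases c33 : 0 < x33
  · have h1 := A.f33 c33
    have h2 := B.f33 (by omega)
    left; omega
  by_cases c33' : 0 < y33
  · have h1 := B.f33 c33'
    omega
  by_cases c11 : 0 < x11
  · have h1 := A.f11 c11
    have h2 := B.f11 (by omega)
    right; left; omega
  by_cases c11' : 0 < y11
  · have h1 := B.f11 c11'
    omega
  by_cases c15 : 0 < x15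
  · have h1 := A.f15 c15
    have h2 := B.f15 (by omega)
    have d1 := A.d15
    have d2 := B.d15
    have e1 : x15 = 30 := by omega
    have e2 : y15 = 30 := by omega
    have z := @Nat.eq_zero_of_dvd_of_lt
    have m5 := z A.d5 (by omega)
    have m6 := z A.d6 (by omega)
    have m7 := z A.d7 (by omega)
    have m9 := z A.d9 (by omega)
    have m12 := z A.d12 (by omega)
    have m18 := z A.d18 (by omega)
    have m5' := z B.d5 (by omega)
    have m6' := z B.d6 (by omega)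
    have m7' := z B.d7 (by omega)
    have m9' := z B.d9 (by omega)
    have m12' := z B.d12 (by omega)
    have m18' := z B.d18 (by omega)
    have e3 : x3 = 3 := by omega
    have e4 : y3 = 3 := by omega
    right; right; left; exact ⟨e1, e3, e2, e4⟩
  by_cases c15' : 0 < y15
  · have h1 := B.f15 c15'
    omega
  have z33 : x33 = 0 := by omega
  have z33' : y33 = 0 := by omega
  have z11 : x11 = 0 := by omega
  have z11' : y11 = 0 := by omega
  have z15 : x15 = 0 := by omega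
  have z15' : y15 = 0 := by omega
  subst z33 z33' z11 z11' z15 z15'
  clear c33 c33' c11 c11' c15 c15'
  have k18 : ¬ (0 < x18) := by
    intro c
    have h1 := A.f18 c
    have m6' := B.d6
    have m9' := B.d9
    have m6 := A.d6
    have m9 := A.d9
    have h2 := B.f18 (by omega)
    have h3 := (B.f6 (by omega)).1
    omega
  have k18' : ¬ (0 < y18) := by
    intro c
    have h1 := B.f18 c
    omega
  have z18 : x18 = 0 := by omega
  have z18' : y18 = 0 := by omega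
  subst z18 z18'
  clear k18 k18'
  have k12 : ¬ (0 < x12) := by
    intro c
    have h1 := A.f12 c
    have h2 := B.f12 (by omega)
    obtain ⟨h3, e, d, f, h4⟩ := B.f6 (by omega)
    have m3 := A.d3
    omega
  have k12' : ¬ (0 < y12) := by
    intro c
    have h1 := B.f12 c
    omega
  have z12 : x12 = 0 := by omega
  have z12' : y12 = 0 := by omega
  subst z12 z12'
  clear k12 k12'
  have k7 : ¬ (0 < x7) := by
    intro c
    have h1 := A.f7 c
    have h2 := B.f7 (by omega)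
    have m3' := B.d3
    have m5' := B.d5
    have m7' := B.d7
    have m6' := B.d6
    have m9' := B.d9
    have h5 : 0 < y5 := by omega
    obtain ⟨e, d, h4⟩ := B.f5 h5
    clear m3' m5' m7' m6' m9'
    have m5 := A.d5
    omega
  have k7' : ¬ (0 < y7) := by
    intro c
    have h1 := B.f7 c
    omega
  have z7 : x7 = 0 := by omega
  have z7' : y7 = 0 := by omega
  subst z7 z7'
  clear k7 k7'
  by_cases c5 : 0 < x5
  · obtain ⟨e, d, h4⟩ := A.f5 c5
    obtain ⟨e', d', h4'⟩ := B.f5 (by omega)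
    have m3 := A.d3
    have m5 := A.d5
    have m3' := B.d3
    have m6 := A.d6
    have m6' := B.d6
    have m9 := A.d9
    have m5' := B.d5
    have m9' := B.d9
    have e1 : x5 = 25 ∨ x5 = 30 := by clear m3' m5' m6' m9' h4; omega
    have e2 : y5 = 25 ∨ y5 = 30 := by clear m3 m5 m6 m9 h4'; omega
    have e1 : x5 = 30 ∧ x3 = 3 := by clear m3' m5' m6' m9' h4 e2; rcases e1 with e1 | e1 <;> omega
    have e2 : y5 = 30 ∧ y3 = 3 := by clear m3 m5 m6 m9 h4' e1; rcases e2 with e2 | e2 <;> omega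
    exact Or.inr (Or.inr (Or.inr (Or.inr (Or.inl ⟨e1.1, e1.2, e2.1, e2.2⟩))))
  by_cases c5' : 0 < y5
  · obtain ⟨e, d, h4⟩ := B.f5 c5'
    omega
  have z5 : x5 = 0 := by omega
  have z5' : y5 = 0 := by omega
  subst z5 z5'
  clear c5 c5'
  by_cases c6 : 0 < x6
  · obtain ⟨h1, e, d, f, h4⟩ := A.f6 c6
    obtain ⟨h1', e', d', f', h4'⟩ := B.f6 (by omega)
    have m3 := A.d3
    have m6 := A.d6
    have m9 := A.d9
    have m3' := B.d3
    have m6' := B.d6
    have m9' := B.d9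
    have e0 : 24 ≤ y6 := by omega
    have e0' : 24 ≤ x6 := by omega
    have e1 : x3 + x6 = 33 := by omega
    have e2 : y3 + y6 = 33 := by omega
    exact Or.inr (Or.inr (Or.inr (Or.inr (Or.inr (Or.inr ⟨e1, e0', h1', e2, e0, h1⟩)))))
  by_cases c6' : 0 < y6
  · obtain ⟨h1, e, d, f, h4⟩ := B.f6 c6'
    omega
  by_cases c9 : 0 < x9
  · have h1 := A.f9 c9
    have h2 := B.f9 (by omega)
    have m9 := A.d9
    have m9' := B.d9
    have e1 : x9 = 27 ∧ x3 = 6 := by omega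
    have e2 : y9 = 27 ∧ y3 = 6 := by omega
    exact Or.inr (Or.inr (Or.inr (Or.inr (Or.inr (Or.inl ⟨e1.1, e1.2, e2.1, e2.2⟩)))))
  by_cases c9' : 0 < y9
  · have h1 := B.f9 c9'
    omega
  right; right; right; left
  omega

namespace OC

theorem no5 (h : OC I P Q) (h1 : Yc P 5 = 30) (h2 : Yc P 3 = 3) (h3 : Yc Q 3 = 3) : False := by
  obtain ⟨b, hb⟩ := Yc_ex (Q := Q) (l := 3) (by omega)
  have hs := h.dual.Yc_sum
  have hc := h.dual.Cl_sum b
  have hr := h.dual.row3 b hb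
  have hle : ∀ l, Cl (fun b a => I a b) P b l ≤ Yc P l := fun l => Cl_le_Yc (I := fun b a => I a b) b l
  have l6 := hle 6
  have l9 := hle 9
  have l12 := hle 12
  have l15 := hle 15
  have l18 := hle 18
  have l33 := hle 33
  omega

theorem no9 (h : OC I P Q) (h1 : Yc P 9 = 27) (h2 : Yc P 3 = 6) (h3 : Yc Q 3 = 6) : False := by
  have hf := flags (I := I) (P := P) (Q := Q) 9 3
  have hle : ∀ b l, Cl (fun b a => I a b) P b l ≤ Yc P l := fun b l => Cl_le_Yc (I := fun b a => I a b) b l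
  have e1 : ∑ b ∈ fs (fun b => per Q b = 3), Cl (fun b a => I a b) P b 9
      = ∑ b ∈ fs (fun b => per Q b = 3), 6 := by
    apply sum_congr rfl
    intro b hb
    rw [mem_fs] at hb
    have hs := h.dual.Yc_sum
    have hc := h.dual.Cl_sum b
    have hr := h.dual.row3 b hb
    have l6 := hle b 6
    have l12 := hle b 12
    have l15 := hle b 15
    have l18 := hle b 18
    have l33 := hle b 33
    omega
  have e2 : ∑ a ∈ fs (fun a => per P a = 9), Cl I Q a 3 ≤ ∑ a ∈ fs (fun a => per P a = 9), 1 := by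
    apply sum_le_sum
    intro a ha
    rw [mem_fs] at ha
    apply h.Cl_small_le
    rw [ha]; norm_num
  rw [hf] at e1
  rw [e1, sum_const, sum_const] at e2
  have e3 : (fs (fun b => per Q b = 3)).card = 6 := h3
  have e4 : (fs (fun a => per P a = 9)).card = 27 := h1
  rw [e3, e4] at e2
  simp at e2

theorem no6 (h : OC I P Q) (h1 : Yc P 3 + Yc P 6 = 33) (h2 : 24 ≤ Yc P 6) (h3 : 0 < Yc P 3)
    (h4 : Yc Q 3 + Yc Q 6 = 33) (h5 : 24 ≤ Yc Q 6) (h6 : 0 < Yc Q 3) : False := by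
  have hf := flags (I := I) (P := P) (Q := Q) 6 3
  have hle : ∀ b l, Cl (fun b a => I a b) P b l ≤ Yc P l := fun b l => Cl_le_Yc (I := fun b a => I a b) b l
  have d6 := dvd_Yc (Q := P) 6
  have d6' := dvd_Yc (Q := Q) 6
  have e1 : ∑ b ∈ fs (fun b => per Q b = 3), 4
      ≤ ∑ b ∈ fs (fun b => per Q b = 3), Cl (fun b a => I a b) P b 6 := by
    apply sum_le_sum
    intro b hb
    rw [mem_fs] at hb
    have hs := h.dual.Yc_sum
    have hc := h.dual.Cl_sum b
    have hr := h.dual.row3 b hb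
    have l9 := hle b 9
    have l12 := hle b 12
    have l15 := hle b 15
    have l18 := hle b 18
    have l33 := hle b 33
    omega
  have e1' : ∑ b ∈ fs (fun b => per Q b = 3), Cl (fun b a => I a b) P b 6
      ≤ ∑ b ∈ fs (fun b => per Q b = 3), 6 := by
    apply sum_le_sum
    intro b hb
    have hc := h.dual.Cl_sum b
    omega
  have e2 : ∑ a ∈ fs (fun a => per P a = 6), Cl I Q a 3 = ∑ a ∈ fs (fun a => per P a = 6), 1 := by
    apply sum_congr rfl
    intro a ha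
    rw [mem_fs] at ha
    have g1 := h.Cl_small_le a 3 (by rw [ha]; norm_num)
    obtain ⟨⟨b, hb1, hb2⟩, _⟩ := h.row6 a ha
    have g2 := Cl_pos hb1 hb2
    omega
  rw [hf, e2] at e1 e1'
  rw [sum_const, sum_const] at e1 e1'
  have e3 : (fs (fun b => per Q b = 3)).card = Yc Q 3 := rfl
  have e4 : (fs (fun a => per P a = 6)).card = Yc P 6 := rfl
  rw [e3, e4] at e1 e1'
  simp only [smul_eq_mul] at e1 e1'
  omega

theorem classify (h : OC I P Q) :
    (Yc P 33 = 33 ∧ Yc Q 33 = 33) ∨ (Yc P 11 = 33 ∧ Yc Q 11 = 33) ∨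
    (Yc P 15 = 30 ∧ Yc P 3 = 3 ∧ Yc Q 15 = 30 ∧ Yc Q 3 = 3) ∨
    (Yc P 3 = 33 ∧ Yc Q 3 = 33) := by
  rcases arith h.af h.dual.af with h1 | h1 | h1 | h1 | h1 | h1 | h1
  · exact Or.inl h1
  · exact Or.inr (Or.inl h1)
  · exact Or.inr (Or.inr (Or.inl h1))
  · exact Or.inr (Or.inr (Or.inr h1))
  · exact (h.no5 h1.1 h1.2.1 h1.2.2.2).elim
  · exact (h.no9 h1.1 h1.2.1 h1.2.2.2).elim
  · exact (h.no6 h1.1 h1.2.1 h1.2.2.1 h1.2.2.2.1 h1.2.2.2.2.1 h1.2.2.2.2.2).elim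

end OC

end Pool.Agent.Helper15.C33
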