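import Mathlib
import Pool.Agent.Helper15.C33E

set_option autoImplicit false
set_option linter.unusedSectionVars false
set_option linter.unusedVariables false

/-!
# Part F: odd cycles; the cases of periods 33 and 15
-/

namespace Pool.Agent.Helper15.C33

open Finset
open scoped Classical

variable {α β : Type} [Fintype α] [Fintype β] {I : α → β → Prop} {P : Equiv.Perm α} {Q : Equiv.Perm β}

/-- anti-diagonal relation between two odd cycles -/
def AD (I : α → β → Prop) (P : Equiv.Perm α) (Q : Equiv.Perm β) (a : α) (b : β) : Prop :=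
  ∀ i j : ℤ, I (pw P i a) (pw Q j b) ↔ I (pw P (i + j) a) b

namespace OC

theorem ad_of_dg (h : OC I P Q) {a : α} {b : β} (hd : Dg I P Q.symm a b) (ho : Odd (per P a)) :
    AD I P Q a b := by
  set f : ℤ → ℤ → ℤ := fun i j => xx I (pw P i a) (pw Q (-j) b) with hf
  have hw : ∀ i j, f (i+1) j + f (i-1) j = f i (j+1) + f i (j-1) := by
    intro i j
    have := h.wave_pw a b i (-j)
    simp only [hf]
    rw [this, show -(j + 1) = -j - 1 by ring, show -(j - 1) = -j + 1 by ring]
    ring
  have hdiag : ∀ u, f u u = 1 := by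
    intro u
    have := hd u
    rw [pw_symm] at this
    exact xx_of this
  have hdal := dal f hw
  have h2 : ∀ u v, f (u+v) (u-v) = f v (-v) := by
    intro u v
    rw [hdal, hdiag, hdiag]; ring
  have heven : ∀ i j, Even (i + j) → f i j = f (i - j) 0 := by
    intro i j hev
    obtain ⟨u, hu⟩ := hev
    have hi : i = u + (i - u) := by ring
    have hj : j = u - (i - u) := by linarith
    have e1 : f i j = f (i - u) (-(i - u)) := by
      rw [← h2 u (i - u), ← hi, ← hj]
    have e2 : f (i - j) 0 = f (i - u) (-(i - u)) := by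
      rw [← h2 (i-u) (i - u)]
      congr 1
      · linarith
      · ring
    rw [e1, e2]
  have hper : ∀ i j, f (i + per P a) j = f i j := by
    intro i j
    simp only [hf]
    rw [pw_add, pw_per]
  have hall : ∀ i j, f i j = f (i - j) 0 := by
    intro i j
    rcases Int.even_or_odd (i + j) with he | hod
    · exact heven i j he
    · rw [← hper i j, ← hper (i - j) 0]
      rw [heven]
      · congr 1; ring
      · have : (i + (per P a : ℤ) + j) = (i + j) + per P a := by ring
        rw [this]
        apply hod.add_odd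
        exact_mod_cast ho
  intro i j
  have := hall i (-j)
  simp only [hf, neg_neg, sub_neg_eq_add, neg_zero, pw_zero] at this
  constructor
  · intro h1; exact xx_iff.mp (by rw [← this]; exact xx_of h1)
  · intro h1; exact xx_iff.mp (by rw [this]; exact xx_of h1)

theorem ad_or (h : OC I P Q) {a : α} {b : β} (hab : I a b) (ho : Odd (per P a)) :
    AD I P Q a b ∨ AD I P Q.symm a b := by
  rcases h.dg_or hab with h1 | h1
  · right
    apply h.flipQ.ad_of_dg _ ho
    rw [Equiv.symm_symm]; exact h1
  · left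
    exact h.ad_of_dg h1 ho

theorem diff_sum {a : α} {b : β} (had : AD I P Q a b) (k : ℤ) :
    ∑ b' ∈ cyc Q b, xx I a b' * xx I (pw P k a) b'
      = ∑ t ∈ range (per Q b), xx I (pw P (t : ℤ) a) b * xx I (pw P ((t : ℤ) + k) a) b := by
  rw [sum_cyc]
  apply sum_congr rfl
  intro t _
  have e : ∀ i j : ℤ, xx I (pw P i a) (pw Q j b) = xx I (pw P (i + j) a) b := by
    intro i j
    by_cases h1 : I (pw P i a) (pw Q j b)
    · rw [xx_of h1, xx_of ((had i j).mp h1)]
    · rw [xx_not h1, xx_not (fun h2 => h1 ((had i j).mpr h2))]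
  have e1 := e 0 t
  rw [pw_zero, zero_add] at e1
  rw [e1, e, add_comm k]

end OC

/-- splitting a range into residue classes mod 3 -/
theorem sum_range_three (g : ℤ → ℤ) (n : ℕ) :
    ∑ t ∈ range (3 * n), g t = ∑ s ∈ range n, g (3 * s) + ∑ s ∈ range n, g (3 * s + 1)
      + ∑ s ∈ range n, g (3 * s + 2) := by
  induction n with
  | zero => simp
  | succ n ih =>
    rw [show 3 * (n + 1) = 3 * n + 1 + 1 + 1 by ring, sum_range_succ, sum_range_succ, sum_range_succ, ih,
      sum_range_succ, sum_range_succ, sum_range_succ]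
    push_cast
    ring

theorem three_class (n : ℕ) (g : ℤ → ℤ) (hg : ∀ t, g (t + 3 * n) = g t) :
    ∑ k ∈ range n, ∑ t ∈ range (3 * n), g t * g ((t : ℤ) + 3 * k)
      = (∑ s ∈ range n, g (3 * s)) ^ 2 + (∑ s ∈ range n, g (3 * s + 1)) ^ 2
        + (∑ s ∈ range n, g (3 * s + 2)) ^ 2 := by
  set X : ℤ → ℤ := fun t => ∑ k ∈ range n, g (t + 3 * k) with hX
  have hX3 : ∀ t, X (t + 3) = X t := by
    intro t
    simp only [hX]
    have h1 := sum_range_succ (fun k : ℕ => g (t + 3 * k)) n
    have h2 := sum_range_succ' (fun k : ℕ => g (t + 3 * k)) n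
    rw [h1] at h2
    rw [hg] at h2
    simp only [Nat.cast_zero, mul_zero, add_zero, Nat.cast_add, Nat.cast_one] at h2
    have h3 : ∑ k ∈ range n, g (t + 3 + 3 * k) = ∑ k ∈ range n, g (t + 3 * (k + 1)) := by
      apply sum_congr rfl
      intro k _
      congr 1; ring
    rw [h3]
    linarith
  have hXs : ∀ (s : ℕ) (r : ℤ), X (3 * s + r) = X r := by
    intro s r
    induction s with
    | zero => simp
    | succ s ih =>
      rw [← ih, ← hX3 (3 * s + r)]
      congr 1
      push_cast; ring
  rw [sum_comm]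
  have e1 : ∀ t : ℕ, ∑ k ∈ range n, g t * g ((t : ℤ) + 3 * k) = (fun t : ℤ => g t * X t) t := by
    intro t
    simp only [hX]
    rw [mul_sum]
  rw [sum_congr rfl (fun t _ => e1 t), sum_range_three (fun t : ℤ => g t * X t)]
  have f0 : ∀ s : ℕ, (fun t : ℤ => g t * X t) (3 * s) = g (3 * s) * X 0 := by
    intro s
    have := hXs s 0
    rw [add_zero] at this
    simp only [this]
  have f1 : ∀ s : ℕ, (fun t : ℤ => g t * X t) (3 * s + 1) = g (3 * s + 1) * X 1 := by
    intro s; simp only [hXs s 1]
  have f2 : ∀ s : ℕ, (fun t : ℤ => g t * X t) (3 * s + 2) = g (3 * s + 2) * X 2 := by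
    intro s; simp only [hXs s 2]
  rw [sum_congr rfl (fun s _ => f0 s), sum_congr rfl (fun s _ => f1 s), sum_congr rfl (fun s _ => f2 s),
    ← sum_mul, ← sum_mul, ← sum_mul]
  have x0 : X 0 = ∑ s ∈ range n, g (3 * s) := by
    simp only [hX, zero_add]
  have x1 : X 1 = ∑ s ∈ range n, g (3 * s + 1) := by
    simp only [hX]; apply sum_congr rfl; intro s _; congr 1; ring
  have x2 : X 2 = ∑ s ∈ range n, g (3 * s + 2) := by
    simp only [hX]; apply sum_congr rfl; intro s _; congr 1; ring
  rw [x0, x1, x2]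
  ring

namespace OC

theorem all_per (n : ℕ) (hcard : Fintype.card α = n) {l : ℕ} (hY : Yc P l = n) (a : α) : per P a = l := by
  unfold Yc at hY
  have : fs (fun a => per P a = l) = univ := by
    apply eq_univ_of_card
    rw [hY, hcard]
  have h1 : a ∈ fs (fun a => per P a = l) := by rw [this]; exact mem_univ _
  rw [mem_fs] at h1
  exact h1

theorem exists_line (h : OC I P Q) (a : α) : ∃ b, I a b := by
  have := h.conf.ra a
  have hne : (univ.filter (fun b => I a b)).Nonempty := by
    rw [← card_pos, this]; norm_num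
  obtain ⟨b, hb⟩ := hne
  rw [mem_filter] at hb
  exact ⟨b, hb.2⟩

/-- number of lines through `a` and `P^k a` -/
theorem prod_pw (h : OC I P Q) (a : α) (k : ℤ) (h0 : ¬ (per P a : ℤ) ∣ k) (h1 : ¬ (per P a : ℤ) ∣ k - 1)
    (h2 : ¬ (per P a : ℤ) ∣ k + 1) : ∑ b, xx I a b * xx I (pw P k a) b = 1 := by
  rw [h.conf.prod]
  have e0 : a ≠ pw P k a := fun e => h0 ((pw_eq_self_iff P k a).mp e.symm)
  have e1 : ad I a (pw P k a) = 0 := by
    rw [h.ad_eq]
    have f1 : P a ≠ pw P k a := by
      intro e
      rw [← pw_one P a] at e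
      have := (pw_eq_iff P k 1 a).mp e.symm
      exact h1 this
    have f2 : P.symm a ≠ pw P k a := by
      intro e
      rw [← pw_neg_one P a] at e
      have := (pw_eq_iff P k (-1) a).mp e.symm
      rw [sub_neg_eq_add] at this
      exact h2 this
    rw [if_neg f1, if_neg f2]; norm_num
  rw [if_neg e0, e1]; norm_num

theorem prod_self (h : OC I P Q) (a : α) : ∑ b, xx I a b * xx I a b = 6 := by
  have : ∀ b, xx I a b * xx I a b = xx I a b := by
    intro b
    rcases xx_cases (I := I) a b with h | h <;> rw [h] <;> norm_num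
  simp_rw [this]
  exact h.conf.sum_row a

theorem no33_aux (h : OC I P Q) (h1 : ∀ a, per P a = 33) (h2 : ∀ b, per Q b = 33) {a : α} {b : β}
    (had : AD I P Q a b) : False := by
  have hcP : cyc P a = univ := by
    apply eq_univ_of_card
    rw [card_cyc, h1, h.conf.ca]
  have hcQ : cyc Q b = univ := by
    apply eq_univ_of_card
    rw [card_cyc, h2, h.conf.cb]
  set g : ℤ → ℤ := fun t => xx I (pw P t a) b with hg
  have hgp : ∀ t, g (t + 3 * (11 : ℕ)) = g t := by
    intro t
    simp only [hg]
    congr 1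
    rw [pw_eq_iff, h1]
    exact ⟨1, by push_cast; ring⟩
  have hk : ∀ k ∈ range 11, ∑ t ∈ range (3 * 11), g t * g ((t : ℤ) + 3 * k)
      = if k = 0 then 6 else 1 := by
    intro k hk
    rw [mem_range] at hk
    have e := diff_sum had (3 * k)
    rw [h2 b, hcQ] at e
    have e' : ∑ t ∈ range (3 * 11), g t * g ((t : ℤ) + 3 * k) = ∑ b', xx I a b' * xx I (pw P (3 * (k:ℤ)) a) b' := e.symm
    rw [e']
    by_cases hk0 : k = 0
    · subst hk0
      rw [if_pos rfl]
      simp only [Nat.cast_zero, mul_zero, pw_zero]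
      exact h.prod_self a
    · rw [if_neg hk0]
      apply h.prod_pw
      · rw [h1]; omega
      · rw [h1]; omega
      · rw [h1]; omega
  have hthree := three_class 11 g hgp
  rw [sum_congr rfl hk] at hthree
  have hsum := sum_range_three g 11
  have hcol : ∑ t ∈ range (3 * 11), g t = 6 := by
    rw [← h.conf.sum_col b, ← hcP, sum_cyc, h1]
  rw [hcol] at hsum
  set X0 := ∑ s ∈ range 11, g (3 * s)
  set X1 := ∑ s ∈ range 11, g (3 * s + 1)
  set X2 := ∑ s ∈ range 11, g (3 * s + 2)
  have p0 : 0 ≤ X0 := sum_nonneg (fun s _ => xx_nonneg _ _)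
  have p1 : 0 ≤ X1 := sum_nonneg (fun s _ => xx_nonneg _ _)
  have p2 : 0 ≤ X2 := sum_nonneg (fun s _ => xx_nonneg _ _)
  have hs : ∑ k ∈ range 11, (if k = 0 then (6:ℤ) else 1) = 16 := by decide
  rw [hs] at hthree
  clear_value X0 X1 X2
  have q0 : X0 ≤ 6 := by omega
  have q1 : X1 ≤ 6 := by omega
  have hX2 : X2 = 6 - X0 - X1 := by omega
  subst hX2
  interval_cases X0 <;> interval_cases X1 <;> omega

theorem no33 (h : OC I P Q) (h1 : Yc P 33 = 33) (h2 : Yc Q 33 = 33) : False := by
  have h1' := all_per 33 h.conf.ca h1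
  have h2' := all_per 33 h.conf.cb h2
  have hne : Nonempty α := by
    rw [← Fintype.card_pos_iff, h.conf.ca]; norm_num
  obtain ⟨a⟩ := hne
  obtain ⟨b, hab⟩ := h.exists_line a
  rcases h.ad_or hab (by rw [h1']; decide) with had | had
  · exact h.no33_aux h1' h2' had
  · exact h.flipQ.no33_aux h1' (fun b => by rw [per_symm]; exact h2' b) had

end OC

end Pool.Agent.Helper15.C33
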