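import Mathlib
import Pool.Agent.Helper15.C33F

set_option autoImplicit false
set_option linter.unusedSectionVars false
set_option linter.unusedVariables false

/-!
# Part G: the case of periods 15, 15, 3
-/

namespace Pool.Agent.Helper15.C33

open Finset
open scoped Classical

variable {α β : Type} [Fintype α] [Fintype β] {I : α → β → Prop} {P : Equiv.Perm α} {Q : Equiv.Perm β}

theorem cyc_symm (b : β) : cyc Q.symm b = cyc Q b := by
  ext z; rw [mem_cyc, mem_cyc, sc_symm]

namespace OC

theorem aux15 {a : α} {b : β} (had : AD I P Q a b) (hpa : per P a = 15)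
    (hpb : per Q b = 15) (hec : ec I P a b = 3)
    (hk : ∀ k ∈ range 5, ∑ b' ∈ cyc Q b, xx I a b' * xx I (pw P (3 * (k:ℤ)) a) b' = if k = 0 then 3 else 1) :
    False := by
  set g : ℤ → ℤ := fun t => xx I (pw P t a) b with hg
  have hgp : ∀ t, g (t + 3 * (5 : ℕ)) = g t := by
    intro t
    simp only [hg]
    congr 1
    rw [pw_eq_iff, hpa]
    exact ⟨1, by push_cast; ring⟩
  have hk' : ∀ k ∈ range 5, ∑ t ∈ range (3 * 5), g t * g ((t : ℤ) + 3 * k)
      = if k = 0 then 3 else 1 := by
    intro k hk1
    rw [← hk k hk1, diff_sum had (3 * k), hpb]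
  have hthree := three_class 5 g hgp
  rw [sum_congr rfl hk'] at hthree
  have hsum := sum_range_three g 5
  have hcol : ∑ t ∈ range (3 * 5), g t = 3 := by
    have := ec_int (I := I) (P := P) a b
    rw [sum_cyc, hpa, hec] at this
    exact this.symm
  rw [hcol] at hsum
  set X0 := ∑ s ∈ range 5, g (3 * s)
  set X1 := ∑ s ∈ range 5, g (3 * s + 1)
  set X2 := ∑ s ∈ range 5, g (3 * s + 2)
  have p0 : 0 ≤ X0 := sum_nonneg (fun s _ => xx_nonneg _ _)
  have p1 : 0 ≤ X1 := sum_nonneg (fun s _ => xx_nonneg _ _)
  have p2 : 0 ≤ X2 := sum_nonneg (fun s _ => xx_nonneg _ _)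
  have hs : ∑ k ∈ range 5, (if k = 0 then (3:ℤ) else 1) = 7 := by decide
  rw [hs] at hthree
  clear_value X0 X1 X2
  have q0 : X0 ≤ 3 := by omega
  have q1 : X1 ≤ 3 := by omega
  have hX2 : X2 = 3 - X0 - X1 := by omega
  subst hX2
  interval_cases X0 <;> interval_cases X1 <;> omega

/-- a line of period 15 with a point of period 3 contains no two points of a 15-cycle differing by `3k` -/
theorem claimA_aux (h : OC I P Q) {a z : α} {b : β} (had : AD I P Q a b) (hab : I a b) (hz : I z b)
    (hpa : per P a = 15) (hpb : per Q b = 15) (hpz : per P z = 3) (k : ℕ) (hk : I (pw P (3 * (k:ℤ)) a) b) :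
    (15 : ℤ) ∣ 3 * k := by
  have hz3 : ∀ j : ℕ, I z (pw Q (3 * (j:ℤ)) b) := by
    intro j
    induction j with
    | zero => simpa [pw_zero] using hz
    | succ j ih =>
      have := h.on_per' ih
      rw [hpz, ← pw_add] at this
      rw [show (3 * ((j+1 : ℕ) : ℤ)) = ((3 : ℕ) : ℤ) + 3 * j by push_cast; ring]
      exact this
  have h1 : I a (pw Q (3 * (k:ℤ)) b) := by
    have := (had 0 (3 * k)).mpr (by rw [zero_add]; exact hk)
    rwa [pw_zero] at this
  have hne : a ≠ z := by
    intro e; rw [e, hpz] at hpa; omega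
  have h2 := h.conf.lin a z b _ hne hab hz h1 (hz3 k)
  have h3 := (pw_eq_self_iff Q _ b).mp h2.symm
  rw [hpb] at h3
  exact h3

theorem claimA (h : OC I P Q) {a z : α} {b : β} (hab : I a b) (hz : I z b)
    (hpa : per P a = 15) (hpb : per Q b = 15) (hpz : per P z = 3) (k : ℕ) (hk : I (pw P (3 * (k:ℤ)) a) b) :
    (15 : ℤ) ∣ 3 * k := by
  rcases h.ad_or hab (by rw [hpa]; decide) with had | had
  · exact h.claimA_aux had hab hz hpa hpb hpz k hk
  · exact h.flipQ.claimA_aux had hab hz hpa (by rw [per_symm]; exact hpb) hpz k hk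

theorem ex_of_prod {a a' : α} (h : ∑ b, xx I a b * xx I a' b = 1) : ∃ b, I a b ∧ I a' b := by
  by_contra hcon
  push Not at hcon
  have : ∑ b, xx I a b * xx I a' b = 0 := by
    apply sum_eq_zero
    intro b _
    by_cases h1 : I a b
    · rw [xx_not (hcon b h1)]; ring
    · rw [xx_not h1]; ring
  omega

/-- two points in different cycles are joined by exactly one line -/
theorem prod_diff (h : OC I P Q) {a a' : α} (hd : ¬ P.SameCycle a a') : ∑ b, xx I a b * xx I a' b = 1 := by
  rw [h.conf.prod]
  have e0 : a ≠ a' := fun e => hd (by rw [e])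
  have e1 : ad I a a' = 0 := by
    rw [h.ad_eq]
    have f1 : P a ≠ a' := by
      intro e
      exact hd (by rw [← e]; exact sc_apply P a)
    have f2 : P.symm a ≠ a' := by
      intro e
      exact hd (by rw [← e]; exact ⟨-1, by simp⟩)
    rw [if_neg f1, if_neg f2]; norm_num
  rw [if_neg e0, e1]; norm_num

theorem Cl_int (a : α) (l : ℕ) : (Cl I Q a l : ℤ) = ∑ b, xx I a b * (if per Q b = l then 1 else 0) := by
  unfold Cl
  rw [card_eq_sum_ones, sum_fs]
  push_cast
  apply sum_congr rfl
  intro b _
  unfold xx
  by_cases h1 : I a b <;> by_cases h2 : per Q b = l <;> simp [h1, h2]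

theorem no15 (h : OC I P Q) (h1 : Yc P 15 = 30) (h2 : Yc P 3 = 3) (h3 : Yc Q 15 = 30) (h4 : Yc Q 3 = 3) :
    False := by
  have sP := h.dual.Yc_sum
  have sQ := h.Yc_sum
  have hperP : ∀ a, per P a = 3 ∨ per P a = 15 := by
    intro a
    rcases h.per_mem a with e | e | e | e | e | e | e | e | e | e
    · exact Or.inl e
    · have := Yc_pos e; omega
    · have := Yc_pos e; omega
    · have := Yc_pos e; omega
    · have := Yc_pos e; omega
    · have := Yc_pos e; omega
    · have := Yc_pos e; omega
    · exact Or.inr e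
    · have := Yc_pos e; omega
    · have := Yc_pos e; omega
  have hleP : ∀ b l, Cl (fun b a => I a b) P b l ≤ Yc P l := fun b l => Cl_le_Yc (I := fun b a => I a b) b l
  -- a point of period 15 on no line of period 3
  have hf := flags (I := I) (P := P) (Q := Q) 15 3
  have e1 : ∑ b ∈ fs (fun b => per Q b = 3), Cl (fun b a => I a b) P b 15
      = ∑ b ∈ fs (fun b => per Q b = 3), 5 := by
    apply sum_congr rfl
    intro b hb
    rw [mem_fs] at hb
    have hc := h.dual.Cl_sum b
    have hr := h.dual.row3 b hb
    have l6 := hleP b 6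
    have l9 := hleP b 9
    have l12 := hleP b 12
    have l18 := hleP b 18
    have l33 := hleP b 33
    omega
  have hex : ∃ a, per P a = 15 ∧ Cl I Q a 3 = 0 := by
    by_contra hcon
    push Not at hcon
    have e2 : ∑ a ∈ fs (fun a => per P a = 15), 1 ≤ ∑ a ∈ fs (fun a => per P a = 15), Cl I Q a 3 := by
      apply sum_le_sum
      intro a ha
      rw [mem_fs] at ha
      have := hcon a ha
      omega
    rw [← hf, e1, sum_const, sum_const] at e2
    have e3 : (fs (fun b => per Q b = 3)).card = 3 := h4
    have e4 : (fs (fun a => per P a = 15)).card = 30 := h1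
    rw [e3, e4] at e2
    simp at e2
  obtain ⟨a, hpa, hCa⟩ := hex
  have hno3 : ∀ b, I a b → per Q b ≠ 3 := by
    intro b hab hb
    have := Cl_pos hab hb
    omega
  have hE : E I P Q a 3 = 6 := by
    rcases (h.row15 a hpa).2.2 with ⟨b, hab, hb⟩ | hE
    · exact absurd hb (hno3 b hab)
    · exact hE
  -- all lines through a have period 15 and e = 3
  have hall : ∀ b, I a b → per Q b = 15 ∧ ec I P a b = 3 := by
    have hsub : fs (fun b => (I a b ∧ per Q b = per P a) ∧ ec I P a b = 3) = fs (fun b => I a b) := by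
      apply eq_of_subset_of_card_le
      · intro b hb
        rw [mem_fs] at hb ⊢
        exact hb.1.1
      · have c1 : (fs (fun b => I a b)).card = 6 := h.conf.ra a
        have c2 : (fs (fun b => (I a b ∧ per Q b = per P a) ∧ ec I P a b = 3)).card = 6 := hE
        rw [c1, c2]
    intro b hab
    have : b ∈ fs (fun b => (I a b ∧ per Q b = per P a) ∧ ec I P a b = 3) := by
      rw [hsub, mem_fs]; exact hab
    rw [mem_fs] at this
    rw [hpa] at this
    exact ⟨this.1.2, this.2⟩
  set p : β → Prop := fun b => ∃ z, per P z = 3 ∧ I z b with hp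
  -- number of lines through a with a point of period 3
  have hcount : ∑ b, xx I a b * (Cl (fun b a => I a b) P b 3 : ℤ) = 3 := by
    simp_rw [Cl_int (I := fun b a => I a b) (Q := P), mul_sum]
    rw [sum_comm]
    have e2 : ∀ z, ∑ b, xx I a b * (xx (fun b a => I a b) b z * (if per P z = 3 then 1 else 0))
        = if per P z = 3 then 1 else 0 := by
      intro z
      by_cases hz : per P z = 3
      · simp only [hz, if_true, mul_one]
        have hd : ¬ P.SameCycle a z := by
          intro hs
          have := per_sc P hs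
          omega
        exact h.prod_diff hd
      · simp only [hz, if_false, mul_zero, sum_const_zero]
    simp_rw [e2]
    have e3 : ((fs (fun z => per P z = 3)).card : ℤ) = 3 := by
      have : (fs (fun z => per P z = 3)).card = 3 := h2
      rw [this]; norm_num
    rw [card_eq_sum_ones, sum_fs] at e3
    push_cast at e3
    rw [← e3]
  have hClp : ∀ b, I a b → (Cl (fun b a => I a b) P b 3 : ℤ) = if p b then 1 else 0 := by
    intro b hab
    have hle : Cl (fun b a => I a b) P b 3 ≤ 1 := by
      apply h.dual.Cl_small_le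
      rw [(hall b hab).1]; norm_num
    by_cases hpb : p b
    · obtain ⟨z, hz1, hz2⟩ := hpb
      have := Cl_pos (I := fun b a => I a b) (Q := P) (a := b) (b := z) hz2 hz1
      rw [if_pos ⟨z, hz1, hz2⟩]
      omega
    · rw [if_neg hpb]
      by_contra hne
      have hpos : 0 < Cl (fun b a => I a b) P b 3 := by omega
      unfold Cl at hpos
      rw [card_pos] at hpos
      obtain ⟨z, hz⟩ := hpos
      rw [mem_fs] at hz
      exact hpb ⟨z, hz.2, hz.1⟩
  set S := fs (fun b => I a b ∧ ¬ p b) with hS
  have hScard : S.card = 3 := by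
    have c1 : (fs (fun b => I a b ∧ p b)).card = 3 := by
      have : ((fs (fun b => I a b ∧ p b)).card : ℤ) = 3 := by
        rw [← hcount, card_eq_sum_ones, sum_fs]
        push_cast
        apply sum_congr rfl
        intro b _
        by_cases hab : I a b
        · rw [hClp b hab, xx_of hab]
          by_cases hpb : p b <;> simp [hab, hpb]
        · rw [xx_not hab]; simp [hab]
      exact_mod_cast this
    have c2 : (fs (fun b => I a b)).card = 6 := h.conf.ra a
    have c3 : (fs (fun b => I a b ∧ p b)).card + S.card = (fs (fun b => I a b)).card := by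
      rw [← card_union_of_disjoint]
      · congr 1
        ext b
        rw [mem_union, hS, mem_fs, mem_fs, mem_fs]
        by_cases hpb : p b <;> simp [hpb]
      · rw [disjoint_left]
        intro b hb hb'
        rw [mem_fs] at hb
        rw [hS, mem_fs] at hb'
        exact hb'.2 hb.2
    omega
  -- joining lines for differences 3k
  have hprod : ∀ k : ℕ, 1 ≤ k → k ≤ 4 → ∑ b, xx I a b * xx I (pw P (3 * (k:ℤ)) a) b = 1 := by
    intro k hk1 hk4
    apply h.prod_pw
    · rw [hpa]; omega
    · rw [hpa]; omega
    · rw [hpa]; omega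
  have hnp : ∀ k : ℕ, 1 ≤ k → k ≤ 4 → ∀ b, I a b → I (pw P (3 * (k:ℤ)) a) b → ¬ p b := by
    rintro k hk1 hk4 b hab hkb ⟨z, hz1, hz2⟩
    have := h.claimA hab hz2 hpa (hall b hab).1 hz1 k hkb
    omega
  obtain ⟨b1, hab1, hb1⟩ := ex_of_prod (hprod 1 (by norm_num) (by norm_num))
  have hnp1 : ¬ p b1 := hnp 1 (by norm_num) (by norm_num) b1 hab1 hb1
  have hSeq : (cyc Q b1).filter (fun b => I a b) = S := by
    apply eq_of_subset_of_card_le
    · intro b hb
      rw [mem_filter, mem_cyc] at hb
      rw [hS, mem_fs]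
      refine ⟨hb.2, ?_⟩
      rintro ⟨z, hz1, hz2⟩
      have hpos := ec_pos (P := P) hz2
      rw [← h.ec_inv z hb.1] at hpos
      unfold ec at hpos
      rw [card_pos] at hpos
      obtain ⟨z', hz'⟩ := hpos
      rw [mem_filter, mem_cyc] at hz'
      apply hnp1
      exact ⟨z', by rw [← per_sc P hz'.1]; exact hz1, hz'.2⟩
    · rw [hScard]
      have : ((cyc Q b1).filter (fun b => I a b)).card = ec (fun b a => I a b) Q b1 a := rfl
      rw [this]
      rcases h.tri hab1 with h5 | h5 | h5
      · rw [h5.2, (hall b1 hab1).2]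
      · have := (hall b1 hab1).1; omega
      · have := (hall b1 hab1).1; omega
  have hkey : ∀ k ∈ range 5, ∑ b' ∈ cyc Q b1, xx I a b' * xx I (pw P (3 * (k:ℤ)) a) b'
      = if k = 0 then 3 else 1 := by
    intro k hk
    rw [mem_range] at hk
    by_cases hk0 : k = 0
    · subst hk0
      rw [if_pos rfl]
      simp only [Nat.cast_zero, mul_zero, pw_zero]
      have e2 : ∀ b' ∈ cyc Q b1, xx I a b' * xx I a b' = xx I a b' := by
        intro b' _
        rcases xx_cases (I := I) a b' with h | h <;> rw [h] <;> norm_num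
      rw [sum_congr rfl e2]
      have e3 := ec_int (I := fun b a => I a b) (P := Q) b1 a
      have e4 : ec (fun b a => I a b) Q b1 a = 3 := by
        rw [← hScard, ← hSeq]; rfl
      rw [e4] at e3
      exact e3.symm
    · rw [if_neg hk0, ← hprod k (by omega) (by omega)]
      apply sum_subset (subset_univ _)
      intro b' _ hb'
      by_cases f1 : I a b'
      · by_cases f2 : I (pw P (3 * (k:ℤ)) a) b'
        · exfalso
          apply hb'
          have : b' ∈ S := by
            rw [hS, mem_fs]
            exact ⟨f1, hnp k (by omega) (by omega) b' f1 f2⟩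
          rw [← hSeq, mem_filter] at this
          exact this.1
        · rw [xx_not f2]; ring
      · rw [xx_not f1]; ring
  rcases h.ad_or hab1 (by rw [hpa]; decide) with had | had
  · exact aux15 had hpa (hall b1 hab1).1 (hall b1 hab1).2 hkey
  · refine aux15 had hpa ?_ (hall b1 hab1).2 ?_
    · rw [per_symm]; exact (hall b1 hab1).1
    · rw [cyc_symm]; exact hkey

end OC

end Pool.Agent.Helper15.C33
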