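import Mathlib

set_option autoImplicit false

/-!
# There is no Mendelsohn triple system of order 6
-/

namespace Pool.Agent.Helper15.C33

/-- the pair `(x,y)` is covered by a cyclic triple of the list -/
def cov (C : List (Fin 6 × Fin 6 × Fin 6)) (x y : Fin 6) : Bool :=
  C.any fun t => (t.1 == x && t.2.1 == y) || (t.2.1 == x && t.2.2 == y) || (t.2.2 == x && t.1 == y)

/-- refutation search for Mendelsohn triple systems -/
def srch : List (Fin 6 × Fin 6) → List (Fin 6 × Fin 6 × Fin 6) → Bool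
  | [], _ => false
  | (q :: l), C =>
    if cov C q.1 q.2 then srch l C
    else [0,1,2,3,4,5].all fun k => (k == q.1) || (k == q.2) || cov C q.2 k || cov C k q.1 || srch l ((q.1, q.2, k) :: C)

/-- all ordered pairs -/
def allPairs : List (Fin 6 × Fin 6) :=
  [(0,1),(0,2),(0,3),(0,4),(0,5),(1,0),(1,2),(1,3),(1,4),(1,5),(2,0),(2,1),(2,3),(2,4),(2,5),
   (3,0),(3,1),(3,2),(3,4),(3,5),(4,0),(4,1),(4,2),(4,3),(4,5),(5,0),(5,1),(5,2),(5,3),(5,4)]

theorem srch_true : srch allPairs [] = true := by decide +kernel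

theorem srch_sound (f : Fin 6 → Fin 6 → Fin 6) (hf : ∀ i j, i ≠ j → f i j ≠ i ∧ f i j ≠ j ∧ f j (f i j) = i) :
    ∀ (l : List (Fin 6 × Fin 6)) (C : List (Fin 6 × Fin 6 × Fin 6)), (∀ q ∈ l, q.1 ≠ q.2) →
      (∀ t ∈ C, t.1 ≠ t.2.1 ∧ f t.1 t.2.1 = t.2.2) → srch l C = true → False := by
  intro l
  induction l with
  | nil => intro C _ _ h; simp [srch] at h
  | cons q l ih =>
    intro C hl hC h
    unfold srch at h
    have hq := hl q (by simp)
    split_ifs at h with hc
    · exact ih C (fun q' hq' => hl q' (by simp [hq'])) hC h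
    · obtain ⟨h1, h2, h3⟩ := hf q.1 q.2 hq
      have h4 := hf q.2 (f q.1 q.2) (fun e => h2 e.symm)
      rw [h3] at h4
      have hcyc : ∀ x y z, x ≠ y → f x y = z → f y z = x ∧ f z x = y := by
        intro x y z hxy hz
        obtain ⟨g1, g2, g3⟩ := hf x y hxy
        rw [hz] at g1 g2 g3
        obtain ⟨k1, k2, k3⟩ := hf y z (fun e => g2 e.symm)
        rw [g3] at k1 k2 k3
        exact ⟨g3, k3⟩
      -- a pair covered by C lies in a known triple
      have hcov : ∀ x y, cov C x y = true → cov C y (f x y) = true ∧ cov C (f x y) x = true := by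
        intro x y hxy
        unfold cov at hxy ⊢
        rw [List.any_eq_true] at hxy
        obtain ⟨t, ht, ht2⟩ := hxy
        obtain ⟨t1, t2⟩ := hC t ht
        obtain ⟨t3, t4⟩ := hcyc _ _ _ t1 t2
        simp only [Bool.or_eq_true, Bool.and_eq_true, beq_iff_eq] at ht2
        rw [List.any_eq_true, List.any_eq_true]
        rcases ht2 with (⟨e1, e2⟩ | ⟨e1, e2⟩) | ⟨e1, e2⟩
        · subst e1 e2
          refine ⟨⟨t, ht, ?_⟩, ⟨t, ht, ?_⟩⟩ <;> simp [t2]
        · subst e1 e2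
          refine ⟨⟨t, ht, ?_⟩, ⟨t, ht, ?_⟩⟩ <;> simp [t3]
        · subst e1 e2
          refine ⟨⟨t, ht, ?_⟩, ⟨t, ht, ?_⟩⟩ <;> simp [t4]
      rw [List.all_eq_true] at h
      have hk := h (f q.1 q.2) (by
        generalize f q.1 q.2 = z
        fin_cases z <;> simp)
      simp only [Bool.or_eq_true, beq_iff_eq] at hk
      rcases hk with (((hk | hk) | hk) | hk) | hk
      · exact h1 hk
      · exact h2 hk
      · have := (hcov _ _ hk).2
        rw [h3] at this
        exact hc this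
      · have := (hcov _ _ hk).1
        rw [h4.2.2] at this
        exact hc this
      · refine ih _ (fun q' hq' => hl q' (by simp [hq'])) ?_ hk
        intro t ht
        rw [List.mem_cons] at ht
        rcases ht with ht | ht
        · subst ht; exact ⟨hq, rfl⟩
        · exact hC t ht

theorem no_mts6 (f : Fin 6 → Fin 6 → Fin 6)
    (hf : ∀ i j, i ≠ j → f i j ≠ i ∧ f i j ≠ j ∧ f j (f i j) = i) : False := by
  refine srch_sound f hf allPairs [] ?_ ?_ srch_true
  · intro q hq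
    simp only [allPairs, List.mem_cons, List.not_mem_nil, or_false] at hq
    rcases hq with h | h | h | h | h | h | h | h | h | h | h | h | h | h | h | h | h | h | h | h | h |
      h | h | h | h | h | h | h | h | h <;> (subst h; decide)
  · intro t ht; simp at ht

theorem dec_der1 : ∀ s s' s'' : Fin 3, s ≠ 0 → s' ≠ 1 → s'' ≠ 2 → s ≠ s' → s ≠ s'' → s' ≠ s'' →
    (s = 1 ∧ s' = 2 ∧ s'' = 0) ∨ (s = 2 ∧ s' = 0 ∧ s'' = 1) := by decide

theorem dec_der (s s' s'' r r' r'' : Fin 3) (h1 : s ≠ 0) (h2 : s' ≠ 1) (h3 : s'' ≠ 2) (h4 : s ≠ s')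
    (h5 : s ≠ s'') (h6 : s' ≠ s'') (k1 : r ≠ 0) (k2 : r' ≠ 1) (k3 : r'' ≠ 2) (k4 : r ≠ r') (k5 : r ≠ r'')
    (k6 : r' ≠ r'') (hsr : s ≠ r) :
    (s = 2 ∧ s' = 0 ∧ s'' = 1) ∨ (r = 2 ∧ r' = 0 ∧ r'' = 1) := by
  rcases dec_der1 s s' s'' h1 h2 h3 h4 h5 h6 with h | h
  · rcases dec_der1 r r' r'' k1 k2 k3 k4 k5 k6 with k | k
    · exact absurd (h.1.trans k.1.symm) hsr
    · exact Or.inr k
  · exact Or.inl h

end Pool.Agent.Helper15.C33
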