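import Mathlib
import Pool.Agent.Helper15.C33G
import Pool.Agent.Helper15.C33M

set_option autoImplicit false
set_option linter.unusedSectionVars false
set_option linter.unusedVariables false

/-!
# Part H: the case in which all periods are 3
-/

namespace Pool.Agent.Helper15.C33

open Finset
open scoped Classical

variable {α β : Type} [Fintype α] [Fintype β] {I : α → β → Prop} {P : Equiv.Perm α} {Q : Equiv.Perm β}

namespace OC

/-- in a cycle of length 3 distinct points are adjacent, hence not joined -/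
theorem eq_of_sc3 (h : OC I P Q) {a a' : α} {b : β} (hp : per P a = 3) (hs : P.SameCycle a a')
    (h1 : I a b) (h2 : I a' b) : a = a' := by
  by_contra hne
  obtain ⟨i, hi⟩ := hs
  have hi' : pw P i a = a' := hi
  have hA : Ad I a a' := by
    rw [h.adP]
    have h3 : (3:ℤ) ∣ i ∨ (3:ℤ) ∣ i - 1 ∨ (3:ℤ) ∣ i + 1 := by omega
    rcases h3 with h3 | h3 | h3
    · exfalso
      apply hne
      rw [← hi']
      symm
      rw [pw_eq_self_iff, hp]; exact h3
    · left
      rw [← hi', ← pw_one P a, pw_eq_iff, hp]; exact h3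
    · right
      rw [← hi', ← pw_neg_one P a, pw_eq_iff, hp, sub_neg_eq_add]; exact h3
  exact hA.2 b ⟨h1, h2⟩

/-- the cycle of a point of a line meets every line of the cycle -/
theorem meet_cyc (h : OC I P Q) {a : α} {b b' : β} (hab : I a b) (hs : Q.SameCycle b b') :
    ∃ a', P.SameCycle a a' ∧ I a' b' := by
  obtain ⟨j, hj⟩ := hs
  have hj' : pw Q j b = b' := hj
  rcases h.dg_or hab with h1 | h1
  · refine ⟨pw P j a, sc_pw P j a, ?_⟩
    rw [← hj']; exact h1 j
  · refine ⟨pw P (-j) a, sc_pw P (-j) a, ?_⟩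
    have := h1 (-j)
    rw [pw_symm, neg_neg, hj'] at this
    exact this

theorem joined (h : OC I P Q) {a a' : α} (hd : ¬ P.SameCycle a a') : ∃ b, I a b ∧ I a' b :=
  ex_of_prod (h.prod_diff hd)

theorem no3_aux (h : OC I P Q) (hP : ∀ a, per P a = 3) (hQ : ∀ b, per Q b = 3) : False := by
  have uP : ∀ {a a' : α} {b : β}, P.SameCycle a a' → I a b → I a' b → a = a' :=
    fun {a a' b} hs h1 h2 => h.eq_of_sc3 (hP a) hs h1 h2
  have uQ : ∀ {b b' : β} {a : α}, Q.SameCycle b b' → I a b → I a b' → b = b' :=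
    fun {b b' a} hs h1 h2 => h.dual.eq_of_sc3 (hQ b) hs h1 h2
  have hne : Nonempty β := by
    rw [← Fintype.card_pos_iff, h.conf.cb]; norm_num
  obtain ⟨b0⟩ := hne
  have hc0 : (fs (fun a => I a b0)).card = 6 := h.conf.rb b0
  let e0 := (fs (fun a => I a b0)).equivFinOfCardEq hc0
  let p : Fin 6 → α := fun i => (e0.symm i : α)
  have hp0 : ∀ i, I (p i) b0 := by
    intro i
    have := (e0.symm i).2
    rw [mem_fs] at this
    exact this
  have hpinj : ∀ i j, p i = p j → i = j := by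
    intro i j hij
    exact e0.symm.injective (Subtype.ext hij)
  have hpsurj : ∀ a, I a b0 → ∃ i, a = p i := by
    intro a ha
    refine ⟨e0 ⟨a, by rw [mem_fs]; exact ha⟩, ?_⟩
    simp [p]
  let L : Fin 3 → β := fun t => pw Q ((t : ℕ) : ℤ) b0
  have hL : ∀ t, Q.SameCycle b0 (L t) := fun t => sc_pw Q _ _
  have hLinj : ∀ s t, L s = L t → s = t := by
    intro s t hst
    have h1 := (pw_eq_iff Q _ _ b0).mp hst
    rw [hQ] at h1
    apply Fin.ext
    have := s.2
    have := t.2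
    push_cast at h1
    omega
  have hqex : ∀ i t, ∃ a', P.SameCycle (p i) a' ∧ I a' (L t) := fun i t => h.meet_cyc (hp0 i) (hL t)
  choose q hq1 hq2 using hqex
  have F2 : ∀ i s t, P.SameCycle (q i s) (q i t) := fun i s t => (hq1 i s).symm.trans (hq1 i t)
  have F3 : ∀ i j s t, P.SameCycle (q i s) (q j t) → i = j := by
    intro i j s t hs
    have h1 : P.SameCycle (p i) (p j) := ((hq1 i s).trans hs).trans (hq1 j t).symm
    exact hpinj i j (uP h1 (hp0 i) (hp0 j))
  have F4 : ∀ a t, I a (L t) → ∃ i, a = q i t := by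
    intro a t ha
    obtain ⟨a', h1, h2⟩ := h.meet_cyc ha (hL t).symm
    obtain ⟨i, hi⟩ := hpsurj a' h2
    refine ⟨i, ?_⟩
    have h3 : P.SameCycle a (q i t) := h1.trans (by rw [hi]; exact hq1 i t)
    exact uP h3 ha (hq2 i t)
  have F5 : ∀ i s t, I (q i s) (L t) → s = t := by
    intro i s t h1
    exact hLinj s t (uQ ((hL s).symm.trans (hL t)) (hq2 i s) h1)
  have F6 : ∀ b t, ¬ Q.SameCycle b0 b → ∃ i, I (q i t) b := by
    intro b t hb
    have h1 : ¬ Q.SameCycle b (L t) := fun hs => hb ((hL t).trans hs.symm)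
    obtain ⟨a, ha1, ha2⟩ := h.dual.joined h1
    obtain ⟨i, hi⟩ := F4 a t ha2
    exact ⟨i, by rw [← hi]; exact ha1⟩
  have F7 : ∀ b t i j, ¬ Q.SameCycle b0 b → I (q i t) b → I (q j t) b → i = j := by
    intro b t i j hb h1 h2
    by_contra hij
    have hne : q i t ≠ q j t := by
      intro e
      exact hij (F3 i j t t (by rw [e]))
    have := h.conf.lin _ _ b (L t) hne h1 h2 (hq2 i t) (hq2 j t)
    exact hb (by rw [this]; exact hL t)
  have F8 : ∀ b i s t, I (q i s) b → I (q i t) b → s = t := by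
    intro b i s t h1 h2
    have h3 := uP (F2 i s t) h1 h2
    exact F5 i s t (by rw [h3]; exact hq2 i t)
  have F9 : ∀ i a', P.SameCycle (p i) a' → ∃ t, a' = q i t := by
    intro i a' hs
    obtain ⟨b', hb1, hb2⟩ := h.dual.meet_cyc (hp0 i) hs
    -- `a'` lies on `b'`, in the cycle of `b0`
    obtain ⟨j, hj⟩ := hb1
    have hj' : pw Q j b0 = b' := hj
    have h3 : ∃ t : Fin 3, b' = L t := by
      have h4 : (3:ℤ) ∣ j ∨ (3:ℤ) ∣ j - 1 ∨ (3:ℤ) ∣ j - 2 := by omega
      rcases h4 with h4 | h4 | h4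
      · refine ⟨0, ?_⟩
        rw [← hj']
        apply (pw_eq_iff Q _ _ b0).mpr
        rw [hQ]; simpa using h4
      · refine ⟨1, ?_⟩
        rw [← hj']
        apply (pw_eq_iff Q _ _ b0).mpr
        rw [hQ]; simpa using h4
      · refine ⟨2, ?_⟩
        rw [← hj']
        apply (pw_eq_iff Q _ _ b0).mpr
        rw [hQ]; simpa using h4
    obtain ⟨t, ht⟩ := h3
    rw [ht] at hb2
    obtain ⟨k, hk⟩ := F4 a' t hb2
    have : i = k := by
      apply F3 i k t t
      rw [← hk]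
      exact (hq1 i t).symm.trans hs
    exact ⟨t, by rw [hk, this]⟩
  -- the lines b i j
  have hbex : ∀ i j : Fin 6, ∃ b, i ≠ j → I (q i 0) b ∧ I (q j 1) b := by
    intro i j
    by_cases hij : i = j
    · exact ⟨b0, fun h => absurd hij h⟩
    · obtain ⟨b, hb⟩ := h.joined (a := q i 0) (a' := q j 1) (fun hs => hij (F3 i j 0 1 hs))
      exact ⟨b, fun _ => hb⟩
  choose bl hbl using hbex
  have hoff : ∀ i j, i ≠ j → ¬ Q.SameCycle b0 (bl i j) := by
    intro i j hij hs
    obtain ⟨h1, h2⟩ := hbl i j hij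
    have h3 : L 0 = bl i j := uQ ((hL 0).symm.trans hs) (hq2 i 0) h1
    rw [← h3] at h2
    have := F5 j 1 0 h2
    exact absurd this (by decide)
  have hfex : ∀ i j : Fin 6, ∃ k, i ≠ j → I (q k 2) (bl i j) := by
    intro i j
    by_cases hij : i = j
    · exact ⟨i, fun h => absurd hij h⟩
    · obtain ⟨k, hk⟩ := F6 (bl i j) 2 (hoff i j hij)
      exact ⟨k, fun _ => hk⟩
  choose f hf using hfex
  apply no_mts6 f
  intro i j hij
  obtain ⟨h1, h2⟩ := hbl i j hij
  have h3 := hf i j hij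
  have ho := hoff i j hij
  have hfi : f i j ≠ i := by
    intro e
    rw [e] at h3
    exact absurd (F8 _ i 0 2 h1 h3) (by decide)
  have hfj : f i j ≠ j := by
    intro e
    rw [e] at h3
    exact absurd (F8 _ j 1 2 h2 h3) (by decide)
  refine ⟨hfi, hfj, ?_⟩
  set k := f i j with hk
  set b := bl i j with hb
  -- a general statement on the two other lines of the cycle of b
  have key : ∀ c, Q.SameCycle b c → c ≠ b → ∃ s s' s'' : Fin 3, I (q i s) c ∧ I (q j s') c ∧ I (q k s'') c ∧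
      s ≠ 0 ∧ s' ≠ 1 ∧ s'' ≠ 2 ∧ s ≠ s' ∧ s ≠ s'' ∧ s' ≠ s'' := by
    intro c hs hc
    have hoc : ¬ Q.SameCycle b0 c := fun hs' => ho (hs'.trans hs.symm)
    have g : ∀ m t, I (q m t) b → ∃ s, I (q m s) c ∧ s ≠ t := by
      intro m t hm
      obtain ⟨a', ha1, ha2⟩ := h.meet_cyc hm hs
      obtain ⟨s, hs'⟩ := F9 m a' ((hq1 m t).trans ha1)
      refine ⟨s, by rw [← hs']; exact ha2, ?_⟩
      rintro rfl
      rw [hs'] at ha2
      exact hc (uQ hs hm ha2).symm
    obtain ⟨s, g1, g2⟩ := g i 0 h1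
    obtain ⟨s', g1', g2'⟩ := g j 1 h2
    obtain ⟨s'', g1'', g2''⟩ := g k 2 h3
    refine ⟨s, s', s'', g1, g1', g1'', g2, g2', g2'', ?_, ?_, ?_⟩
    · rintro rfl; exact hij (F7 c s i j hoc g1 g1')
    · rintro rfl; exact hfi (F7 c s k i hoc g1'' g1)
    · rintro rfl; exact hfj (F7 c s' k j hoc g1'' g1')
  have hc1 : ∃ c, Q.SameCycle b c ∧ I (q i 2) c ∧ I (q j 0) c ∧ I (q k 1) c := by
    have n1 : pw Q 1 b ≠ b := by
      intro e
      have := (pw_eq_self_iff Q 1 b).mp e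
      rw [hQ] at this; omega
    have n2 : pw Q 2 b ≠ b := by
      intro e
      have := (pw_eq_self_iff Q 2 b).mp e
      rw [hQ] at this; omega
    have n12 : pw Q 1 b ≠ pw Q 2 b := by
      intro e
      have := (pw_eq_iff Q 1 2 b).mp e
      rw [hQ] at this; omega
    obtain ⟨s, s', s'', g1, g2, g3, g4, g5, g6, g7, g8, g9⟩ := key (pw Q 1 b) (sc_pw Q 1 b) n1
    obtain ⟨r, r', r'', k1, k2, k3, k4, k5, k6, k7, k8, k9⟩ := key (pw Q 2 b) (sc_pw Q 2 b) n2
    have hsr : s ≠ r := by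
      rintro rfl
      exact n12 (uQ ((sc_pw Q 1 b).symm.trans (sc_pw Q 2 b)) g1 k1)
    rcases dec_der s s' s'' r r' r'' g4 g5 g6 g7 g8 g9 k4 k5 k6 k7 k8 k9 hsr with ⟨e1, e2, e3⟩ | ⟨e1, e2, e3⟩
    · rw [e1] at g1; rw [e2] at g2; rw [e3] at g3
      exact ⟨_, sc_pw Q 1 b, g1, g2, g3⟩
    · rw [e1] at k1; rw [e2] at k2; rw [e3] at k3
      exact ⟨_, sc_pw Q 2 b, k1, k2, k3⟩
  obtain ⟨c, hcs, hc2, hc0', hc1'⟩ := hc1
  have hjk : j ≠ k := fun e => hfj e.symm
  obtain ⟨m1, m2⟩ := hbl j k hjk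
  have hne : q j 0 ≠ q k 1 := by
    intro e
    exact hjk (F3 j k 0 1 (by rw [e]))
  have hceq : bl j k = c := h.conf.lin _ _ _ _ hne m1 m2 hc0' hc1'
  have m3 := hf j k hjk
  rw [hceq] at m3
  have hoc : ¬ Q.SameCycle b0 c := fun hs' => ho (hs'.trans hcs.symm)
  exact F7 c 2 _ _ hoc m3 hc2

theorem no3 (h : OC I P Q) (h1 : Yc P 3 = 33) (h2 : Yc Q 3 = 33) : False :=
  h.no3_aux (all_per 33 h.conf.ca h1) (all_per 33 h.conf.cb h2)

end OC

end Pool.Agent.Helper15.C33
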