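import Mathlib

set_option autoImplicit false
set_option linter.unusedSimpArgs false

/-!
# The finite check over `ZMod 11`
-/

namespace Pool.Agent.Helper15.C33

/-- all residues -/
def els : List (ZMod 11) := [0, 1, 2, 3, 4, 5, 6, 7, 8, 9, 10]

theorem mem_els (x : ZMod 11) : x ∈ els := by
  revert x; decide

/-- differences of the first row -/
def lA (x y : ZMod 11) : List (ZMod 11) := [x, -x, y, -y, x - y, y - x]

/-- differences of the first row, all -/
def lA' (x y c : ZMod 11) : List (ZMod 11) := [c, -c, x, -x, y, -y, x - y, y - x]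

/-- differences between the rows -/
def lC (x y c u v : ZMod 11) : List (ZMod 11) := [u, u - x, u - y, v, v - x, v - y, 0, -c]

/-- differences of the second row -/
def lB (u v w z t : ZMod 11) : List (ZMod 11) := [u - v, v - u, w - z, z - w, w - t, t - w, z - t, t - z]

/-- list has no repetitions and avoids 1 and -1 -/
def good1 (l : List (ZMod 11)) : Bool := decide (l.Nodup) && decide ((1 : ZMod 11) ∉ l)

/-- the search -/
def chk : Bool :=
  els.all fun x => els.all fun y => !(good1 (lA x y)) ||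
    els.all fun c => !(good1 (lA' x y c)) ||
      els.all fun u => els.all fun v => !(decide (lC x y c u v).Nodup) ||
        els.all fun w => !(decide (w :: lC x y c u v).Nodup) ||
          els.all fun z => !(decide (z :: w :: lC x y c u v).Nodup) ||
            els.all fun t => !(decide (t :: z :: w :: lC x y c u v).Nodup) || !(good1 (lB u v w z t))

theorem chk_true : chk = true := by decide +kernel

theorem chk_use (x y c u v w z t : ZMod 11) (h1 : good1 (lA x y) = true) (h2 : good1 (lA' x y c) = true)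
    (h3 : (lC x y c u v).Nodup) (h4 : (w :: lC x y c u v).Nodup) (h5 : (z :: w :: lC x y c u v).Nodup)
    (h6 : (t :: z :: w :: lC x y c u v).Nodup) (h7 : good1 (lB u v w z t) = true) : False := by
  have h := chk_true
  unfold chk at h
  rw [List.all_eq_true] at h
  have h := h x (mem_els x)
  rw [List.all_eq_true] at h
  have h := h y (mem_els y)
  rw [h1, Bool.not_true, Bool.false_or, List.all_eq_true] at h
  have h := h c (mem_els c)
  rw [h2, Bool.not_true, Bool.false_or, List.all_eq_true] at h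
  have h := h u (mem_els u)
  rw [List.all_eq_true] at h
  have h := h v (mem_els v)
  rw [decide_eq_true h3, Bool.not_true, Bool.false_or, List.all_eq_true] at h
  have h := h w (mem_els w)
  rw [decide_eq_true h4, Bool.not_true, Bool.false_or, List.all_eq_true] at h
  have h := h z (mem_els z)
  rw [decide_eq_true h5, Bool.not_true, Bool.false_or, List.all_eq_true] at h
  have h := h t (mem_els t)
  rw [decide_eq_true h6, Bool.not_true, Bool.false_or, h7, Bool.not_true] at h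
  exact Bool.false_ne_true h

/-- the combinatorial statement over `ZMod 11` -/
theorem comb11 (F G : Fin 3 → ZMod 11 → Prop)
    (hA : ∀ j j' f f' g g', F j f → F j f' → F j' g → F j' g' → f - f' = g - g' → f ≠ f' →
      j = j' ∧ f = g ∧ f' = g')
    (hA1 : ∀ j f f', F j f → F j f' → f - f' ≠ 1)
    (hB : ∀ j j' f f' g g', G j f → G j f' → G j' g → G j' g' → f - f' = g - g' → f ≠ f' →
      j = j' ∧ f = g ∧ f' = g')
    (hB1 : ∀ j f f', G j f → G j f' → f - f' ≠ 1)
    (hC : ∀ j j' f g f' g', F j f → G j g → F j' f' → G j' g' → g - f = g' - f' →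
      j = j' ∧ f = f' ∧ g = g')
    (f1 f2 f3 b1 b2 c0 u1 u2 v0 w1 w2 w3 : ZMod 11)
    (hf1 : F 0 f1) (hf2 : F 0 f2) (hf3 : F 0 f3) (hf12 : f1 ≠ f2) (hf13 : f1 ≠ f3) (hf23 : f2 ≠ f3)
    (hb1 : F 1 b1) (hb2 : F 1 b2) (hb12 : b1 ≠ b2) (hc0 : F 2 c0)
    (hu1 : G 0 u1) (hu2 : G 0 u2) (hu12 : u1 ≠ u2) (hv0 : G 1 v0)
    (hw1 : G 2 w1) (hw2 : G 2 w2) (hw3 : G 2 w3) (hw12 : w1 ≠ w2) (hw13 : w1 ≠ w3) (hw23 : w2 ≠ w3) :
    False := by
  -- difference lists as maps
  have key : ∀ (H : Fin 3 → ZMod 11 → Prop)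
      (hH : ∀ j j' f f' g g', H j f → H j f' → H j' g → H j' g' → f - f' = g - g' → f ≠ f' →
        j = j' ∧ f = g ∧ f' = g') (hH1 : ∀ j f f', H j f → H j f' → f - f' ≠ 1)
      (l : List (Fin 3 × ZMod 11 × ZMod 11)), (∀ q ∈ l, H q.1 q.2.1 ∧ H q.1 q.2.2 ∧ q.2.1 ≠ q.2.2) →
      l.Nodup → good1 (l.map (fun q => q.2.1 - q.2.2)) = true := by
    intro H hH hH1 l hl hnd
    unfold good1
    rw [Bool.and_eq_true]
    constructor
    · apply decide_eq_true
      apply List.Nodup.map_on _ hnd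
      intro q hq q' hq' he
      obtain ⟨a1, a2, a3⟩ := hl q hq
      obtain ⟨a1', a2', a3'⟩ := hl q' hq'
      obtain ⟨e1, e2, e3⟩ := hH q.1 q'.1 q.2.1 q.2.2 q'.2.1 q'.2.2 a1 a2 a1' a2' he a3
      exact Prod.ext e1 (Prod.ext e2 e3)
    · apply decide_eq_true
      intro hmem
      rw [List.mem_map] at hmem
      obtain ⟨q, hq, he⟩ := hmem
      obtain ⟨a1, a2, a3⟩ := hl q hq
      exact hH1 q.1 _ _ a1 a2 he
  have keyC : ∀ (l : List (Fin 3 × ZMod 11 × ZMod 11)) (d : ZMod 11), (∀ q ∈ l, F q.1 q.2.1 ∧ G q.1 q.2.2) →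
      l.Nodup → (l.map (fun q => q.2.2 - q.2.1 - d)).Nodup := by
    intro l d hl hnd
    apply List.Nodup.map_on _ hnd
    intro q hq q' hq' he
    obtain ⟨a1, a2⟩ := hl q hq
    obtain ⟨a1', a2'⟩ := hl q' hq'
    have he' : q.2.2 - q.2.1 = q'.2.2 - q'.2.1 := by
      have := congrArg (fun z => z + d) he
      simpa using this
    obtain ⟨e1, e2, e3⟩ := hC q.1 q'.1 q.2.1 q.2.2 q'.2.1 q'.2.2 a1 a2 a1' a2' he'
    exact Prod.ext e1 (Prod.ext e2 e3)
  set D := v0 - b1 with hD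
  apply chk_use (f2 - f1) (f3 - f1) (b2 - b1) (u1 - f1 - D) (u2 - f1 - D) (w1 - c0 - D) (w2 - c0 - D) (w3 - c0 - D)
  · have := key F hA hA1 [(0, f2, f1), (0, f1, f2), (0, f3, f1), (0, f1, f3), (0, f2, f3), (0, f3, f2)]
      (by
        intro q hq
        simp only [List.mem_cons, List.not_mem_nil, or_false] at hq
        rcases hq with rfl | rfl | rfl | rfl | rfl | rfl
        exacts [⟨hf2, hf1, hf12.symm⟩, ⟨hf1, hf2, hf12⟩, ⟨hf3, hf1, hf13.symm⟩, ⟨hf1, hf3, hf13⟩,
          ⟨hf2, hf3, hf23⟩, ⟨hf3, hf2, hf23.symm⟩])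
      (by simp [hf12, hf13, hf23, hf12.symm, hf13.symm, hf23.symm])
    convert this using 2
    simp [lA]
  · have := key F hA hA1 [(1, b2, b1), (1, b1, b2), (0, f2, f1), (0, f1, f2), (0, f3, f1), (0, f1, f3),
        (0, f2, f3), (0, f3, f2)]
      (by
        intro q hq
        simp only [List.mem_cons, List.not_mem_nil, or_false] at hq
        rcases hq with rfl | rfl | rfl | rfl | rfl | rfl | rfl | rfl
        exacts [⟨hb2, hb1, hb12.symm⟩, ⟨hb1, hb2, hb12⟩, ⟨hf2, hf1, hf12.symm⟩, ⟨hf1, hf2, hf12⟩,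
          ⟨hf3, hf1, hf13.symm⟩, ⟨hf1, hf3, hf13⟩, ⟨hf2, hf3, hf23⟩, ⟨hf3, hf2, hf23.symm⟩])
      (by simp [hf12, hf13, hf23, hf12.symm, hf13.symm, hf23.symm, hb12, hb12.symm])
    convert this using 2
    simp [lA']
  · have := keyC [(0, f1, u1), (0, f2, u1), (0, f3, u1), (0, f1, u2), (0, f2, u2), (0, f3, u2), (1, b1, v0),
        (1, b2, v0)] D
      (by
        intro q hq
        simp only [List.mem_cons, List.not_mem_nil, or_false] at hq
        rcases hq with rfl | rfl | rfl | rfl | rfl | rfl | rfl | rfl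
        exacts [⟨hf1, hu1⟩, ⟨hf2, hu1⟩, ⟨hf3, hu1⟩, ⟨hf1, hu2⟩, ⟨hf2, hu2⟩, ⟨hf3, hu2⟩, ⟨hb1, hv0⟩, ⟨hb2, hv0⟩])
      (by simp [hf12, hf13, hf23, hf12.symm, hf13.symm, hf23.symm, hb12, hb12.symm, hu12, hu12.symm])
    convert this using 1
    simp only [lC, List.map_cons, List.map_nil, List.cons.injEq, and_true]
    refine ⟨?_, ?_, ?_, ?_, ?_, ?_, ?_, ?_⟩ <;> first | exact True.intro | (rw [hD]; ring) | ring
  · have := keyC [(2, c0, w1), (0, f1, u1), (0, f2, u1), (0, f3, u1), (0, f1, u2), (0, f2, u2), (0, f3, u2),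
        (1, b1, v0), (1, b2, v0)] D
      (by
        intro q hq
        simp only [List.mem_cons, List.not_mem_nil, or_false] at hq
        rcases hq with rfl | rfl | rfl | rfl | rfl | rfl | rfl | rfl | rfl
        exacts [⟨hc0, hw1⟩, ⟨hf1, hu1⟩, ⟨hf2, hu1⟩, ⟨hf3, hu1⟩, ⟨hf1, hu2⟩, ⟨hf2, hu2⟩, ⟨hf3, hu2⟩,
          ⟨hb1, hv0⟩, ⟨hb2, hv0⟩])
      (by simp [hf12, hf13, hf23, hf12.symm, hf13.symm, hf23.symm, hb12, hb12.symm, hu12, hu12.symm])
    convert this using 1
    simp only [lC, List.map_cons, List.map_nil, List.cons.injEq, and_true]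
    refine ⟨?_, ?_, ?_, ?_, ?_, ?_, ?_, ?_, ?_⟩ <;> first | exact True.intro | (rw [hD]; ring) | ring
  · have := keyC [(2, c0, w2), (2, c0, w1), (0, f1, u1), (0, f2, u1), (0, f3, u1), (0, f1, u2), (0, f2, u2),
        (0, f3, u2), (1, b1, v0), (1, b2, v0)] D
      (by
        intro q hq
        simp only [List.mem_cons, List.not_mem_nil, or_false] at hq
        rcases hq with rfl | rfl | rfl | rfl | rfl | rfl | rfl | rfl | rfl | rfl
        exacts [⟨hc0, hw2⟩, ⟨hc0, hw1⟩, ⟨hf1, hu1⟩, ⟨hf2, hu1⟩, ⟨hf3, hu1⟩, ⟨hf1, hu2⟩, ⟨hf2, hu2⟩, ⟨hf3, hu2⟩,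
          ⟨hb1, hv0⟩, ⟨hb2, hv0⟩])
      (by simp [hf12, hf13, hf23, hf12.symm, hf13.symm, hf23.symm, hb12, hb12.symm, hu12, hu12.symm,
            hw12, hw12.symm])
    convert this using 1
    simp only [lC, List.map_cons, List.map_nil, List.cons.injEq, and_true]
    refine ⟨?_, ?_, ?_, ?_, ?_, ?_, ?_, ?_, ?_, ?_⟩ <;> first | exact True.intro | (rw [hD]; ring) | ring
  · have := keyC [(2, c0, w3), (2, c0, w2), (2, c0, w1), (0, f1, u1), (0, f2, u1), (0, f3, u1), (0, f1, u2),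
        (0, f2, u2), (0, f3, u2), (1, b1, v0), (1, b2, v0)] D
      (by
        intro q hq
        simp only [List.mem_cons, List.not_mem_nil, or_false] at hq
        rcases hq with rfl | rfl | rfl | rfl | rfl | rfl | rfl | rfl | rfl | rfl | rfl
        exacts [⟨hc0, hw3⟩, ⟨hc0, hw2⟩, ⟨hc0, hw1⟩, ⟨hf1, hu1⟩, ⟨hf2, hu1⟩, ⟨hf3, hu1⟩, ⟨hf1, hu2⟩,
          ⟨hf2, hu2⟩, ⟨hf3, hu2⟩, ⟨hb1, hv0⟩, ⟨hb2, hv0⟩])
      (by simp [hf12, hf13, hf23, hf12.symm, hf13.symm, hf23.symm, hb12, hb12.symm, hu12, hu12.symm,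
            hw12, hw12.symm, hw13, hw13.symm, hw23, hw23.symm])
    convert this using 1
    simp only [lC, List.map_cons, List.map_nil, List.cons.injEq, and_true]
    refine ⟨?_, ?_, ?_, ?_, ?_, ?_, ?_, ?_, ?_, ?_, ?_⟩ <;> first | exact True.intro | (rw [hD]; ring) | ring
  · have := key G hB hB1 [(0, u1, u2), (0, u2, u1), (2, w1, w2), (2, w2, w1), (2, w1, w3), (2, w3, w1),
        (2, w2, w3), (2, w3, w2)]
      (by
        intro q hq
        simp only [List.mem_cons, List.not_mem_nil, or_false] at hq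
        rcases hq with rfl | rfl | rfl | rfl | rfl | rfl | rfl | rfl
        exacts [⟨hu1, hu2, hu12⟩, ⟨hu2, hu1, hu12.symm⟩, ⟨hw1, hw2, hw12⟩, ⟨hw2, hw1, hw12.symm⟩,
          ⟨hw1, hw3, hw13⟩, ⟨hw3, hw1, hw13.symm⟩, ⟨hw2, hw3, hw23⟩, ⟨hw3, hw2, hw23.symm⟩])
      (by simp [hu12, hu12.symm, hw12, hw12.symm, hw13, hw13.symm, hw23, hw23.symm])
    convert this using 2
    simp [lB]

end Pool.Agent.Helper15.C33
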