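import Mathlib
import Pool.Agent.Helper15.C33H
import Pool.Agent.Helper15.C33N

set_option autoImplicit false
set_option linter.unusedSectionVars false
set_option linter.unusedVariables false

/-!
# Part K: the case in which all periods are 11
-/

namespace Pool.Agent.Helper15.C33

open Finset
open scoped Classical

variable {α β : Type} [Fintype α] [Fintype β] {I : α → β → Prop} {P : Equiv.Perm α} {Q : Equiv.Perm β}

theorem AD.base {a : α} {b : β} (had : AD I P Q a b) (k l : ℤ) : AD I P Q (pw P k a) (pw Q l b) := by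
  intro i j
  rw [← pw_add, ← pw_add, had, ← pw_add, had]
  rw [show i + k + (j + l) = i + j + k + l by ring]

theorem AD.symm {a : α} {b : β} (had : AD I P Q a b) : AD I P.symm Q.symm a b := by
  intro i j
  rw [pw_symm, pw_symm, pw_symm, had]
  rw [show -i + -j = -(i + j) by ring]

theorem AD.base_a {a : α} {b : β} {k : ℤ} (had : AD I P Q (pw P k a) b) : AD I P Q a b := by
  have := had.base (-k) 0
  rw [← pw_add, neg_add_cancel, pw_zero, pw_zero] at this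
  exact this

theorem pw_symm' {γ : Type} (R : Equiv.Perm γ) (i : ℤ) (c : γ) : pw R i c = pw R.symm (-i) c := by
  rw [pw_symm, neg_neg]

theorem ad_unique (h : OC I P Q) {a : α} {b : β} (h1 : AD I P Q a b) (h2 : AD I P Q.symm a b)
    (hp : per P a = 11) {s : ℤ} (hs : I (pw P s a) b) : False := by
  have hall : ∀ t : ℤ, I (pw P t a) b := by
    intro t
    -- move from s to s - 2 j
    have hmove : ∀ x j : ℤ, I (pw P x a) b → I (pw P (x - 2 * j) a) b := by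
      intro x j hx
      have e1 := (h1 (x - j) j).mpr (by rw [show x - j + j = x by ring]; exact hx)
      rw [pw_symm' Q] at e1
      have e2 := (h2 (x - j) (-j)).mp e1
      rw [show x - j + -j = x - 2 * j by ring] at e2
      exact e2
    have := hmove s (6 * (s - t)) hs
    have e : pw P (s - 2 * (6 * (s - t))) a = pw P t a := by
      rw [pw_eq_iff, hp]
      exact ⟨-(s - t), by push_cast; ring⟩
    rwa [e] at this
  have hle := h.ec_le a b
  have : OC.ec I P a b = 11 := by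
    unfold OC.ec
    rw [filter_true_of_mem, card_cyc, hp]
    intro a' ha'
    rw [mem_cyc] at ha'
    obtain ⟨i, hi⟩ := ha'
    have hi' : pw P i a = a' := hi
    rw [← hi']; exact hall i
  omega

/-- the sign condition: the cycles of `a1` and `a2` are oriented alike along `b` -/
def TT (I : α → β → Prop) (P1 P2 : Equiv.Perm α) (Q : Equiv.Perm β) (a1 a2 : α) (b : β) : Prop :=
  (AD I P1 Q a1 b ∧ AD I P2 Q a2 b) ∨ (AD I P1 Q.symm a1 b ∧ AD I P2 Q.symm a2 b)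

/-- the opposite sign condition -/
def TO (I : α → β → Prop) (P1 P2 : Equiv.Perm α) (Q : Equiv.Perm β) (a1 a2 : α) (b : β) : Prop :=
  (AD I P1 Q a1 b ∧ AD I P2 Q.symm a2 b) ∨ (AD I P1 Q.symm a1 b ∧ AD I P2 Q a2 b)

section sign

variable {P1 P2 : Equiv.Perm α} {a1 a2 : α}

theorem TT.base {b : β} (h : TT I P1 P2 Q a1 a2 b) (l : ℤ) : TT I P1 P2 Q a1 a2 (pw Q l b) := by
  rcases h with ⟨x, y⟩ | ⟨x, y⟩
  · left
    have x' := x.base 0 l
    have y' := y.base 0 l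
    rw [pw_zero] at x' y'
    exact ⟨x', y'⟩
  · right
    have x' := x.base 0 (-l)
    have y' := y.base 0 (-l)
    rw [pw_zero, ← pw_symm' Q] at x' y'
    exact ⟨x', y'⟩

theorem TO.base {b : β} (h : TO I P1 P2 Q a1 a2 b) (l : ℤ) : TO I P1 P2 Q a1 a2 (pw Q l b) := by
  rcases h with ⟨x, y⟩ | ⟨x, y⟩
  · left
    have x' := x.base 0 l
    have y' := y.base 0 (-l)
    rw [pw_zero] at x' y'
    rw [← pw_symm' Q] at y'
    exact ⟨x', y'⟩
  · right
    have x' := x.base 0 (-l)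
    have y' := y.base 0 l
    rw [pw_zero] at x' y'
    rw [← pw_symm' Q] at x'
    exact ⟨x', y'⟩

theorem tt_or_to (h1 : OC I P1 Q) (h2 : OC I P2 Q) (hp1 : per P1 a1 = 11) (hp2 : per P2 a2 = 11)
    {s t : ℤ} {b : β} (hs : I (pw P1 s a1) b) (ht : I (pw P2 t a2) b) :
    TT I P1 P2 Q a1 a2 b ∨ TO I P1 P2 Q a1 a2 b := by
  have e1 := h1.ad_or hs (by rw [per_pw, hp1]; decide)
  have e2 := h2.ad_or ht (by rw [per_pw, hp2]; decide)
  rcases e1 with e1 | e1 <;> rcases e2 with e2 | e2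
  · exact Or.inl (Or.inl ⟨e1.base_a, e2.base_a⟩)
  · exact Or.inr (Or.inl ⟨e1.base_a, e2.base_a⟩)
  · exact Or.inr (Or.inr ⟨e1.base_a, e2.base_a⟩)
  · exact Or.inl (Or.inr ⟨e1.base_a, e2.base_a⟩)

theorem tt_to (h1 : OC I P1 Q) (h2 : OC I P2 Q) (hp1 : per P1 a1 = 11) (hp2 : per P2 a2 = 11)
    {s t : ℤ} {b : β} (hs : I (pw P1 s a1) b) (ht : I (pw P2 t a2) b)
    (hT : TT I P1 P2 Q a1 a2 b) (hO : TO I P1 P2 Q a1 a2 b) : False := by
  rcases hT with ⟨x, y⟩ | ⟨x, y⟩ <;> rcases hO with ⟨z, w⟩ | ⟨z, w⟩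
  · exact ad_unique h2 y w hp2 ht
  · exact ad_unique h1 x z hp1 hs
  · exact ad_unique h1 z x hp1 hs
  · exact ad_unique h2 w y hp2 ht

theorem sign_all (h1 : OC I P1 Q) (h2 : OC I P2 Q) (hp1 : per P1 a1 = 11) (hp2 : per P2 a2 = 11)
    (hj : ∀ s t : ℤ, ∃ b, I (pw P1 s a1) b ∧ I (pw P2 t a2) b)
    (hne : ∀ s t : ℤ, pw P1 s a1 ≠ pw P2 t a2)
    {b0 : β} {s0 t0 : ℤ} (hs0 : I (pw P1 s0 a1) b0) (ht0 : I (pw P2 t0 a2) b0)
    (hT0 : TT I P1 P2 Q a1 a2 b0) {b : β} {s t : ℤ} (hs : I (pw P1 s a1) b) (ht : I (pw P2 t a2) b) :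
    TT I P1 P2 Q a1 a2 b := by
  set Jp : ℤ → ℤ → Prop := fun s t => ∃ b, I (pw P1 s a1) b ∧ I (pw P2 t a2) b ∧ TT I P1 P2 Q a1 a2 b with hJp
  set Jm : ℤ → ℤ → Prop := fun s t => ∃ b, I (pw P1 s a1) b ∧ I (pw P2 t a2) b ∧ TO I P1 P2 Q a1 a2 b with hJm
  have hor : ∀ s t, Jp s t ∨ Jm s t := by
    intro s t
    obtain ⟨b, hb1, hb2⟩ := hj s t
    rcases tt_or_to h1 h2 hp1 hp2 hb1 hb2 with h | h
    · exact Or.inl ⟨b, hb1, hb2, h⟩
    · exact Or.inr ⟨b, hb1, hb2, h⟩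
  have hnot : ∀ s t, Jp s t → Jm s t → False := by
    rintro s t ⟨b, hb1, hb2, hb3⟩ ⟨b', hb1', hb2', hb3'⟩
    have := h1.conf.lin _ _ b b' (hne s t) hb1 hb2 hb1' hb2'
    rw [← this] at hb3'
    exact tt_to h1 h2 hp1 hp2 hb1 hb2 hb3 hb3'
  have hpp : ∀ s t k, Jp s t → Jp (s + k) (t + k) := by
    rintro s t k ⟨b, hb1, hb2, hb3⟩
    have hb3' := hb3
    rcases hb3 with ⟨x, y⟩ | ⟨x, y⟩
    · refine ⟨pw Q (-k) b, ?_, ?_, hb3'.base (-k)⟩
      · rw [x]; rw [show s + k + -k = s by ring]; exact hb1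
      · rw [y]; rw [show t + k + -k = t by ring]; exact hb2
    · refine ⟨pw Q k b, ?_, ?_, hb3'.base k⟩
      · rw [pw_symm' Q, x]; rw [show s + k + -k = s by ring]; exact hb1
      · rw [pw_symm' Q, y]; rw [show t + k + -k = t by ring]; exact hb2
  have hmm : ∀ s t k, Jm s t → Jm (s + k) (t - k) := by
    rintro s t k ⟨b, hb1, hb2, hb3⟩
    have hb3' := hb3
    rcases hb3 with ⟨x, y⟩ | ⟨x, y⟩
    · refine ⟨pw Q (-k) b, ?_, ?_, hb3'.base (-k)⟩
      · rw [x]; rw [show s + k + -k = s by ring]; exact hb1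
      · rw [pw_symm' Q, y]; rw [show t - k + - -k = t by ring]; exact hb2
    · refine ⟨pw Q k b, ?_, ?_, hb3'.base k⟩
      · rw [pw_symm' Q, x]; rw [show s + k + -k = s by ring]; exact hb1
      · rw [y]; rw [show t - k + k = t by ring]; exact hb2
  have hpm : ∀ s t k, Jp s t → Jp (s + k) (t - k) := by
    intro s t k h
    rcases hor (s + k) (t - k) with h' | h'
    · exact h'
    · exfalso
      have := hmm _ _ (-k) h'
      rw [show s + k + -k = s by ring, show t - k - -k = t by ring] at this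
      exact hnot s t h this
  have hall : ∀ s t, Jp s t := by
    intro s t
    have k1 : Jp s0 t0 := ⟨b0, hs0, ht0, hT0⟩
    have k2 := hpp _ _ (6 * ((s - s0) + (t - t0))) k1
    have k3 := hpm _ _ (6 * ((s - s0) - (t - t0))) k2
    obtain ⟨b, hb1, hb2, hb3⟩ := k3
    refine ⟨b, ?_, ?_, hb3⟩
    · have e : pw P1 s a1 = pw P1 (s0 + 6 * ((s - s0) + (t - t0)) + 6 * ((s - s0) - (t - t0))) a1 := by
        rw [pw_eq_iff, hp1]
        exact ⟨-(s - s0), by push_cast; ring⟩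
      rw [e]; exact hb1
    · have e : pw P2 t a2 = pw P2 (t0 + 6 * ((s - s0) + (t - t0)) - 6 * ((s - s0) - (t - t0))) a2 := by
        rw [pw_eq_iff, hp2]
        exact ⟨-(t - t0), by push_cast; ring⟩
      rw [e]; exact hb2
  obtain ⟨b', hb1, hb2, hb3⟩ := hall s t
  have := h1.conf.lin _ _ b b' (hne s t) hs ht hb1 hb2
  rw [this]; exact hb3

end sign

/-- the residue predicate of a point cycle along a line -/
def FF (I : α → β → Prop) (P : Equiv.Perm α) (a : α) (b : β) (s : ZMod 11) : Prop :=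
  ∃ i : ℤ, (i : ZMod 11) = s ∧ I (pw P i a) b

theorem cast_eq_iff (i j : ℤ) : (i : ZMod 11) = (j : ZMod 11) ↔ (11 : ℤ) ∣ i - j := by
  rw [ZMod.intCast_eq_intCast_iff_dvd_sub]
  push_cast
  constructor
  · intro h
    have := (dvd_neg (a := (11:ℤ)) (b := j - i)).mpr h
    rwa [neg_sub] at this
  · intro h
    have := (dvd_neg (a := (11:ℤ)) (b := i - j)).mpr h
    rwa [neg_sub] at this

theorem FF_cast {a : α} {b : β} (hp : per P a = 11) (i : ℤ) (h : FF I P a b (i : ZMod 11)) :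
    I (pw P i a) b := by
  obtain ⟨j, hj, hI⟩ := h
  rw [cast_eq_iff] at hj
  have : pw P i a = pw P j a := by
    rw [pw_eq_iff, hp]
    have := (dvd_neg (a := (11:ℤ)) (b := j - i)).mpr hj
    rw [neg_sub] at this
    exact this
  rw [this]; exact hI

theorem FF_three {a : α} {b : β} (hp : per P a = 11) (hc : OC.ec I P a b = 3) :
    ∃ x y z : ZMod 11, FF I P a b x ∧ FF I P a b y ∧ FF I P a b z ∧ x ≠ y ∧ x ≠ z ∧ y ≠ z := by
  unfold OC.ec at hc
  rw [card_eq_three] at hc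
  obtain ⟨u, v, w, huv, huw, hvw, hE⟩ := hc
  have hm : ∀ c, c = u ∨ c = v ∨ c = w → ∃ i : ℤ, pw P i a = c ∧ I c b := by
    intro c hc
    have : c ∈ (cyc P a).filter (fun a' => I a' b) := by rw [hE]; simpa using hc
    rw [mem_filter, mem_cyc] at this
    obtain ⟨⟨i, hi⟩, h2⟩ := this
    exact ⟨i, hi, h2⟩
  obtain ⟨i, hi, hi2⟩ := hm u (by simp)
  obtain ⟨j, hj, hj2⟩ := hm v (by simp)
  obtain ⟨k, hk, hk2⟩ := hm w (by simp)
  have hd : ∀ i j : ℤ, ∀ c d, pw P i a = c → pw P j a = d → c ≠ d → (i : ZMod 11) ≠ (j : ZMod 11) := by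
    intro i j c d h1 h2 h3 h4
    apply h3
    rw [cast_eq_iff] at h4
    rw [← h1, ← h2, pw_eq_iff, hp]
    exact h4
  exact ⟨i, j, k, ⟨i, rfl, by rw [hi]; exact hi2⟩, ⟨j, rfl, by rw [hj]; exact hj2⟩,
    ⟨k, rfl, by rw [hk]; exact hk2⟩, hd _ _ _ _ hi hj huv, hd _ _ _ _ hi hk huw, hd _ _ _ _ hj hk hvw⟩

theorem FF_two {a : α} {b : β} (hp : per P a = 11) (hc : OC.ec I P a b = 2) :
    ∃ x y : ZMod 11, FF I P a b x ∧ FF I P a b y ∧ x ≠ y := by
  unfold OC.ec at hc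
  rw [card_eq_two] at hc
  obtain ⟨u, v, huv, hE⟩ := hc
  have hm : ∀ c, c = u ∨ c = v → ∃ i : ℤ, pw P i a = c ∧ I c b := by
    intro c hc
    have : c ∈ (cyc P a).filter (fun a' => I a' b) := by rw [hE]; simpa using hc
    rw [mem_filter, mem_cyc] at this
    obtain ⟨⟨i, hi⟩, h2⟩ := this
    exact ⟨i, hi, h2⟩
  obtain ⟨i, hi, hi2⟩ := hm u (by simp)
  obtain ⟨j, hj, hj2⟩ := hm v (by simp)
  have hd : ∀ i j : ℤ, ∀ c d, pw P i a = c → pw P j a = d → c ≠ d → (i : ZMod 11) ≠ (j : ZMod 11) := by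
    intro i j c d h1 h2 h3 h4
    apply h3
    rw [cast_eq_iff] at h4
    rw [← h1, ← h2, pw_eq_iff, hp]
    exact h4
  exact ⟨i, j, ⟨i, rfl, by rw [hi]; exact hi2⟩, ⟨j, rfl, by rw [hj]; exact hj2⟩, hd _ _ _ _ hi hj huv⟩

theorem FF_pos {a : α} {b : β} (hc : 0 < OC.ec I P a b) : ∃ x : ZMod 11, FF I P a b x := by
  unfold OC.ec at hc
  rw [card_pos] at hc
  obtain ⟨u, hu⟩ := hc
  rw [mem_filter, mem_cyc] at hu
  obtain ⟨⟨i, hi⟩, h2⟩ := hu
  have hi' : pw P i a = u := hi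
  exact ⟨i, i, rfl, by rw [hi']; exact h2⟩

theorem sc_of_eq {R : Equiv.Perm β} (hR : R = Q ∨ R = Q.symm) {R' : Equiv.Perm β} (hR' : R' = Q ∨ R' = Q.symm)
    {b b' : β} {i j : ℤ} (h : pw R i b = pw R' j b') : Q.SameCycle b b' := by
  have h1 : ∀ (R : Equiv.Perm β), (R = Q ∨ R = Q.symm) → ∀ (i : ℤ) (b : β), Q.SameCycle b (pw R i b) := by
    rintro R (rfl | rfl) i b
    · exact sc_pw R i b
    · rw [pw_symm]; exact sc_pw Q _ b
  exact (h1 R hR i b).trans (by rw [h]; exact (h1 R' hR' j b').symm)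

theorem FF_A (h : OC I P Q) {a : α} (hp : per P a = 11) (hq : ∀ b, per Q b = 11) (b : Fin 3 → β)
    (hb : ∀ j j', j ≠ j' → ¬ Q.SameCycle (b j) (b j')) (R : Fin 3 → Equiv.Perm β)
    (hR : ∀ j, R j = Q ∨ R j = Q.symm) (had : ∀ j, AD I P (R j) a (b j)) :
    (∀ j j' f f' g g', FF I P a (b j) f → FF I P a (b j) f' → FF I P a (b j') g → FF I P a (b j') g' →
      f - f' = g - g' → f ≠ f' → j = j' ∧ f = g ∧ f' = g') ∧
    (∀ j f f', FF I P a (b j) f → FF I P a (b j) f' → f - f' ≠ 1) := by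
  have hperR : ∀ j c, per (R j) c = 11 := by
    intro j c
    rcases hR j with h | h
    · rw [h, hq]
    · rw [h, per_symm, hq]
  have key : ∀ j j' f f' g g', FF I P a (b j) f → FF I P a (b j) f' → FF I P a (b j') g → FF I P a (b j') g' →
      f - f' = g - g' → f ≠ f' → j = j' ∧ f = g ∧ f' = g' := by
    rintro j j' f f' g g' ⟨i, rfl, h1⟩ ⟨i', rfl, h2⟩ ⟨k, rfl, h3⟩ ⟨k', rfl, h4⟩ he hne
    have hi : (11:ℤ) ∣ (i - i') - (k - k') := by
      rw [← cast_eq_iff]; push_cast; exact he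
    have hAl : I a (pw (R j) i' (b j)) := by
      have := (had j 0 i').mpr (by rw [zero_add]; exact h2)
      rwa [pw_zero] at this
    have hBl : I (pw P (i - i') a) (pw (R j) i' (b j)) := by
      apply (had j (i - i') i').mpr
      rw [sub_add_cancel]; exact h1
    have hAl' : I a (pw (R j') k' (b j')) := by
      have := (had j' 0 k').mpr (by rw [zero_add]; exact h4)
      rwa [pw_zero] at this
    have hBl' : I (pw P (i - i') a) (pw (R j') k' (b j')) := by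
      apply (had j' (i - i') k').mpr
      have : pw P (i - i' + k') a = pw P k a := by
        rw [pw_eq_iff, hp]
        have e : i - i' + k' - k = (i - i') - (k - k') := by ring
        rw [e]; exact hi
      rw [this]; exact h3
    have hAB : a ≠ pw P (i - i') a := by
      intro e
      have := (pw_eq_self_iff P _ a).mp e.symm
      rw [hp] at this
      apply hne
      rw [cast_eq_iff]; exact this
    have hl := h.conf.lin _ _ _ _ hAB hAl hBl hAl' hBl'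
    have hsc := sc_of_eq (hR j) (hR j') hl
    have hjj : j = j' := by
      by_contra hcon
      exact hb j j' hcon hsc
    subst hjj
    have h5 := (pw_eq_iff (R j) _ _ (b j)).mp hl
    rw [hperR] at h5
    have e2 : (i' : ZMod 11) = (k' : ZMod 11) := by
      rw [cast_eq_iff]; exact h5
    refine ⟨rfl, ?_, e2⟩
    rw [e2] at he
    exact sub_left_injective he
  refine ⟨key, ?_⟩
  rintro j f f' ⟨i, rfl, h1⟩ ⟨i', rfl, h2⟩ he
  have hi : (11:ℤ) ∣ (i - i') - 1 := by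
    rw [← cast_eq_iff]; push_cast; exact he
  have hAl : I a (pw (R j) i' (b j)) := by
    have := (had j 0 i').mpr (by rw [zero_add]; exact h2)
    rwa [pw_zero] at this
  have hBl : I (pw P (i - i') a) (pw (R j) i' (b j)) := by
    apply (had j (i - i') i').mpr
    rw [sub_add_cancel]; exact h1
  have e : pw P (i - i') a = P a := by
    rw [← pw_one P a, pw_eq_iff, hp]; exact hi
  rw [e] at hBl
  exact ((h.adP a (P a)).mpr (Or.inl rfl)).2 _ ⟨hAl, hBl⟩

theorem FF_C {P1 P2 : Equiv.Perm α} (h : OC I P1 Q) {a1 a2 : α} (hp1 : per P1 a1 = 11) (hp2 : per P2 a2 = 11)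
    (hne : ∀ s t : ℤ, pw P1 s a1 ≠ pw P2 t a2)
    (hq : ∀ b, per Q b = 11) (b : Fin 3 → β)
    (hb : ∀ j j', j ≠ j' → ¬ Q.SameCycle (b j) (b j')) (R : Fin 3 → Equiv.Perm β)
    (hR : ∀ j, R j = Q ∨ R j = Q.symm) (had1 : ∀ j, AD I P1 (R j) a1 (b j))
    (had2 : ∀ j, AD I P2 (R j) a2 (b j)) :
    ∀ j j' f g f' g', FF I P1 a1 (b j) f → FF I P2 a2 (b j) g → FF I P1 a1 (b j') f' → FF I P2 a2 (b j') g' →
      g - f = g' - f' → j = j' ∧ f = f' ∧ g = g' := by
  have hperR : ∀ j c, per (R j) c = 11 := by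
    intro j c
    rcases hR j with h | h
    · rw [h, hq]
    · rw [h, per_symm, hq]
  rintro j j' f g f' g' ⟨i, rfl, h1⟩ ⟨k, rfl, h2⟩ ⟨i', rfl, h3⟩ ⟨k', rfl, h4⟩ he
  have hi : (11:ℤ) ∣ (k - i) - (k' - i') := by
    rw [← cast_eq_iff]; push_cast; exact he
  have hAl : I a1 (pw (R j) i (b j)) := by
    have := (had1 j 0 i).mpr (by rw [zero_add]; exact h1)
    rwa [pw_zero] at this
  have hBl : I (pw P2 (k - i) a2) (pw (R j) i (b j)) := by
    apply (had2 j (k - i) i).mpr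
    rw [sub_add_cancel]; exact h2
  have hAl' : I a1 (pw (R j') i' (b j')) := by
    have := (had1 j' 0 i').mpr (by rw [zero_add]; exact h3)
    rwa [pw_zero] at this
  have hBl' : I (pw P2 (k - i) a2) (pw (R j') i' (b j')) := by
    apply (had2 j' (k - i) i').mpr
    have : pw P2 (k - i + i') a2 = pw P2 k' a2 := by
      rw [pw_eq_iff, hp2]
      have e : k - i + i' - k' = (k - i) - (k' - i') := by ring
      rw [e]; exact hi
    rw [this]; exact h4
  have hAB : a1 ≠ pw P2 (k - i) a2 := by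
    have := hne 0 (k - i)
    rwa [pw_zero] at this
  have hl := h.conf.lin _ _ _ _ hAB hAl hBl hAl' hBl'
  have hsc := sc_of_eq (hR j) (hR j') hl
  have hjj : j = j' := by
    by_contra hcon
    exact hb j j' hcon hsc
  subst hjj
  have h5 := (pw_eq_iff (R j) _ _ (b j)).mp hl
  rw [hperR] at h5
  have e2 : (i : ZMod 11) = (i' : ZMod 11) := by
    rw [cast_eq_iff]; exact h5
  refine ⟨rfl, e2, ?_⟩
  rw [e2] at he
  exact sub_left_injective he

/-- final contradiction once the signs are aligned -/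
theorem final11 {P1 P2 : Equiv.Perm α} (h1 : OC I P1 Q) (h2 : OC I P2 Q) {a1 a2 : α}
    (hp1 : per P1 a1 = 11) (hp2 : per P2 a2 = 11)
    (hj : ∀ s t : ℤ, ∃ b, I (pw P1 s a1) b ∧ I (pw P2 t a2) b)
    (hne : ∀ s t : ℤ, pw P1 s a1 ≠ pw P2 t a2)
    (hq : ∀ b, per Q b = 11) (b : Fin 3 → β)
    (hb : ∀ j j', j ≠ j' → ¬ Q.SameCycle (b j) (b j'))
    (c0 : OC.ec I P1 a1 (b 0) = 3) (c1 : OC.ec I P1 a1 (b 1) = 2) (c2 : OC.ec I P1 a1 (b 2) = 1)
    (d0 : OC.ec I P2 a2 (b 0) = 2) (d1 : OC.ec I P2 a2 (b 1) = 1) (d2 : OC.ec I P2 a2 (b 2) = 3)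
    (hT0 : TT I P1 P2 Q a1 a2 (b 0)) : False := by
  have ex1 : ∀ j, ∃ s : ℤ, I (pw P1 s a1) (b j) := by
    intro j
    have : 0 < OC.ec I P1 a1 (b j) := by
      fin_cases j
      · change 0 < OC.ec I P1 a1 (b 0); omega
      · change 0 < OC.ec I P1 a1 (b 1); omega
      · change 0 < OC.ec I P1 a1 (b 2); omega
    obtain ⟨x, i, _, hi⟩ := FF_pos this
    exact ⟨i, hi⟩
  have ex2 : ∀ j, ∃ s : ℤ, I (pw P2 s a2) (b j) := by
    intro j
    have : 0 < OC.ec I P2 a2 (b j) := by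
      fin_cases j
      · change 0 < OC.ec I P2 a2 (b 0); omega
      · change 0 < OC.ec I P2 a2 (b 1); omega
      · change 0 < OC.ec I P2 a2 (b 2); omega
    obtain ⟨x, i, _, hi⟩ := FF_pos this
    exact ⟨i, hi⟩
  have hT : ∀ j, TT I P1 P2 Q a1 a2 (b j) := by
    intro j
    obtain ⟨s, hs⟩ := ex1 j
    obtain ⟨t, ht⟩ := ex2 j
    obtain ⟨s0, hs0⟩ := ex1 0
    obtain ⟨t0, ht0⟩ := ex2 0
    exact sign_all h1 h2 hp1 hp2 hj hne hs0 ht0 hT0 hs ht
  have hR : ∀ j, ∃ R : Equiv.Perm β, (R = Q ∨ R = Q.symm) ∧ AD I P1 R a1 (b j) ∧ AD I P2 R a2 (b j) := by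
    intro j
    rcases hT j with ⟨x, y⟩ | ⟨x, y⟩
    · exact ⟨Q, Or.inl rfl, x, y⟩
    · exact ⟨Q.symm, Or.inr rfl, x, y⟩
  choose R hR1 hR2 hR3 using hR
  have hA := FF_A h1 hp1 hq b hb R hR1 hR2
  have hB := FF_A h2 hp2 hq b hb R hR1 hR3
  have hC := FF_C h1 hp1 hp2 hne hq b hb R hR1 hR2 hR3
  obtain ⟨f1, f2, f3, hf1, hf2, hf3, hf12, hf13, hf23⟩ := FF_three hp1 c0
  obtain ⟨b1, b2, hb1, hb2, hb12⟩ := FF_two hp1 c1
  obtain ⟨cc, hcc⟩ := FF_pos (I := I) (P := P1) (a := a1) (b := b 2) (by omega)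
  obtain ⟨u1, u2, hu1, hu2, hu12⟩ := FF_two hp2 d0
  obtain ⟨v0, hv0⟩ := FF_pos (I := I) (P := P2) (a := a2) (b := b 1) (by omega)
  obtain ⟨w1, w2, w3, hw1, hw2, hw3, hw12, hw13, hw23⟩ := FF_three hp2 d2
  exact comb11 (fun j => FF I P1 a1 (b j)) (fun j => FF I P2 a2 (b j)) hA.1 hA.2 hB.1 hB.2 hC
    f1 f2 f3 b1 b2 cc u1 u2 v0 w1 w2 w3 hf1 hf2 hf3 hf12 hf13 hf23 hb1 hb2 hb12 hcc hu1 hu2 hu12 hv0
    hw1 hw2 hw3 hw12 hw13 hw23

end Pool.Agent.Helper15.C33
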