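import Mathlib
import Pool.Agent.Helper15.C33K

set_option autoImplicit false
set_option linter.unusedSectionVars false
set_option linter.unusedVariables false

/-!
# Part L: conclusion
-/

namespace Pool.Agent.Helper15.C33

open Finset
open scoped Classical

variable {α β : Type} [Fintype α] [Fintype β] {I : α → β → Prop} {P : Equiv.Perm α} {Q : Equiv.Perm β}

namespace OC

theorem E_ex {a : α} {v : ℕ} (hE : 0 < E I P Q a v) : ∃ b, I a b ∧ ec I P a b = v := by
  unfold E Cp at hE
  rw [card_pos] at hE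
  obtain ⟨b, hb⟩ := hE
  rw [mem_fs] at hb
  exact ⟨b, hb.1.1, hb.2⟩

theorem ec_symmP (a : α) (b : β) : ec I P.symm a b = ec I P a b := by
  unfold ec
  rw [cyc_symm]

theorem no11_aux (h : OC I P Q) (hP : ∀ a, per P a = 11) (hQ : ∀ b, per Q b = 11) : False := by
  have hee : ∀ a b, I a b → ec (fun b a => I a b) Q b a = ec I P a b := by
    intro a b hab
    rcases h.tri hab with h1 | h1 | h1
    · exact h1.2
    · rw [hP, hQ] at h1; omega
    · rw [hP, hQ] at h1; omega
  have hrow := fun a => (h.row11 a (hP a)).2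
  have hcol := fun b => (h.dual.row11 b (hQ b)).2
  have hne : Nonempty α := by
    rw [← Fintype.card_pos_iff, h.conf.ca]; norm_num
  obtain ⟨a1⟩ := hne
  obtain ⟨b0, hb0, e0⟩ := E_ex (I := I) (P := P) (Q := Q) (a := a1) (v := 3) (by rw [(hrow a1).2.2]; norm_num)
  obtain ⟨b1, hb1, e1⟩ := E_ex (I := I) (P := P) (Q := Q) (a := a1) (v := 2) (by rw [(hrow a1).2.1]; norm_num)
  obtain ⟨b2, hb2, e2⟩ := E_ex (I := I) (P := P) (Q := Q) (a := a1) (v := 1) (by rw [(hrow a1).1]; norm_num)
  obtain ⟨a2, ha2, f0'⟩ := E_ex (I := fun b a => I a b) (P := Q) (Q := P) (a := b0) (v := 2)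
    (by rw [(hcol b0).2.1]; norm_num)
  have f0 : ec I P a2 b0 = 2 := by rw [← hee a2 b0 ha2]; exact f0'
  have hnsc : ¬ P.SameCycle a1 a2 := by
    intro hs
    have := ec_sc (I := I) hs b0
    omega
  have n01 : ¬ Q.SameCycle b0 b1 := fun hs => by
    have := h.ec_inv a1 hs; omega
  have n02 : ¬ Q.SameCycle b0 b2 := fun hs => by
    have := h.ec_inv a1 hs; omega
  have n12 : ¬ Q.SameCycle b1 b2 := fun hs => by
    have := h.ec_inv a1 hs; omega
  have hcover : ∀ c, Q.SameCycle b0 c ∨ Q.SameCycle b1 c ∨ Q.SameCycle b2 c := by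
    have hU : cyc Q b0 ∪ cyc Q b1 ∪ cyc Q b2 = univ := by
      apply eq_univ_of_card
      rw [card_union_of_disjoint, card_union_of_disjoint, card_cyc, card_cyc, card_cyc, hQ, hQ, hQ, h.conf.cb]
      · rw [disjoint_left]
        intro c hc hc'
        rw [mem_cyc] at hc hc'
        exact n01 (hc.trans hc'.symm)
      · rw [disjoint_left]
        intro c hc hc'
        rw [mem_union, mem_cyc, mem_cyc] at hc
        rw [mem_cyc] at hc'
        rcases hc with hc | hc
        · exact n02 (hc.trans hc'.symm)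
        · exact n12 (hc.trans hc'.symm)
    intro c
    have : c ∈ cyc Q b0 ∪ cyc Q b1 ∪ cyc Q b2 := by rw [hU]; exact mem_univ _
    rw [mem_union, mem_union, mem_cyc, mem_cyc, mem_cyc] at this
    rcases this with (h1 | h1) | h1
    · exact Or.inl h1
    · exact Or.inr (Or.inl h1)
    · exact Or.inr (Or.inr h1)
  -- the line b2 does not meet the cycle of a2 in exactly one point
  have hx : ec I P a2 b2 ≠ 1 := by
    intro hx
    have hpos : 0 < ec I P a2 b2 := by omega
    unfold ec at hpos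
    rw [card_pos] at hpos
    obtain ⟨a', ha'⟩ := hpos
    rw [mem_filter, mem_cyc] at ha'
    have g1 : ec I P a' b2 = 1 := by rw [← ec_sc ha'.1 b2]; exact hx
    have hc1 := (hcol b2).1
    unfold E Cp at hc1
    rw [card_eq_one] at hc1
    obtain ⟨z, hz⟩ := hc1
    have m1 : a' ∈ fs (fun a => ((fun b a => I a b) b2 a ∧ per P a = per Q b2) ∧ ec (fun b a => I a b) Q b2 a = 1) := by
      rw [mem_fs]
      exact ⟨⟨ha'.2, by rw [hP, hQ]⟩, by rw [hee a' b2 ha'.2]; exact g1⟩
    have m2 : a1 ∈ fs (fun a => ((fun b a => I a b) b2 a ∧ per P a = per Q b2) ∧ ec (fun b a => I a b) Q b2 a = 1) := by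
      rw [mem_fs]
      exact ⟨⟨hb2, by rw [hP, hQ]⟩, by rw [hee a1 b2 hb2]; exact e2⟩
    rw [hz, mem_singleton] at m1 m2
    apply hnsc
    rw [m2, ← m1]
    exact ha'.1.symm
  obtain ⟨c3, hc3, k3⟩ := E_ex (I := I) (P := P) (Q := Q) (a := a2) (v := 3) (by rw [(hrow a2).2.2]; norm_num)
  obtain ⟨c1, hc1, k1⟩ := E_ex (I := I) (P := P) (Q := Q) (a := a2) (v := 1) (by rw [(hrow a2).1]; norm_num)
  have f1 : ec I P a2 b1 = 1 := by
    rcases hcover c1 with hs | hs | hs
    · have := h.ec_inv a2 hs; omega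
    · have := h.ec_inv a2 hs; omega
    · have := h.ec_inv a2 hs; omega
  have f2 : ec I P a2 b2 = 3 := by
    rcases hcover c3 with hs | hs | hs
    · have := h.ec_inv a2 hs; omega
    · have := h.ec_inv a2 hs; omega
    · have := h.ec_inv a2 hs; omega
  let b : Fin 3 → β := ![b0, b1, b2]
  have hb : ∀ j j', j ≠ j' → ¬ Q.SameCycle (b j) (b j') := by
    intro j j' hjj
    fin_cases j <;> fin_cases j'
    · exact absurd rfl hjj
    · exact n01
    · exact n02
    · exact fun hs => n01 hs.symm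
    · exact absurd rfl hjj
    · exact n12
    · exact fun hs => n02 hs.symm
    · exact fun hs => n12 hs.symm
    · exact absurd rfl hjj
  have hns : ∀ s t : ℤ, ¬ P.SameCycle (pw P s a1) (pw P t a2) := by
    intro s t hs
    exact hnsc (((sc_pw P s a1).trans hs).trans (sc_pw P t a2).symm)
  have hTor := tt_or_to h h (hP a1) (hP a2) (s := 0) (t := 0) (b := b0) (by rw [pw_zero]; exact hb0)
    (by rw [pw_zero]; exact ha2)
  rcases hTor with hT | hT
  · refine final11 h h (hP a1) (hP a2) (fun s t => h.joined (hns s t)) ?_ hQ b hb e0 e1 e2 f0 f1 f2 hT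
    intro s t e
    exact hns s t (by rw [e])
  · refine final11 (P2 := P.symm) h h.flipP (hP a1) (by rw [per_symm]; exact hP a2) ?_ ?_ hQ b hb e0 e1 e2
      (by rw [ec_symmP]; exact f0) (by rw [ec_symmP]; exact f1) (by rw [ec_symmP]; exact f2) ?_
    · intro s t
      rw [pw_symm]
      exact h.joined (hns s (-t))
    · intro s t e
      rw [pw_symm] at e
      exact hns s (-t) (by rw [e])
    · rcases hT with ⟨x, y⟩ | ⟨x, y⟩
      · left
        refine ⟨x, ?_⟩
        have := y.symm
        rw [Equiv.symm_symm] at this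
        exact this
      · right
        exact ⟨x, y.symm⟩

theorem no11 (h : OC I P Q) (h1 : Yc P 11 = 33) (h2 : Yc Q 11 = 33) : False :=
  h.no11_aux (all_per 33 h.conf.ca h1) (all_per 33 h.conf.cb h2)

end OC

/-- There is no configuration `33_6`. -/
theorem no_conf (h : Conf I) : False := by
  obtain ⟨P, Q, h⟩ := exists_OC h
  rcases h.classify with h1 | h1 | h1 | h1
  · exact h.no33 h1.1 h1.2
  · exact h.no11 h1.1 h1.2
  · exact h.no15 h1.1 h1.2.1 h1.2.2.1 h1.2.2.2
  · exact h.no3 h1.1 h1.2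

end Pool.Agent.Helper15.C33
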